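import Pool.Agent.P.MP_5a7d1f_lc.Gro.Real

/-!
Codes, Boolean algebras of `N`, points of their Stone spaces, cells and independent families.
-/

set_option synthInstance.maxSize 16384
set_option linter.unusedSectionVars false

namespace Pool.Agent.P.MP_5a7d1f_lc.Gro

open ZFSet Pool.Agent.Lib.Forcing Pool.Agent.Lib.Typed Pool.Agent.P.MP_af0a18_lc

variable {N : Set ZFSet.{0}} [ZFC N]
variable {X Y W R : Type} [Coded N X] [Coded N Y] [Coded N W] [Coded N R]

theorem mem_setCode {X : Type} {c : X → ZFSet.{0}} {S : Set X} {z : ZFSet.{0}} :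
    z ∈ setCode c S ↔ ∃ x ∈ S, c x = z := by
  simp [setCode, mem_range]

theorem cd_dset_eq (S : DSet N X) : cd N S = setCode (cd N) {x | S.Mem x} := by
  ext z
  rw [mem_cd_dset, mem_setCode]
  rfl

theorem setCode_mem_iff {S : Set X} : setCode (cd N) S ∈ N ↔ DefF N (fun x => x ∈ S) :=
  ⟨fun h => (defF_mem h).congr_iff fun x => by simp [mem_setCode],
    fun h => (cd_dset_eq (⟨_, h⟩ : DSet N X)) ▸ cd_mem _⟩

theorem funCode_mem_iff {f : X → Y} : funCode (cd N) (cd N) f ∈ N ↔ DefF N f :=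
  (setCode_mem_iff (X := X × Y)).trans ⟨DefF.of_graph, fun h => by
    change DefF N (fun z : X × Y => f z.1 = z.2)
    fun_prop⟩

theorem realCode_mem_iff {f : X → ℝ} : realCode (cd N) f ∈ N ↔ RealFn N f :=
  setCode_mem_iff (X := X × Q3)

/-- Coding along an injection with definable range, with a given form of the code. -/
@[reducible] noncomputable def ofCode {Y : Type} (ι : Y → X) (hι : Function.Injective ι)
    (h : DefF N (fun x => ∃ y, ι y = x)) (c : Y → ZFSet.{0}) (hc : ∀ y, c y = cd N (ι y)) :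
    Coded N Y where
  code := c
  inj := fun _ _ e => hι (Coded.inj ((hc _).symm.trans (e.trans (hc _))))
  mem := by
    rw [show c = fun y => cd N (ι y) from funext hc]
    exact (Coded.ofInj ι hι h).mem

/-- The operations of `A` are definable. -/
class BA (N : Set ZFSet.{0}) [ZFC N] (A : Type) [Coded N A] [BooleanAlgebra A] : Prop where
  inf : DefF N (fun z : A × A => z.1 ⊓ z.2)
  compl : DefF N (fun a : A => aᶜ)

variable {A : Type} [Coded N A] [BooleanAlgebra A] [hA : BA N A]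

@[fun_prop] theorem DefF.inf {f g : W → A} (hf : DefF N f) (hg : DefF N g) :
    DefF N (fun w => f w ⊓ g w) := hA.inf.comp (hf.prodMk hg)

@[fun_prop] theorem DefF.compl {f : W → A} (hf : DefF N f) : DefF N (fun w => (f w)ᶜ) :=
  hA.compl.comp hf

@[fun_prop] theorem DefF.sup {f g : W → A} (hf : DefF N f) (hg : DefF N g) :
    DefF N (fun w => f w ⊔ g w) :=
  (DefF.compl (DefF.inf (DefF.compl hf) (DefF.compl hg))).congr fun _ => by simp

@[fun_prop] theorem DefF.ble {f g : W → A} (hf : DefF N f) (hg : DefF N g) :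
    DefF N (fun w => f w ≤ g w) :=
  (DefF.eq (DefF.inf hf hg) hf).congr_iff fun _ => inf_eq_left

/-- The meet of a list. -/
def lmeet {A : Type} [BooleanAlgebra A] (l : List A) : A := l.foldr (fun a b => a ⊓ b) ⊤

@[fun_prop] theorem DefF.lmeet {l : W → List A} (hl : DefF N l) : DefF N (fun w => lmeet (l w)) :=
  DefF.foldr (F := fun _ a b => a ⊓ b) (by fun_prop) (by fun_prop) hl

section
omit hA

@[simp] theorem lmeet_nil : lmeet ([] : List A) = ⊤ := rfl

@[simp] theorem lmeet_cons (a : A) (l : List A) : lmeet (a :: l) = a ⊓ lmeet l := rfl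

theorem le_lmeet {x : A} {l : List A} : x ≤ lmeet l ↔ ∀ a ∈ l, x ≤ a := by
  induction l with
  | nil => simp
  | cons a l ih => simp [ih]

theorem lmeet_le {a : A} {l : List A} (h : a ∈ l) : lmeet l ≤ a := le_lmeet.1 le_rfl a h

theorem lmeet_mono {l l' : List A} (h : ∀ a ∈ l, a ∈ l') : lmeet l' ≤ lmeet l :=
  le_lmeet.2 fun a ha => lmeet_le (h a ha)

@[simp] theorem lmeet_append (l l' : List A) : lmeet (l ++ l') = lmeet l ⊓ lmeet l' :=
  eq_of_forall_le_iff fun x => by simp [le_lmeet, or_imp, forall_and]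

open Classical in
/-- A literal. -/
noncomputable def lit {R A : Type} [BooleanAlgebra A] (e : R → A) (z : R × Prop) : A :=
  if z.2 then e z.1 else (e z.1)ᶜ

/-- The cell of a list of signed indices. -/
noncomputable def cell {R A : Type} [BooleanAlgebra A] (e : R → A) (l : List (R × Prop)) : A :=
  lmeet (l.map (lit e))

theorem lit_not (e : R → A) (r : R) (s : Prop) : lit e (r, ¬ s) = (lit e (r, s))ᶜ := by
  by_cases h : s <;> simp [lit, h]

@[simp] theorem lit_true (e : R → A) (r : R) : lit e (r, True) = e r := by simp [lit]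

@[simp] theorem lit_false (e : R → A) (r : R) : lit e (r, False) = (e r)ᶜ := by simp [lit]

@[simp] theorem cell_nil (e : R → A) : cell e [] = ⊤ := rfl

@[simp] theorem cell_cons (e : R → A) (z : R × Prop) (l : List (R × Prop)) :
    cell e (z :: l) = lit e z ⊓ cell e l := rfl

@[simp] theorem cell_append (e : R → A) (l l' : List (R × Prop)) :
    cell e (l ++ l') = cell e l ⊓ cell e l' := by simp [cell]

theorem le_cell {e : R → A} {l : List (R × Prop)} {x : A} :
    x ≤ cell e l ↔ ∀ z ∈ l, x ≤ lit e z := by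
  simp only [cell, le_lmeet, List.forall_mem_map]

theorem cell_le {e : R → A} {l : List (R × Prop)} {z : R × Prop} (h : z ∈ l) :
    cell e l ≤ lit e z := le_cell.1 le_rfl z h

theorem cell_mono {e : R → A} {l l' : List (R × Prop)} (h : ∀ z ∈ l, z ∈ l') :
    cell e l' ≤ cell e l := le_cell.2 fun z hz => cell_le (h z hz)

theorem cell_congr {e e' : R → A} {l : List (R × Prop)} (h : ∀ z ∈ l, e z.1 = e' z.1) :
    cell e l = cell e' l := by
  unfold cell
  rw [List.map_congr_left (g := lit e') fun z hz => by unfold lit; rw [h z hz]]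

end

@[fun_prop] theorem DefF.lit {e : W → R → A} {z : W → R × Prop}
    (he : DefF N (fun z : W × R => e z.1 z.2)) (hz : DefF N z) :
    DefF N (fun w => lit (e w) (z w)) := by
  unfold Gro.lit
  fun_prop

@[fun_prop] theorem DefF.cell {e : W → R → A} {l : W → List (R × Prop)}
    (he : DefF N (fun z : W × R => e z.1 z.2)) (hl : DefF N l) :
    DefF N (fun w => cell (e w) (l w)) := by
  unfold Gro.cell
  fun_prop

/-- A consistent list of signed indices from `Rp`. -/
def Val {R : Type} (Rp : R → Prop) (l : List (R × Prop)) : Prop :=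
  ∀ z ∈ l, Rp z.1 ∧ ∀ z' ∈ l, z.1 = z'.1 → z.2 = z'.2

@[fun_prop] theorem DefF.valid {Rp : W → R → Prop} {l : W → List (R × Prop)}
    (hR : DefF N (fun z : W × R => Rp z.1 z.2)) (hl : DefF N l) :
    DefF N (fun w => Val (Rp w) (l w)) := by
  unfold Val
  simp only [all_eq, imp_eq]
  fun_prop

/-- `e` is an independent family on `Rp`. -/
def Indep {R A : Type} [BooleanAlgebra A] (e : R → A) (Rp : R → Prop) : Prop :=
  ∀ l, Val Rp l → cell e l ≠ ⊥

/-- The points of the Stone space. -/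
abbrev Pt (N : Set ZFSet.{0}) (A : Type) [Coded N A] [BooleanAlgebra A] : Type :=
  St N (cd N : A → ZFSet.{0})

/-- A point as a definable set. -/
def Pt.toDSet (x : Pt N A) : DSet N A := ⟨fun a => a ∈ x.1, setCode_mem_iff.1 x.2.1⟩

theorem Pt.inf (x : Pt N A) (a b : A) : a ⊓ b ∈ x.1 ↔ a ∈ x.1 ∧ b ∈ x.1 :=
  x.2.2.1 a b (cd_mem a) (cd_mem b)

theorem Pt.compl (x : Pt N A) (a : A) : aᶜ ∈ x.1 ↔ a ∉ x.1 := x.2.2.2 a (cd_mem a)

theorem Pt.ext {x y : Pt N A} (h : ∀ a, a ∈ x.1 ↔ a ∈ y.1) : x = y := Subtype.ext (Set.ext h)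

/-- A point given by a definable ultrafilter. -/
def Pt.mk (S : A → Prop) (hS : DefF N S) (h1 : ∀ a b, S (a ⊓ b) ↔ S a ∧ S b)
    (h2 : ∀ a, S aᶜ ↔ ¬ S a) : Pt N A :=
  ⟨{a | S a}, setCode_mem_iff.2 hS, fun a b _ _ => h1 a b, fun a _ => h2 a⟩

noncomputable instance : Coded N (Pt N A) :=
  ofCode Pt.toDSet (fun _ _ h => Pt.ext fun a => eq_iff_iff.1 (congrArg (fun S => S.Mem a) h))
    ((by simp only [all_eq]; fun_prop : DefF N (fun S : DSet N A =>
      (∀ a b, S.Mem (a ⊓ b) ↔ S.Mem a ∧ S.Mem b) ∧ ∀ a, S.Mem aᶜ ↔ ¬ S.Mem a)).congr_iff fun S =>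
      ⟨fun h => ⟨Pt.mk S.Mem S.def_mem h.1 h.2, rfl⟩, by
        rintro ⟨x, rfl⟩
        exact ⟨x.inf, x.compl⟩⟩)
    stCode fun x => (cd_dset_eq x.toDSet).symm

theorem DefF.toDSet : DefF N (Pt.toDSet : Pt N A → _) :=
  defF_of_cd_eq fun x => cd_dset_eq x.toDSet

/-- The element `a` belongs to the point `x`. -/
def Pt.has (x : Pt N A) (a : A) : Prop := a ∈ x.1

@[fun_prop] theorem DefF.has {x : W → Pt N A} {a : W → A} (hx : DefF N x) (ha : DefF N a) :
    DefF N (fun w => (x w).has (a w)) := DefF.mem (DefF.toDSet.comp hx) ha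

theorem DefF.of_has {x : W → Pt N A} (h : DefF N (fun z : W × A => (x z.1).has z.2)) : DefF N x :=
  DefF.of_inj (fun _ _ h => Pt.ext fun a => eq_iff_iff.1 (congrArg (fun S => S.Mem a) h))
    DefF.toDSet (DefF.of_mem h)

theorem Pt.has_inf {x : Pt N A} {a b : A} : x.has (a ⊓ b) ↔ x.has a ∧ x.has b := x.inf a b

theorem Pt.has_compl {x : Pt N A} {a : A} : x.has aᶜ ↔ ¬ x.has a := x.compl a

theorem Pt.has.mono {x : Pt N A} {a b : A} (h : x.has a) (hab : a ≤ b) : x.has b :=
  (Pt.has_inf.1 (by rwa [inf_eq_left.2 hab] : x.has (a ⊓ b))).2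

theorem Pt.not_has_bot (x : Pt N A) : ¬ x.has ⊥ := fun h =>
  Pt.has_compl.1 (h.mono bot_le : x.has ⊥ᶜ) h

theorem Pt.has_top (x : Pt N A) : x.has ⊤ := compl_bot (α := A) ▸ Pt.has_compl.2 x.not_has_bot

theorem Pt.has_sup {x : Pt N A} {a b : A} : x.has (a ⊔ b) ↔ x.has a ∨ x.has b := by
  rw [← compl_compl (a ⊔ b), compl_sup, Pt.has_compl, Pt.has_inf, Pt.has_compl, Pt.has_compl]
  tauto

theorem Pt.has_lmeet {x : Pt N A} {l : List A} : x.has (lmeet l) ↔ ∀ a ∈ l, x.has a := by
  induction l with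
  | nil => simpa using x.has_top
  | cons a l ih => simp [Pt.has_inf, ih]

theorem Pt.has_lit {x : Pt N A} {e : R → A} {z : R × Prop} :
    x.has (lit e z) ↔ (x.has (e z.1) ↔ z.2) := by
  by_cases h : z.2 <;> simp [lit, h, Pt.has_compl]

theorem Pt.has_cell {x : Pt N A} {e : R → A} {l : List (R × Prop)} :
    x.has (cell e l) ↔ ∀ z ∈ l, (x.has (e z.1) ↔ z.2) := by
  simp only [cell, Pt.has_lmeet, List.forall_mem_map, Pt.has_lit]

theorem Pt.exists_sep {x y : Pt N A} (h : x ≠ y) : ∃ a, x.has a ∧ ¬ y.has a := by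
  by_contra k
  push Not at k
  exact h (Pt.ext fun a => ⟨k a, fun h' => by_contra fun h'' =>
    Pt.has_compl.1 (k _ (Pt.has_compl.2 h'')) h'⟩)

theorem exists_filter_list {X : Type} {l : List X} {S : X → Prop} {x : X}
    (h : ∀ y ∈ l, S y ∨ y = x) : ∃ l' : List X, (∀ y ∈ l', S y) ∧ ∀ y ∈ l, y ∈ x :: l' := by
  classical
  refine ⟨l.filter S, fun y hy => by simpa using (List.mem_filter.1 hy).2, fun y hy => ?_⟩
  rcases h y hy with k | k <;> simp [hy, k]

/-- The ultrafilter theorem in `N`. -/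
theorem exists_pt [Enum N] {F : A → Prop} (hF : DefF N F)
    (h : ∀ l : List A, (∀ a ∈ l, F a) → lmeet l ≠ ⊥) : ∃ x : Pt N A, ∀ a, F a → x.has a := by
  obtain ⟨S, hS, h1, h2, h3⟩ := tukey (N := N) (Ok := fun l : List A => lmeet l ≠ ⊥) (by fun_prop)
    hF h
  have key : ∀ a, S a ↔ ∀ l : List A, (∀ b ∈ l, S b) → a ⊓ lmeet l ≠ ⊥ := fun a =>
    ⟨fun ha l hl => h2 (a :: l) (List.forall_mem_cons.2 ⟨ha, hl⟩), fun H => h3 a fun l hl => by
      obtain ⟨l', k1, k2⟩ := exists_filter_list hl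
      exact ne_bot_of_le_ne_bot (H l' k1) (lmeet_mono k2)⟩
  refine ⟨Pt.mk S hS (fun a b => ⟨fun H => ⟨(key a).2 fun l hl => ?_, (key b).2 fun l hl => ?_⟩,
    fun H => (key _).2 fun l hl => ?_⟩) fun a => ⟨fun H H' => ?_, fun H => by_contra fun H' => ?_⟩,
    h1⟩
  · exact ne_bot_of_le_ne_bot ((key _).1 H l hl) (inf_le_inf_right _ inf_le_left)
  · exact ne_bot_of_le_ne_bot ((key _).1 H l hl) (inf_le_inf_right _ inf_le_right)
  · rw [inf_assoc]
    exact (key a).1 H.1 (b :: l) (List.forall_mem_cons.2 ⟨H.2, hl⟩)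
  · exact (key _).1 H [a] (by simpa) (by simp)
  · rw [key] at H H'
    push Not at H H'
    obtain ⟨l, k1, k2⟩ := H
    obtain ⟨l', k3, k4⟩ := H'
    refine h2 (l ++ l') (by simpa [or_imp, forall_and] using ⟨k1, k3⟩) ?_
    rw [lmeet_append, ← top_inf_eq (lmeet l ⊓ lmeet l'), ← sup_compl_eq_top (x := a), inf_sup_right,
      ← inf_assoc, k2, inf_comm (lmeet l), ← inf_assoc, k4]
    simp

theorem exists_pt_has [Enum N] {a : A} (h : a ≠ ⊥) : ∃ x : Pt N A, x.has a :=
  (exists_pt (F := fun b => b = a) (by fun_prop) fun _ hl =>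
    ne_bot_of_le_ne_bot h (le_lmeet.2 fun b hb => (hl b hb).ge)).imp fun _ h => h a rfl

/-- An infinite algebra has a definable injective sequence of points. -/
theorem exists_points [Enum N] [Infinite A] : ∃ x : ℕ → Pt N A, DefF N x ∧ Function.Injective x := by
  have h0 : Infinite (Pt N A) := by
    by_contra h
    have := not_infinite_iff_finite.1 h
    refine not_injective_infinite_finite (fun (a : A) (x : Pt N A) => x.has a) fun a b hab => ?_
    have h1 : ∀ a b : A, (∀ x : Pt N A, x.has a → x.has b) → a ≤ b := fun a b H => by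
      by_contra k
      obtain ⟨x, hx⟩ := exists_pt_has (N := N) (a := a ⊓ bᶜ) fun e =>
        k (disjoint_compl_right_iff.1 (disjoint_iff.2 e))
      exact Pt.has_compl.1 (Pt.has_inf.1 hx).2 (H x (Pt.has_inf.1 hx).1)
    exact le_antisymm (h1 a b fun x => (congrFun hab x).mp) (h1 b a fun x => (congrFun hab x).mpr)
  obtain ⟨x, hx, H⟩ := tdc (N := N) (K := ℕ) (Y := Pt N A) (R := fun i g y => ∀ j, j < i → g j ≠ y)
    (by simp only [all_eq, imp_eq]; fun_prop) (fun i g g' y h H j hj => h j hj ▸ H j hj)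
    fun i g _ _ => by
      obtain ⟨y, hy⟩ := ((Set.finite_lt_nat i).image g).exists_notMem
      exact ⟨y, fun j hj e => hy ⟨j, hj, e⟩⟩
  refine ⟨x, hx, fun i j e => ?_⟩
  rcases lt_trichotomy i j with k | k | k
  exacts [(H j i k e).elim, k, (H i j k e.symm).elim]

end Pool.Agent.P.MP_5a7d1f_lc.Gro
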