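import Pool.Agent.Lib.Typed.Force

/-!
Small sets, well orders, successor cardinals, transfinite dependent choice and the lemma of
Tukey, inside a model `N`, in the typed layer.
-/

set_option synthInstance.maxSize 16384
set_option linter.unusedSectionVars false

namespace Pool.Agent.P.MP_5a7d1f_lc.Gro

open ZFSet Pool.Agent.Lib.Forcing Pool.Agent.Lib.Typed Pool.Agent.P.MP_af0a18_lc

variable {N : Set ZFSet.{0}} [ZFC N]
variable {X Y Z W L L' : Type} [Coded N X] [Coded N Y] [Coded N Z] [Coded N W] [Coded N L]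
  [Coded N L']

/-- Every set of `N` is enumerated in `N` by an ordinal. -/
class Enum (N : Set ZFSet.{0}) : Prop where
  enum : ∀ x ∈ N, ∃ α ∈ N, α.IsOrdinal ∧ Surj N α x

/-- `p` is covered by the range of a definable function on `L`. -/
def Sm (N : Set ZFSet.{0}) [ZFC N] (L : Type) [Coded N L] {X : Type} [Coded N X]
    (p : X → Prop) : Prop :=
  ∃ g : L → X, DefF N g ∧ ∀ x, p x → ∃ i, g i = x

theorem sm_nat {p : X → Prop} : Sm N ℕ p ↔ Ctble N p := Iff.rfl

/-- `L` is infinite and maps onto its square in `N`. -/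
class Big (N : Set ZFSet.{0}) [ZFC N] (L : Type) [Coded N L] : Prop where
  pair : Sm N L (fun _ : L × L => True)
  nat : Sm N L (fun _ : ℕ => True)

instance : Big N ℕ where
  pair := ⟨Nat.unpair, DefF.unpair, fun z _ => ⟨Nat.pair z.1 z.2, Nat.unpair_pair _ _⟩⟩
  nat := ctble_nat

theorem Big.nonempty (N : Set ZFSet.{0}) [ZFC N] (L : Type) [Coded N L] [h : Big N L] :
    Nonempty L := by
  obtain ⟨g, -, h⟩ := h.nat
  exact ⟨(h 0 trivial).choose⟩

theorem Sm.mono {p q : X → Prop} (h : Sm N L q) (hpq : ∀ x, p x → q x) : Sm N L p :=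
  h.imp fun _ h => ⟨h.1, fun x hx => h.2 x (hpq x hx)⟩

theorem sm_self : Sm N L (fun _ : L => True) := ⟨fun n => n, DefF.id, fun n _ => ⟨n, rfl⟩⟩

theorem sm_single [Big N L] (x : X) : Sm N L (fun y => y = x) :=
  ⟨fun _ => x, DefF.const x, fun _ h => ⟨(Big.nonempty N L).some, h.symm⟩⟩

theorem Sm.image {p : X → Prop} (h : Sm N L p) {f : X → Y} (hf : DefF N f) :
    Sm N L (fun y => ∃ x, p x ∧ f x = y) := by
  obtain ⟨g, hg, h⟩ := h
  refine ⟨fun n => f (g n), by fun_prop, ?_⟩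
  rintro _ ⟨x, hx, rfl⟩
  obtain ⟨n, rfl⟩ := h x hx
  exact ⟨n, rfl⟩

theorem sm_range {f : L → X} (hf : DefF N f) : Sm N L (fun x => ∃ i, f i = x) := ⟨f, hf, fun _ h => h⟩

theorem Sm.trans {p : X → Prop} (h : Sm N L (fun _ : L' => True)) (hp : Sm N L' p) : Sm N L p := by
  obtain ⟨g, hg, hp⟩ := hp
  exact (h.image hg).mono fun x hx => (hp x hx).imp fun _ h => ⟨trivial, h⟩

theorem ctble_sm [Big N L] {p : X → Prop} (hp : Ctble N p) : Sm N L p := Big.nat.trans hp

theorem exists_enumS {R : W → X → Prop} (hR : DefF N (fun z : W × X => R z.1 z.2))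
    (h : ∀ w, Sm N L (R w)) :
    ∃ g : W → L → X, DefF N (fun z : W × L => g z.1 z.2) ∧ ∀ w x, R w x → ∃ n, g w n = x := by
  obtain ⟨f, hf, H⟩ := choice (N := N)
    (R := fun (w : W) (g : DFun N L X) => ∀ x, R w x → ∃ n, g.app n = x)
    (by simp only [all_eq, imp_eq]; fun_prop)
    (fun w => by obtain ⟨g, hg, h⟩ := h w; exact ⟨⟨g, hg⟩, h⟩)
  exact ⟨fun w n => (f w).app n, by fun_prop, H⟩

@[fun_prop] theorem DefF.sm {R : W → X → Prop} (hR : DefF N (fun z : W × X => R z.1 z.2)) :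
    DefF N (fun w => Sm N L (R w)) :=
  (by simp only [all_eq, imp_eq]; fun_prop :
    DefF N (fun w => ∃ g : DFun N L X, ∀ x, R w x → ∃ n, g.app n = x)).congr_iff fun _ =>
      ⟨fun ⟨g, h⟩ => ⟨g.app, g.def_app, h⟩, fun ⟨g, hg, h⟩ => ⟨⟨g, hg⟩, h⟩⟩

@[fun_prop] theorem DefF.ctble {R : W → X → Prop} (hR : DefF N (fun z : W × X => R z.1 z.2)) :
    DefF N (fun w => Ctble N (R w)) := DefF.sm (L := ℕ) hR

/-- A small union of small sets; only the members of the small index set matter. -/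
theorem Sm.biUnion [hL : Big N L] {p : Y → Prop} (hp : Sm N L p) {R : Y → X → Prop}
    (hR : DefF N (fun z : Y × X => R z.1 z.2)) (h : ∀ y, Sm N L (R y)) :
    Sm N L (fun x => ∃ y, p y ∧ R y x) := by
  obtain ⟨g, hg, h⟩ := exists_enumS hR h
  obtain ⟨k, hk, hp⟩ := hp
  obtain ⟨u, hu, H⟩ := hL.pair
  refine ⟨fun n => g (k (u n).1) (u n).2, by fun_prop, ?_⟩
  rintro x ⟨y, hy, hx⟩
  obtain ⟨a, rfl⟩ := hp y hy
  obtain ⟨b, rfl⟩ := h _ x hx
  obtain ⟨n, hn⟩ := H (a, b) trivial
  exact ⟨n, by simp [hn]⟩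

theorem Sm.biUnion' [Big N L] [Nonempty X] {p : Y → Prop} (hp : Sm N L p) (hd : DefF N p)
    {R : Y → X → Prop} (hR : DefF N (fun z : Y × X => R z.1 z.2)) (h : ∀ y, p y → Sm N L (R y)) :
    Sm N L (fun x => ∃ y, p y ∧ R y x) := by
  refine (hp.biUnion (R := fun y x => p y ∧ R y x) (by fun_prop) fun y => ?_).mono
    fun x ⟨y, h1, h2⟩ => ⟨y, h1, h1, h2⟩
  by_cases hy : p y
  · exact (h y hy).mono fun _ h => h.2
  · exact (sm_single (Classical.arbitrary X)).mono fun _ h => (hy h.1).elim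

theorem Sm.prod [hL : Big N L] {p : X → Prop} {q : Y → Prop} (hp : Sm N L p) (hq : Sm N L q) :
    Sm N L (fun z : X × Y => p z.1 ∧ q z.2) := by
  obtain ⟨g, hg, hp⟩ := hp
  obtain ⟨k, hk, hq⟩ := hq
  obtain ⟨u, hu, H⟩ := hL.pair
  refine ⟨fun n => (g (u n).1, k (u n).2), by fun_prop, ?_⟩
  rintro ⟨x, y⟩ ⟨hx, hy⟩
  obtain ⟨a, rfl⟩ := hp x hx
  obtain ⟨b, rfl⟩ := hq y hy
  obtain ⟨n, hn⟩ := H (a, b) trivial
  exact ⟨n, by simp [hn]⟩

theorem Sm.prod' [Big N L] (hp : Sm N L (fun _ : X => True)) (hq : Sm N L (fun _ : Y => True)) :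
    Sm N L (fun _ : X × Y => True) := (hp.prod hq).mono fun _ _ => ⟨trivial, trivial⟩

theorem Sm.union [hL : Big N L] {p q : X → Prop} (hp : Sm N L p) (hq : Sm N L q) :
    Sm N L (fun x => p x ∨ q x) := by
  obtain ⟨g, hg, hp⟩ := hp
  obtain ⟨k, hk, hq⟩ := hq
  refine (((hL.nat.prod' sm_self)).image (f := fun z : ℕ × L => if z.1 = 0 then g z.2 else k z.2)
    (by fun_prop)).mono ?_
  rintro x (h | h)
  · obtain ⟨i, rfl⟩ := hp x h
    exact ⟨(0, i), trivial, by simp⟩
  · obtain ⟨i, rfl⟩ := hq x h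
    exact ⟨(1, i), trivial, by simp⟩

theorem Sm.list [hL : Big N L] {p : X → Prop} (hp : Sm N L p) :
    Sm N L (fun l : List X => ∀ x ∈ l, p x) := by
  obtain ⟨g, hg, hp⟩ := hp
  have h1 : ∀ n : ℕ, Sm N L (fun l : List X => l.length = n ∧ ∀ x ∈ l, ∃ k, g k = x) := by
    intro n
    induction n with
    | zero => exact (sm_single []).mono fun l h => List.length_eq_zero_iff.1 h.1
    | succ n ih =>
      refine ((sm_self.prod ih).image (f := fun z => g z.1 :: z.2) (by fun_prop)).mono ?_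
      rintro (_ | ⟨x, l⟩) ⟨h1, h2⟩
      · simp at h1
      · obtain ⟨k, rfl⟩ := h2 x List.mem_cons_self
        exact ⟨(k, l), ⟨trivial, by simpa using h1, fun y hy => h2 y (List.mem_cons_of_mem _ hy)⟩,
          rfl⟩
  refine (hL.nat.biUnion (by simp only [all_eq, imp_eq]; fun_prop) h1).mono fun l hl => ?_
  exact ⟨_, trivial, rfl, fun x hx => hp x (hl x hx)⟩

theorem Sm.list' [Big N L] (hp : Sm N L (fun _ : X => True)) : Sm N L (fun _ : List X => True) :=
  hp.list.mono fun _ _ _ _ => trivial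

theorem sm_prop [hL : Big N L] : Sm N L (fun _ : Prop => True) :=
  ((sm_single True).union (sm_single False)).mono fun p _ => by
    by_cases h : p <;> simp [h]

theorem sm_mem_list [Big N L] [Nonempty X] (l : List X) : Sm N L (fun x => x ∈ l) := by
  induction l with
  | nil => exact (sm_single (Classical.arbitrary X)).mono fun _ h => by simp at h
  | cons a l ih => exact ((sm_single a).union ih).mono fun _ h => List.mem_cons.1 h

theorem sm_finite [Big N L] [Nonempty X] {p : X → Prop} (h : {x | p x}.Finite) : Sm N L p :=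
  (sm_mem_list h.toFinset.toList).mono fun _ hx => by simpa using hx

theorem Sm.exists_inj [Nonempty L] {p : X → Prop} (hp : Sm N L p) :
    ∃ j : X → L, DefF N j ∧ ∀ x y, p x → p y → j x = j y → x = y := by
  obtain ⟨g, hg, hp⟩ := hp
  obtain ⟨j, hj, H⟩ := choice (N := N) (R := fun (x : X) (n : L) => (∃ k, g k = x) → g n = x)
    (by simp only [imp_eq]; fun_prop) (fun x => by
      by_cases h : ∃ k, g k = x
      · exact h.imp fun _ h _ => h
      · exact ⟨Classical.arbitrary L, fun h' => (h h').elim⟩)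
  exact ⟨j, hj, fun x y hx hy h => by rw [← H x (hp x hx), h, H y (hp y hy)]⟩

/-- A definable set that is mapped injectively into a small set is small. -/
theorem Sm.of_inj [Nonempty X] {q : Y → Prop} (hq : Sm N L q) {p : X → Prop} (hp : DefF N p)
    {f : X → Y} (hf : DefF N f) (h1 : ∀ x, p x → q (f x))
    (h2 : ∀ x y, p x → p y → f x = f y → x = y) : Sm N L p := by
  obtain ⟨j, hj, H⟩ := choice (N := N)
    (R := fun (y : Y) (x : X) => (∃ x, p x ∧ f x = y) → p x ∧ f x = y)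
    (by simp only [imp_eq]; fun_prop) (fun y => by
      by_cases h : ∃ x, p x ∧ f x = y
      · exact h.imp fun _ h _ => h
      · exact ⟨Classical.arbitrary X, fun h' => (h h').elim⟩)
  exact (hq.image hj).mono fun x hx => ⟨f x, h1 x hx,
    h2 _ _ (H _ ⟨x, hx, rfl⟩).1 hx (H _ ⟨x, hx, rfl⟩).2⟩

/-- Choice with a side condition. -/
theorem choice' [Nonempty Y] {p : X → Prop} {R : X → Y → Prop}
    (hR : DefF N (fun z : X × Y => R z.1 z.2)) (h : ∀ x, p x → ∃ y, R x y) :
    ∃ f : X → Y, DefF N f ∧ ∀ x, p x → R x (f x) := by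
  obtain ⟨f, hf, H⟩ := choice (N := N) (R := fun (x : X) (y : Y) => (∃ y, R x y) → R x y)
    (by simp only [imp_eq]; fun_prop) (fun x => by
      by_cases h : ∃ y, R x y
      · exact h.imp fun _ h _ => h
      · exact ⟨Classical.arbitrary Y, fun h' => (h h').elim⟩)
  exact ⟨f, hf, fun x hx => H x (h x hx)⟩

/-- A small set that contains a given point and is closed under a definable operation. -/
theorem exists_hull [hL : Big N L] {V : X → Prop} {F : L → X → X → X}
    (hF : DefF N (fun z : L × X × X => F z.1 z.2.1 z.2.2))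
    (hV : ∀ i x y, V x → V y → V (F i x y)) {x0 : X} (h0 : V x0) :
    ∃ π : L → X, DefF N π ∧ (∀ i, V (π i)) ∧ (∃ i, π i = x0) ∧
      ∀ i j k, ∃ m, π m = F i (π j) (π k) := by
  classical
  obtain ⟨u, hu, Hu⟩ : Sm N L (fun _ : ℕ × L × L × L => True) :=
    hL.nat.prod' (sm_self.prod' (sm_self.prod' sm_self))
  obtain ⟨G, hG, HG⟩ := exists_dfun (N := N) (W := DFun N L X) (F := fun g i =>
    if (u i).1 = 0 then g.app (u i).2.1 else F (u i).2.1 (g.app (u i).2.2.1) (g.app (u i).2.2.2))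
    (by fun_prop)
  let s : ℕ → DFun N L X := fun n => Nat.rec ⟨fun _ => x0, DefF.const x0⟩ (fun _ g => G g) n
  have hs : DefF N s := (DefF.natRec (N := N) (W := ℕ)
    (a := fun _ => (⟨fun _ => x0, DefF.const x0⟩ : DFun N L X)) (s := fun _ _ g => G g)
    (by fun_prop) (by fun_prop)).comp (f := fun n : ℕ => ((0 : ℕ), n)) (by fun_prop)
  have h1 : ∀ n i, V ((s n).app i) := by
    intro n
    induction n with
    | zero => exact fun _ => h0
    | succ n ih =>
      intro i
      change V ((G (s n)).app i)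
      rw [HG]
      split_ifs
      exacts [ih _, hV _ _ _ (ih _) (ih _)]
  have h2 : ∀ n m, n ≤ m → ∀ i, ∃ j, (s m).app j = (s n).app i := by
    intro n m h
    induction h with
    | refl => exact fun i => ⟨i, rfl⟩
    | @step m _ ih =>
      intro i
      obtain ⟨j, hj⟩ := ih i
      obtain ⟨k, hk⟩ := Hu (0, j, j, j) trivial
      exact ⟨k, by change (G (s m)).app k = _; rw [HG, hk]; simpa using hj⟩
  refine ⟨fun i => (s (u i).1).app (u i).2.1, by fun_prop, fun i => h1 _ _, ?_, fun i j k => ?_⟩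
  · obtain ⟨i⟩ := Big.nonempty N L
    obtain ⟨k, hk⟩ := Hu (0, i, i, i) trivial
    exact ⟨k, by simp only [hk]; rfl⟩
  · obtain ⟨j', hj⟩ := h2 _ _ (le_max_left (u j).1 (u k).1) (u j).2.1
    obtain ⟨k', hk⟩ := h2 _ _ (le_max_right (u j).1 (u k).1) (u k).2.1
    obtain ⟨m, hm⟩ := Hu (1, i, j', k') trivial
    obtain ⟨m', hm'⟩ := Hu (max (u j).1 (u k).1 + 1, m, m, m) trivial
    refine ⟨m', ?_⟩
    simp only [hm']
    change (G (s _)).app m = _
    rw [HG, hm]
    simp [hj, hk]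

/-- A predicate that is known to be definable. -/
class DefC (N : Set ZFSet.{0}) [ZFC N] {X : Type} [Coded N X] (p : X → Prop) : Prop where
  out : DefF N p

noncomputable instance {p : X → Prop} [h : DefC N p] : Coded N {x // p x} :=
  Coded.ofInj Subtype.val Subtype.val_injective
    (h.out.congr_iff fun x => ⟨fun h => ⟨⟨x, h⟩, rfl⟩, fun ⟨y, h⟩ => h ▸ y.2⟩)

@[fun_prop] theorem DefF.val {p : X → Prop} [DefC N p] :
    DefF N (Subtype.val : {x // p x} → X) := defF_of_cd_eq fun _ => rfl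

theorem DefF.mk {p : X → Prop} [DefC N p] {f : W → X} (hf : DefF N f) (h : ∀ w, p (f w)) :
    DefF N (fun w => (⟨f w, h w⟩ : {x // p x})) :=
  DefF.of_inj Subtype.val_injective DefF.val hf

/-- `W` is well ordered in `N`. -/
class WO (N : Set ZFSet.{0}) [ZFC N] (W : Type) [Coded N W] [LinearOrder W] : Prop where
  wf : WellFoundedLT W
  def_lt : DefF N (fun z : W × W => z.1 < z.2)

instance : WO N ℕ := ⟨inferInstance, by fun_prop⟩

instance {ν : ZFSet.{0}} [InM N ν] [Fact ν.IsOrdinal] : WO N (El ν) :=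
  ⟨inferInstance, (defF_cd_mem DefF.fst DefF.snd).congr_iff fun _ => El.lt_iff.symm⟩

section
variable {K : Type} [Coded N K] [LinearOrder K] [hK : WO N K]

@[fun_prop] theorem DefF.wlt {f g : W → K} (hf : DefF N f) (hg : DefF N g) :
    DefF N (fun w => f w < g w) := hK.def_lt.comp (hf.prodMk hg)

@[fun_prop] theorem DefF.wle {f g : W → K} (hf : DefF N f) (hg : DefF N g) :
    DefF N (fun w => f w ≤ g w) := (DefF.wlt hg hf).not.congr_iff fun _ => not_lt

@[fun_prop] theorem DefF.wmax {f g : W → K} (hf : DefF N f) (hg : DefF N g) :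
    DefF N (fun w => max (f w) (g w)) := by
  simp only [max_def]
  fun_prop

instance (a : K) : DefC N (fun x : K => x < a) := ⟨by fun_prop⟩

instance {p : K → Prop} [DefC N p] : WO N {x // p x} :=
  ⟨have := hK.wf; inferInstance,
    (by fun_prop : DefF N (fun z : {x // p x} × {x // p x} => z.1.1 < z.2.1))⟩

/-- The initial segment below `a`. -/
abbrev Lv (a : K) : Type := {x : K // x < a}

/-- Transfinite dependent choice. -/
theorem tdc [Nonempty Y] {R : K → (K → Y) → Y → Prop}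
    (hR : DefF N (fun z : K × DFun N K Y × Y => R z.1 z.2.1.app z.2.2))
    (loc : ∀ i g g' y, (∀ j, j < i → g j = g' j) → R i g y → R i g' y)
    (step : ∀ i g, DefF N g → (∀ j, j < i → R j g (g j)) → ∃ y, R i g y) :
    ∃ s : K → Y, DefF N s ∧ ∀ i, R i s (s i) := by
  classical
  have := hK.wf
  obtain ⟨y0⟩ := ‹Nonempty Y›
  obtain ⟨F, hF, HF⟩ := choice' (N := N) (p := fun z : K × DFun N K Y => ∃ y, R z.1 z.2.app y)
    (R := fun (z : K × DFun N K Y) y => R z.1 z.2.app y)
    (hR.comp (f := fun z : (K × DFun N K Y) × Y => (z.1.1, z.1.2, z.2)) (by fun_prop)) fun _ h => h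
  obtain ⟨c, hc, Hc⟩ := exists_dfun (N := N) (W := K × DFun N K Y)
    (F := fun z j => if j < z.1 then z.2.app j else y0) (by fun_prop)
  have c1 : ∀ i (g g' : DFun N K Y), (∀ j, j < i → g.app j = g'.app j) → c (i, g) = c (i, g') := by
    intro i g g' h
    ext j
    rw [Hc, Hc]
    split_ifs with hj
    exacts [h j hj, rfl]
  let Ap : K → DFun N K Y → Prop := fun i g => ∀ j, j < i → g.app j = F (j, c (j, g))
  have uniq : ∀ j i i' g g', Ap i g → Ap i' g' → j < i → j < i' → g.app j = g'.app j := by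
    intro j
    induction j using WellFoundedLT.induction with
    | ind j ih =>
      intro i i' g g' h h' h1 h2
      rw [h j h1, h' j h2, c1 j g g' fun k hk => ih k hk i i' g g' h h' (hk.trans h1) (hk.trans h2)]
  obtain ⟨s, hs, Hs⟩ := choice' (N := N) (p := fun j : K => ∃ g, Ap j g)
    (R := fun j y => ∃ g : DFun N K Y, (∀ k, k < j → g.app k = F (k, c (k, g))) ∧ y = F (j, c (j, g)))
    (by simp only [all_eq, imp_eq]; fun_prop) fun j ⟨g, h⟩ => ⟨_, g, h, rfl⟩
  have key : ∀ i, Ap i ⟨s, hs⟩ → s i = F (i, c (i, ⟨s, hs⟩)) := by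
    intro i h
    obtain ⟨g, h1, h2⟩ := Hs i ⟨_, h⟩
    rw [h2, c1 i g ⟨s, hs⟩ fun k hk => uniq k i i _ _ h1 h hk hk]
  have all : ∀ i, s i = F (i, c (i, ⟨s, hs⟩)) := by
    intro i
    induction i using WellFoundedLT.induction with
    | ind i ih => exact key i ih
  refine ⟨s, hs, fun i => ?_⟩
  induction i using WellFoundedLT.induction with
  | ind i ih =>
    have h1 : ∀ j, j < i → (c (i, ⟨s, hs⟩)).app j = s j := fun j hj => by rw [Hc, if_pos hj]
    obtain ⟨y, hy⟩ := step i s hs ih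
    rw [all i]
    exact loc _ _ _ _ h1 (HF (i, c (i, ⟨s, hs⟩)) ⟨y, loc _ _ _ _ (fun j hj => (h1 j hj).symm) hy⟩)

end

/-- Every coded type is enumerated by a well order. -/
theorem exists_wo [hE : Enum N] (X : Type) [Coded N X] [Nonempty X] :
    ∃ (K : Type) (_ : Coded N K) (_ : LinearOrder K) (_ : WO N K), Sm N K (fun _ : X => True) := by
  obtain ⟨α, hα, ho, h⟩ := hE.enum _ (car_mem (N := N) X)
  have := InM.mk hα
  have := Fact.mk ho
  obtain ⟨e, he, H⟩ := exists_fun_of_surj (M := N) (A := El α) (B := X) car_el.ge h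
  exact ⟨El α, inferInstance, inferInstance, inferInstance, e, he,
    fun x _ => (H x (cd_mem_car x)).imp fun _ h => h.2⟩

/-- The lemma of Tukey: `Ok` describes the admissible finite sets. -/
theorem tukey [Enum N] {Ok : List X → Prop} (hOk : DefF N Ok) {S0 : X → Prop} (h0 : DefF N S0)
    (hS0 : ∀ l : List X, (∀ x ∈ l, S0 x) → Ok l) :
    ∃ S : X → Prop, DefF N S ∧ (∀ x, S0 x → S x) ∧ (∀ l : List X, (∀ x ∈ l, S x) → Ok l) ∧
      ∀ x, (∀ l : List X, (∀ y ∈ l, S y ∨ y = x) → Ok l) → S x := by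
  rcases isEmpty_or_nonempty X with hX | hX
  · exact ⟨S0, h0, fun _ h => h, hS0, fun x => isEmptyElim x⟩
  obtain ⟨K, _, _, hK, e, he, He⟩ := exists_wo (N := N) X
  have := hK.wf
  obtain ⟨s, hs, Hs⟩ := tdc (N := N) (K := K) (Y := Prop) (R := fun i g y => y ↔
      ∀ l : List X, (∀ x ∈ l, S0 x ∨ x = e i ∨ ∃ j, j < i ∧ g j ∧ e j = x) → Ok l)
    (by simp only [all_eq, imp_eq]; fun_prop)
    (fun i g g' y h H => H.trans (forall_congr' fun l => imp_congr_left (forall₂_congr fun x _ =>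
      or_congr_right (or_congr_right (exists_congr fun j => and_congr_right fun hj => by
        rw [h j hj])))))
    (fun i g _ _ => ⟨_, Iff.rfl⟩)
  refine ⟨fun x => S0 x ∨ ∃ j, s j ∧ e j = x, by fun_prop, fun _ h => Or.inl h, fun l hl => ?_,
    fun x hx => ?_⟩
  · have h1 : (∀ x ∈ l, S0 x) ∨ ∃ i, s i ∧ ∀ x ∈ l, S0 x ∨ ∃ j, j ≤ i ∧ s j ∧ e j = x := by
      induction l with
      | nil => exact Or.inl (by simp)
      | cons a l ih =>
        rcases ih fun x hx => hl x (List.mem_cons_of_mem _ hx) with h | ⟨i, h1, h2⟩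
        · rcases hl a List.mem_cons_self with h3 | ⟨j, h3, h4⟩
          · exact Or.inl (List.forall_mem_cons.2 ⟨h3, h⟩)
          · exact Or.inr ⟨j, h3, List.forall_mem_cons.2
              ⟨Or.inr ⟨j, le_rfl, h3, h4⟩, fun x hx => Or.inl (h x hx)⟩⟩
        · rcases hl a List.mem_cons_self with h3 | ⟨j, h3, h4⟩
          · exact Or.inr ⟨i, h1, List.forall_mem_cons.2 ⟨Or.inl h3, h2⟩⟩
          · rcases le_total i j with h5 | h5
            · exact Or.inr ⟨j, h3, List.forall_mem_cons.2 ⟨Or.inr ⟨j, le_rfl, h3, h4⟩, fun x hx =>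
                (h2 x hx).imp_right fun ⟨k, k1, k2⟩ => ⟨k, k1.trans h5, k2⟩⟩⟩
            · exact Or.inr ⟨i, h1, List.forall_mem_cons.2 ⟨Or.inr ⟨j, h5, h3, h4⟩, h2⟩⟩
    rcases h1 with h | ⟨i, h1, h2⟩
    · exact hS0 l h
    · refine (Hs i).1 h1 l fun x hx => (h2 x hx).imp_right fun ⟨j, k1, k2, k3⟩ => ?_
      rcases k1.eq_or_lt with rfl | k1
      exacts [Or.inl k3.symm, Or.inr ⟨j, k1, k2, k3⟩]
  · obtain ⟨i, rfl⟩ := He x trivial
    refine Or.inr ⟨i, (Hs i).2 fun l hl => hx l fun y hy => ?_, rfl⟩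
    rcases hl y hy with h | h | ⟨j, -, h⟩
    exacts [Or.inl (Or.inl h), Or.inr h, Or.inl (Or.inr ⟨j, h⟩)]

/-- `K` is the successor cardinal of the size of `L` in `N`. -/
class Succ (N : Set ZFSet.{0}) [ZFC N] (L K : Type) [Coded N L] [Coded N K] [LinearOrder K] :
    Prop extends WO N K where
  big : Big N L
  ne : Nonempty K
  small : ∀ a : K, Sm N L (fun b => b ≤ a)
  bdd : ∀ s : L → K, DefF N s → ∃ b, ∀ i, s i < b

section
variable {K : Type} [Coded N K] [LinearOrder K] [hK : Succ N L K]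

include hK

theorem Sm.bdd {p : X → Prop} (hp : Sm N L p) {f : X → K} (hf : DefF N f) :
    ∃ b, ∀ x, p x → f x < b := by
  obtain ⟨g, hg, hp⟩ := hp
  obtain ⟨b, hb⟩ := hK.bdd (fun n => f (g n)) (by fun_prop)
  refine ⟨b, fun x hx => ?_⟩
  obtain ⟨n, rfl⟩ := hp x hx
  exact hb n

theorem Succ.exists_gt (a : K) : ∃ b, a < b :=
  have := hK.big
  (hK.bdd (fun _ => a) (DefF.const a)).imp fun _ h => h (Big.nonempty N L).some

theorem Succ.small_lt (a : K) : Sm N L (fun b => b < a) := (hK.small a).mono fun _ h => h.le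

theorem Succ.not_sm {p : K → Prop} (h : ∀ a, ∃ b, a ≤ b ∧ p b) : ¬ Sm N L p := fun h' => by
  obtain ⟨b, hb⟩ := h'.bdd (K := K) DefF.id
  obtain ⟨c, h1, h2⟩ := h b
  exact (hb c h2).not_ge h1

/-- A definable function that bounds a definable family of small sets. -/
theorem exists_boundS {p : W → X → Prop} (hp : DefF N (fun z : W × X => p z.1 z.2))
    (hc : ∀ w, Sm N L (p w)) {f : W → X → K} (hf : DefF N (fun z : W × X => f z.1 z.2)) :
    ∃ G : W → K, DefF N G ∧ ∀ w x, p w x → f w x < G w :=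
  choice (R := fun w b => ∀ x, p w x → f w x < b) (by simp only [all_eq, imp_eq]; fun_prop)
    fun w => (hc w).bdd (hf.comp (f := fun x => (w, x)) (by fun_prop))

/-- An unbounded set is enumerated by a strictly increasing function. -/
theorem exists_strictMono {p : K → Prop} (hp : DefF N p) (h : ∀ a, ∃ b, a ≤ b ∧ p b) :
    ∃ s : K → K, DefF N s ∧ StrictMono s ∧ ∀ i, p (s i) := by
  have := hK.ne
  obtain ⟨s, hs, Hs⟩ := tdc (N := N) (K := K) (Y := K)
    (R := fun i g y => p y ∧ ∀ j, j < i → g j < y) (by simp only [all_eq, imp_eq]; fun_prop)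
    (fun i g g' y h H => ⟨H.1, fun j hj => h j hj ▸ H.2 j hj⟩) (fun i g hg _ => by
      obtain ⟨b, hb⟩ := (hK.small_lt i).bdd (K := K) hg
      obtain ⟨c, h1, h2⟩ := h b
      exact ⟨c, h2, fun j hj => (hb j hj).trans_le h1⟩)
  exact ⟨s, hs, fun i j hij => (Hs j).2 i hij, fun i => (Hs i).1⟩

end

end Pool.Agent.P.MP_5a7d1f_lc.Gro
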