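import Pool.Agent.P.MP_5a7d1f_lc.Gro.Comb

/-!
The countable chain condition and consequences of MA, inside `N`.
-/

set_option synthInstance.maxSize 16384
set_option linter.unusedSectionVars false

namespace Pool.Agent.P.MP_5a7d1f_lc.Gro

open Pool.Agent.Lib.Typed

variable {N : Set ZFSet.{0}} [ZFC N]
variable {X Y W L L' : Type} [Coded N X] [Coded N Y] [Coded N W] [Coded N L] [Coded N L']

/-- A definable preorder `Le` and a definable set `V` of conditions. -/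
structure Po (N : Set ZFSet.{0}) [ZFC N] {X : Type} [Coded N X] (V : X → Prop)
    (Le : X → X → Prop) : Prop where
  defV : DefF N V
  defLe : DefF N (fun z : X × X => Le z.1 z.2)
  refl : ∀ p, Le p p
  trans : ∀ r q p, Le r q → Le q p → Le r p

/-- Compatibility. -/
def Cmp {X : Type} (V : X → Prop) (Le : X → X → Prop) (p q : X) : Prop :=
  ∃ r, V r ∧ Le r p ∧ Le r q

theorem Cmp.symm {X : Type} {V : X → Prop} {Le : X → X → Prop} {p q : X} (h : Cmp V Le p q) :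
    Cmp V Le q p := h.imp fun _ h => ⟨h.1, h.2.symm⟩

/-- The countable chain condition in `N`. -/
def Ccc (N : Set ZFSet.{0}) [ZFC N] {X : Type} [Coded N X] (V : X → Prop) (Le : X → X → Prop) :
    Prop :=
  ∀ A : DSet N X, (∀ p, A.Mem p → V p) →
    (∀ p q, A.Mem p → A.Mem q → p ≠ q → ¬ Cmp V Le p q) → Ctble N A.Mem

theorem Ccc.out {V : X → Prop} {Le : X → X → Prop} (h : Ccc N V Le) {A : X → Prop} (hA : DefF N A)
    (h1 : ∀ p, A p → V p) (h2 : ∀ p q, A p → A q → p ≠ q → ¬ Cmp V Le p q) : Ctble N A :=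
  h ⟨A, hA⟩ h1 h2

/-- A family of pairwise incompatible conditions has a countable index set. -/
theorem Ccc.index [Nonempty Y] {V : X → Prop} {Le : X → X → Prop} (po : Po N V Le)
    (h : Ccc N V Le) {A : Y → Prop} (hA : DefF N A) {f : Y → X} (hf : DefF N f)
    (h1 : ∀ p, A p → V (f p)) (h2 : ∀ p q, A p → A q → p ≠ q → ¬ Cmp V Le (f p) (f q)) :
    Ctble N A := by
  refine Sm.of_inj (L := ℕ) (h.out (A := fun x => ∃ y, A y ∧ f y = x) (by fun_prop) ?_ ?_) hA hf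
    (fun p hp => ⟨p, hp, rfl⟩) fun p q hp hq e => by_contra fun k => h2 p q hp hq k
      ⟨f p, h1 p hp, po.refl _, e ▸ po.refl _⟩
  · rintro _ ⟨y, hy, rfl⟩
    exact h1 y hy
  · rintro _ _ ⟨y, hy, rfl⟩ ⟨y', hy', rfl⟩ k
    exact h2 y y' hy hy' fun e => k (e ▸ rfl)

/-- MA for families of dense sets indexed by `L`. -/
def MAT (N : Set ZFSet.{0}) [ZFC N] (L : Type) [Coded N L] : Prop :=
  ∀ (X : Type) [Coded N X] (V : X → Prop) (Le : X → X → Prop), Po N V Le → Ccc N V Le →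
    (∃ p, V p) → ∀ D : L → X → Prop, DefF N (fun z : L × X => D z.1 z.2) →
      (∀ i p, V p → ∃ q, V q ∧ Le q p ∧ D i q) →
      ∃ G : X → Prop, DefF N G ∧ (∀ p, G p → V p) ∧
        (∀ p q, G p → G q → ∃ r, G r ∧ Le r p ∧ Le r q) ∧ ∀ i, ∃ p, G p ∧ D i p

theorem MAT.mono (h : MAT N L) (hL : Sm N L (fun _ : L' => True)) : MAT N L' := by
  intro X _ V Le po hc hne D hD H
  obtain ⟨g, hg, Hg⟩ := hL
  obtain ⟨G, h1, h2, h3, h4⟩ := h X V Le po hc hne (fun i => D (g i)) (by fun_prop) fun i => H _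
  refine ⟨G, h1, h2, h3, fun i => ?_⟩
  obtain ⟨j, rfl⟩ := Hg i trivial
  exact h4 j

variable {V : X → Prop} {Le : X → X → Prop}

theorem Po.def_cmp (po : Po N V Le) : DefF N (fun z : X × X => Cmp V Le z.1 z.2) := by
  have := po.defV
  have := po.defLe
  unfold Cmp
  fun_prop

theorem Po.exists_max [Enum N] (po : Po N V Le) {E : X → Prop} (hE : DefF N E)
    (hV : ∀ p, E p → V p) : ∃ A : X → Prop, DefF N A ∧ (∀ p, A p → E p) ∧
      (∀ p q, A p → A q → p ≠ q → ¬ Cmp V Le p q) ∧ ∀ p, E p → ∃ q, A q ∧ Cmp V Le p q := by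
  have := po.def_cmp
  obtain ⟨A, hA, -, h1, h2⟩ := tukey (N := N)
    (Ok := fun l : List X => ∀ x ∈ l, E x ∧ ∀ y ∈ l, x ≠ y → ¬ Cmp V Le x y)
    (by simp only [all_eq, imp_eq]; fun_prop) (S0 := fun _ => False) (by fun_prop)
    fun l hl x hx => (hl x hx).elim
  have h3 : ∀ p, A p → E p := fun p hp => (h1 [p] (by simpa) p (by simp)).1
  have h4 : ∀ p q, A p → A q → p ≠ q → ¬ Cmp V Le p q := fun p q hp hq =>
    (h1 [p, q] (by simp [hp, hq]) p (by simp)).2 q (by simp)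
  refine ⟨A, hA, h3, h4, fun p hp => by_contra fun k => k ⟨p, h2 p fun l hl x hx => ?_,
    p, hV p hp, po.refl p, po.refl p⟩⟩
  refine ⟨(hl x hx).elim (h3 x) fun e => e ▸ hp, fun y hy hxy => ?_⟩
  rcases hl x hx with k1 | rfl <;> rcases hl y hy with k2 | rfl
  exacts [h4 x y k1 k2 hxy, fun k3 => k ⟨x, k1, k3.symm⟩, fun k3 => k ⟨y, k2, k3⟩, (hxy rfl).elim]

/-- A countable predense subfamily. -/
theorem Po.predense [Enum N] (po : Po N V Le) (hc : Ccc N V Le) {E : X → Prop} (hE : DefF N E)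
    (hne : ∃ p, E p) : ∃ c : ℕ → X, DefF N c ∧ (∀ n, E (c n)) ∧
      ∀ p r, E p → V r → Le r p → ∃ n, Cmp V Le r (c n) := by
  have := po.defV
  have := po.defLe
  obtain ⟨A, hA, h1, h2, h3⟩ := po.exists_max (E := fun r => V r ∧ ∃ p, E p ∧ Le r p)
    (by fun_prop) fun _ h => h.1
  obtain ⟨a, ha, Ha⟩ := hc.out hA (fun p hp => (h1 p hp).1) h2
  obtain ⟨c, hc, Hc⟩ := choice (N := N) (R := fun (n : ℕ) (x : X) => E x ∧ (A (a n) → Le (a n) x))
    (by simp only [imp_eq]; fun_prop) fun n => by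
      by_cases k : A (a n)
      · exact (h1 _ k).2.imp fun _ h => ⟨h.1, fun _ => h.2⟩
      · exact hne.imp fun _ h => ⟨h, fun k' => (k k').elim⟩
  refine ⟨c, hc, fun n => (Hc n).1, fun p r hp hr hrp => ?_⟩
  obtain ⟨q, k1, s, k2, k3, k4⟩ := h3 r ⟨hr, p, hp, hrp⟩
  obtain ⟨n, rfl⟩ := Ha q k1
  exact ⟨n, s, k2, k3, po.trans _ _ _ k4 ((Hc n).2 k1)⟩

theorem Po.predense' [Enum N] (po : Po N V Le) (hc : Ccc N V Le) {E : X → Prop} (hE : DefF N E) :
    ∃ c : ℕ → List X, DefF N c ∧ (∀ n, ∀ x ∈ c n, E x) ∧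
      ∀ p r, E p → V r → Le r p → ∃ n, ∃ x ∈ c n, Cmp V Le r x := by
  by_cases hne : ∃ p, E p
  · obtain ⟨c, h1, h2, h3⟩ := po.predense hc hE hne
    exact ⟨fun n => [c n], by fun_prop, by simpa using h2, by simpa using h3⟩
  · exact ⟨fun _ => [], by fun_prop, by simp, fun p _ hp => (hne ⟨p, hp⟩).elim⟩

theorem Po.below (po : Po N V Le) (q : X) : Po N (fun p => V p ∧ Le p q) Le :=
  have := po.defV
  have := po.defLe
  ⟨by fun_prop, po.defLe, po.refl, po.trans⟩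

theorem Ccc.below (po : Po N V Le) (hc : Ccc N V Le) (q : X) :
    Ccc N (fun p => V p ∧ Le p q) Le := fun A h1 h2 =>
  hc A (fun p hp => (h1 p hp).1) fun p p' hp hp' hne ⟨r, k1, k2, k3⟩ =>
    h2 p p' hp hp' hne ⟨r, ⟨k1, po.trans _ _ _ k2 (h1 p hp).2⟩, k2, k3⟩

theorem At.lt {X : Type} {l : List X} {i : ℕ} {x : X} (h : At l i x) : i < l.length :=
  (List.getElem?_eq_some_iff.1 h).1

theorem At.unique {X : Type} {l : List X} {i : ℕ} {x y : X} (h : At l i x) (h' : At l i y) :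
    x = y := Option.some.inj (h.symm.trans h')

theorem exists_at {X : Type} {l : List X} {i : ℕ} (h : i < l.length) : ∃ x, At l i x :=
  ⟨_, List.getElem?_eq_getElem h⟩

/-- Pseudo-intersections. -/
theorem MAT.pseudo [hL : Big N L] (ma : MAT N L) (hX : Ctble N (fun _ : X => True))
    {F : L' → X → Prop} (hL' : Sm N L (fun _ : L' => True))
    (hF : DefF N (fun z : L' × X => F z.1 z.2)) (h : ∀ l : List L', ∃ x, ∀ i ∈ l, F i x) :
    ∃ s : ℕ → X, DefF N s ∧ ∀ i, ∃ m, ∀ k, m ≤ k → F i (s k) := by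
  have po : Po N (fun _ : List X × List L' => True) (fun q p =>
      (∀ k x, At p.1 k x → At q.1 k x) ∧ (∀ i ∈ p.2, i ∈ q.2) ∧
        ∀ k x, At q.1 k x → p.1.length ≤ k → ∀ i ∈ p.2, F i x) := by
    refine ⟨by fun_prop, by simp only [all_eq, imp_eq]; fun_prop, fun p =>
      ⟨fun _ _ h => h, fun _ h => h, fun k x h1 h2 => ((At.lt h1).not_ge h2).elim⟩,
      fun r q p h1 h2 => ⟨fun k x h => h1.1 _ _ (h2.1 _ _ h), fun i hi => h1.2.1 _ (h2.2.1 _ hi),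
        fun k x h3 h4 i hi => ?_⟩⟩
    rcases lt_or_ge k q.1.length with h5 | h5
    · obtain ⟨y, hy⟩ := exists_at h5
      exact At.unique (h1.1 _ _ hy) h3 ▸ h2.2.2 k y hy h4 i hi
    · exact h1.2.2 k x h3 h5 i (h2.2.1 _ hi)
  obtain ⟨G, hG, -, h1, h2⟩ := ma.mono (hL.nat.prod' hL'.list') _ _ _ po (fun A _ h2 =>
      Sm.of_inj (L := ℕ) (Sm.list' hX) A.def_mem DefF.fst (fun _ _ => trivial) fun p q hp hq e =>
        by_contra fun k => h2 p q hp hq k ⟨(p.1, p.2 ++ q.2), trivial,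
          ⟨fun _ _ h => h, by simp +contextual, fun k x h1 h2 => ((At.lt h1).not_ge h2).elim⟩,
          ⟨fun _ _ h => e ▸ h, by simp +contextual,
            fun k x h1 h2 => ((At.lt h1).not_ge (e ▸ h2)).elim⟩⟩)
    ⟨([], []), trivial⟩ (fun z q => z.1 < q.1.length ∧ ∀ i ∈ z.2, i ∈ q.2)
    (by simp only [all_eq, imp_eq]; fun_prop) (fun z p _ => by
      obtain ⟨x, hx⟩ := h p.2
      refine ⟨(p.1 ++ List.replicate (z.1 + 1) x, z.2 ++ p.2), trivial, ⟨fun k y hy => ?_,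
        by simp +contextual, fun k y hy hk => ?_⟩, by simp; omega, by simp +contextual⟩
      · exact (List.getElem?_append_left (At.lt hy)).trans hy
      · rw [At, List.getElem?_append_right hk] at hy
        exact List.eq_of_mem_replicate (List.mem_of_getElem? hy) ▸ hx)
  obtain ⟨s, hs, Hs⟩ := choice (N := N) (R := fun (k : ℕ) (x : X) => ∃ p, G p ∧ At p.1 k x)
    (by fun_prop) fun k => by
      obtain ⟨p, k1, k2, -⟩ := h2 (k, [])
      exact (exists_at k2).imp fun _ h => ⟨p, k1, h⟩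
  refine ⟨s, hs, fun i => ?_⟩
  obtain ⟨p, k1, -, k2⟩ := h2 (0, [i])
  refine ⟨p.1.length, fun k hk => ?_⟩
  obtain ⟨q, k3, k4⟩ := Hs k
  obtain ⟨r, -, k5, k6⟩ := h1 p q k1 k3
  exact k5.2.2 k _ (k6.1 _ _ k4) hk i (k2 i (by simp))

/-- Precalibres. -/
theorem MAT.precal [Enum N] (ma : MAT N L) {K : Type} [Coded N K] [LinearOrder K]
    [hK : Succ N L' K] (hL : Sm N L (fun _ : K => True)) (po : Po N V Le) (hc : Ccc N V Le)
    {p : K → X} (hp : DefF N p) {H : K → Prop} (hH : DefF N H) (hu : ∀ a, ∃ b, a ≤ b ∧ H b)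
    (hV : ∀ a, H a → V (p a)) :
    ∃ H' : K → Prop, DefF N H' ∧ (∀ a, H' a → H a) ∧ (∀ a, ∃ b, a ≤ b ∧ H' b) ∧
      ∀ l : List K, (∀ a ∈ l, H' a) → ∃ r, V r ∧ ∀ a ∈ l, Le r (p a) := by
  have := po.defV
  have := po.defLe
  have := po.def_cmp
  have := hK.big
  have := hK.ne
  obtain ⟨a0, -, ha0⟩ := hu (Classical.arbitrary K)
  obtain ⟨q0, k1, k2⟩ : ∃ q0, V q0 ∧ ∀ q γ, V q → Le q q0 →
      ∃ a, γ ≤ a ∧ H a ∧ Cmp V Le q (p a) := by
    by_contra hcon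
    push Not at hcon
    obtain ⟨q1, γ1, k1, -, k2⟩ := hcon _ (hV _ ha0)
    obtain ⟨c, k3, k4, k5⟩ := po.predense hc
      (E := fun q => V q ∧ ∃ γ, ∀ a, γ ≤ a → H a → ¬ Cmp V Le q (p a))
      (by simp only [all_eq, imp_eq]; fun_prop) ⟨q1, k1, γ1, k2⟩
    obtain ⟨g, hg, Hg⟩ := choice (N := N)
      (R := fun (n : ℕ) (γ : K) => ∀ a, γ ≤ a → H a → ¬ Cmp V Le (c n) (p a))
      (by simp only [all_eq, imp_eq]; fun_prop) fun n => (k4 n).2
    obtain ⟨b, hb⟩ := (Big.nat (N := N) (L := L')).bdd (K := K) hg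
    obtain ⟨a, k6, k7⟩ := hu b
    obtain ⟨q, γ, k8, k9, k10⟩ := hcon _ (hV a k7)
    obtain ⟨n, r, k11, k12, k13⟩ := k5 q q ⟨k8, γ, k10⟩ k8 (po.refl q)
    exact Hg n a ((hb n trivial).le.trans k6) k7 ⟨r, k11, k13, po.trans _ _ _ k12 k9⟩
  obtain ⟨G, hG, g1, g2, g3⟩ := ma.mono hL _ _ _ (po.below q0) (hc.below po q0)
    ⟨q0, k1, po.refl _⟩ (fun γ q => ∃ a, γ ≤ a ∧ H a ∧ Le q (p a)) (by fun_prop) fun γ q hq => by
      obtain ⟨a, k3, k4, r, k5, k6, k7⟩ := k2 q γ hq.1 hq.2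
      exact ⟨r, ⟨k5, po.trans _ _ _ k6 hq.2⟩, k6, a, k3, k4, k7⟩
  refine ⟨fun a => H a ∧ ∃ q, G q ∧ Le q (p a), by fun_prop, fun _ h => h.1, fun γ => ?_,
    fun l hl => ?_⟩
  · obtain ⟨q, k3, a, k4, k5, k6⟩ := g3 γ
    exact ⟨a, k4, k5, q, k3, k6⟩
  · suffices ∃ r, G r ∧ ∀ a ∈ l, Le r (p a) from this.imp fun r h => ⟨(g1 r h.1).1, h.2⟩
    induction l with
    | nil => exact (g3 a0).imp fun _ h => ⟨h.1, by simp⟩
    | cons a l ih =>
      obtain ⟨r, k3, k4⟩ := ih fun b hb => hl b (List.mem_cons_of_mem _ hb)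
      obtain ⟨q, k5, k6⟩ := (hl a List.mem_cons_self).2
      obtain ⟨s, k7, k8, k9⟩ := g2 r q k3 k5
      exact ⟨s, k7, List.forall_mem_cons.2
        ⟨po.trans _ _ _ k9 k6, fun b hb => po.trans _ _ _ k8 (k4 b hb)⟩⟩

end Pool.Agent.P.MP_5a7d1f_lc.Gro
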