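import Pool.Agent.P.MP_5a7d1f_lc.Gro.Base

/-!
Clubs, the set mapping lemma, club guessing and a sparse family of functions, inside `N`.
-/

set_option synthInstance.maxSize 16384
set_option linter.unusedSectionVars false

namespace Pool.Agent.P.MP_5a7d1f_lc.Gro

open Pool.Agent.Lib.Typed

variable {N : Set ZFSet.{0}} [ZFC N]
variable {X Y W L L0 : Type} [Coded N X] [Coded N Y] [Coded N W] [Coded N L] [Coded N L0]
variable {K V : Type} [Coded N K] [LinearOrder K] [Coded N V] [LinearOrder V]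

/-- `E` is closed and unbounded below `d`. -/
def Club {K : Type} [LinearOrder K] (E : K → Prop) (d : K) : Prop :=
  (∀ γ, γ < d → ∃ e, E e ∧ γ < e ∧ e < d) ∧
    ∀ η, η < d → (∃ γ, γ < η) → (∀ γ, γ < η → ∃ e, E e ∧ γ < e ∧ e < η) → E η

/-- `i` is a nonzero closure point of `g`. -/
def Cl {V : Type} [LinearOrder V] (g : V → V) (i : V) : Prop :=
  (∃ k, k < i) ∧ ∀ k, k < i → g k < i

theorem Cl.mono {g g' : V → V} {i : V} (h : Cl g i) (hg : ∀ k, g' k ≤ g k) : Cl g' i :=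
  ⟨h.1, fun k hk => (hg k).trans_lt (h.2 k hk)⟩

/-- An increasing sequence `t`, the suprema `ξ` of its initial segments and its supremum `d`. -/
structure Run {K V : Type} [LinearOrder K] [LinearOrder V] (t ξ : V → K) (d : K) : Prop where
  lt : ∀ i k, k < i → t k < ξ i
  cof : ∀ i γ, γ < ξ i → ∃ k, k < i ∧ γ ≤ t k
  le : ∀ i, ξ i ≤ t i
  top : ∀ k, t k < d
  cof' : ∀ γ, γ < d → ∃ k, γ ≤ t k

theorem exists_ss (hK : WellFoundedLT K) {p : K → Prop} {b : K} (h : ∀ x, p x → x < b) :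
    ∃ u, u ≤ b ∧ (∀ x, p x → x < u) ∧ ∀ γ, γ < u → ∃ x, p x ∧ γ ≤ x := by
  obtain ⟨u, h1, h2⟩ := (wellFounded_lt (α := K)).has_min {b | ∀ x, p x → x < b} ⟨b, h⟩
  refine ⟨u, not_lt.1 (h2 b h), h1, fun γ hγ => ?_⟩
  by_contra h3
  push Not at h3
  exact h2 γ h3 hγ

theorem exists_run [hK : WO N K] [WO N V] [Nonempty K] {D : K → Prop} (hD : DefF N D)
    (down : ∀ a b, a ≤ b → D b → D a)
    (bd : ∀ (s : V → K) (p : V → Prop), DefF N s → DefF N p → (∀ k, p k → D (s k)) →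
      ∃ b, D b ∧ ∀ k, p k → s k < b)
    {Q : V → (V → K) → K → Prop}
    (hQ : DefF N (fun z : V × DFun N V K × K => Q z.1 z.2.1.app z.2.2))
    (loc : ∀ i g g' y, (∀ j, j ≤ i → g j = g' j) → Q i g y → Q i g' y)
    (step : ∀ i g, DefF N g → D (g i) → ∃ y, D y ∧ g i ≤ y ∧ Q i g y) :
    ∃ t ξ d, DefF N t ∧ DefF N ξ ∧ Run t ξ d ∧ D d ∧ ∀ i, Q i ξ (t i) := by
  classical
  obtain ⟨s, hs, Hs⟩ := tdc (N := N) (K := V) (Y := K × K) (R := fun i g y =>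
      (∀ k, k < i → (g k).2 < y.1) ∧ (∀ γ, γ < y.1 → ∃ k, k < i ∧ γ ≤ (g k).2) ∧ y.1 ≤ y.2 ∧
      D y.2 ∧ ∃ x : DFun N V K, (∀ k, k < i → x.app k = (g k).1) ∧ x.app i = y.1 ∧ Q i x.app y.2)
    (by
      simp only [all_eq, imp_eq]
      refine DefF.and (by fun_prop) (DefF.and (by fun_prop) (DefF.and (by fun_prop)
        (DefF.and (by fun_prop) (DefF.exists (DefF.and (by fun_prop) (DefF.and (by fun_prop) ?_))))))
      exact hQ.comp (f := fun z : (V × DFun N V (K × K) × K × K) × DFun N V K =>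
        (z.1.1, z.2, z.1.2.2.2)) (by fun_prop))
    (fun i g g' y h ⟨h1, h2, h3, h4, x, h5, h6⟩ => ⟨fun k hk => h k hk ▸ h1 k hk,
      fun γ hγ => (h2 γ hγ).elim fun k hk => ⟨k, hk.1, h k hk.1 ▸ hk.2⟩, h3, h4, x,
      fun k hk => h k hk ▸ h5 k hk, h6⟩)
    (fun i g hg H => by
      obtain ⟨b, h1, h2⟩ := bd (fun k => (g k).2) (fun k => k < i) (by fun_prop) (by fun_prop)
        fun k hk => (H k hk).2.2.2.1
      obtain ⟨u, h3, h4, h5⟩ := exists_ss hK.wf (p := fun x => ∃ k, k < i ∧ (g k).2 = x) (b := b)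
        (by rintro _ ⟨k, hk, rfl⟩; exact h2 k hk)
      have h6 : DefF N (fun k => if k < i then (g k).1 else u) := by fun_prop
      obtain ⟨y, h7, h8, h9⟩ := step i _ h6 (by simpa using down _ _ h3 h1)
      refine ⟨(u, y), fun k hk => h4 _ ⟨k, hk, rfl⟩, fun γ hγ => ?_, by simpa using h8, h7,
        ⟨_, h6⟩, fun k hk => if_pos hk, by simp, h9⟩
      obtain ⟨_, ⟨k, hk, rfl⟩, h⟩ := h5 γ hγ
      exact ⟨k, hk, h⟩)
  obtain ⟨b, h1, h2⟩ := bd (fun k => (s k).2) (fun _ => True) (by fun_prop) (by fun_prop)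
    fun k _ => (Hs k).2.2.2.1
  obtain ⟨u, h3, h4, h5⟩ := exists_ss hK.wf (p := fun x => ∃ k, (s k).2 = x) (b := b)
    (by rintro _ ⟨k, rfl⟩; exact h2 k trivial)
  refine ⟨fun k => (s k).2, fun k => (s k).1, u, by fun_prop, by fun_prop,
    ⟨fun i => (Hs i).1, fun i => (Hs i).2.1, fun i => (Hs i).2.2.1, fun k => h4 _ ⟨k, rfl⟩,
      fun γ hγ => ?_⟩, down _ _ h3 h1, fun i => ?_⟩
  · obtain ⟨_, ⟨k, rfl⟩, h⟩ := h5 γ hγ
    exact ⟨k, h⟩
  · obtain ⟨x, h6, h7, h8⟩ := (Hs i).2.2.2.2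
    refine loc _ _ _ _ (fun j hj => ?_) h8
    rcases hj.eq_or_lt with rfl | hj
    exacts [h7, h6 j hj]

/-- A run given by a function of the current supremum. -/
theorem exists_run' [hK : Succ N L K] [WO N V] (hV : Sm N L (fun _ : V => True)) {Φ : K → K}
    (hΦ : DefF N Φ) (h : ∀ a, a ≤ Φ a) :
    ∃ t ξ : V → K, ∃ d, DefF N t ∧ DefF N ξ ∧ Run t ξ d ∧ ∀ i, t i = Φ (ξ i) := by
  have := hK.ne
  obtain ⟨t, ξ, d, h1, h2, h3, -, h4⟩ := exists_run (N := N) (K := K) (V := V)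
    (D := fun _ => True) (by fun_prop) (fun _ _ _ _ => trivial)
    (fun s p hs _ _ => (hV.bdd (K := K) hs).imp fun _ h => ⟨trivial, fun k _ => h k trivial⟩)
    (Q := fun i g y => y = Φ (g i)) (by fun_prop) (fun i g g' y h H => h i le_rfl ▸ H)
    fun i g _ _ => ⟨_, trivial, h _, rfl⟩
  exact ⟨t, ξ, d, h1, h2, h3, h4⟩

theorem Run.strictMono {t ξ : V → K} {d : K} (h : Run t ξ d) : StrictMono ξ :=
  fun i j hij => (h.le i).trans_lt (h.lt j i hij)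

theorem Run.club (hV : WellFoundedLT V) (hgt : ∀ i : V, ∃ j, i < j) {t ξ : V → K} {d : K}
    (h : Run t ξ d) : Club (fun x => ∃ i, ξ i = x) d := by
  have h1 : ∀ γ, γ < d → ∃ j, γ < ξ j := fun γ hγ => by
    obtain ⟨k, hk⟩ := h.cof' γ hγ
    obtain ⟨j, hj⟩ := hgt k
    exact ⟨j, hk.trans_lt (h.lt j k hj)⟩
  refine ⟨fun γ hγ => ?_, fun η hη _ H => ?_⟩
  · obtain ⟨j, hj⟩ := h1 γ hγ
    exact ⟨_, ⟨j, rfl⟩, hj, (h.le j).trans_lt (h.top j)⟩
  · obtain ⟨i, h2, h3⟩ := (wellFounded_lt (α := V)).has_min {i | η ≤ ξ i}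
      ((h1 η hη).imp fun _ h => h.le)
    refine ⟨i, le_antisymm (not_lt.1 fun h4 => ?_) h2⟩
    obtain ⟨k, h5, h6⟩ := h.cof i η h4
    obtain ⟨_, ⟨j, rfl⟩, h7, h8⟩ := H (ξ k) (not_le.1 fun h7 => h3 k h7 h5)
    exact ((h.lt j k (h.strictMono.lt_iff_lt.1 h7)).trans h8).not_ge h6

theorem Run.trace [WO N K] [WO N V] (hgt : ∀ i : V, ∃ j, i < j) {t ξ : V → K} {d : K}
    (h : Run t ξ d) (ht : DefF N t) {E : K → Prop} (hE : DefF N E) (hc : Club E d) :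
    ∃ g : V → V, DefF N g ∧ (∀ k, k < g k) ∧ ∀ i, Cl g i → E (ξ i) := by
  obtain ⟨g, hg, H⟩ := choice (N := N) (R := fun k j : V => k < j ∧ ∃ e, E e ∧ t k < e ∧ e ≤ t j)
    (by fun_prop) fun k => by
      obtain ⟨e, h1, h2, h3⟩ := hc.1 _ (h.top k)
      obtain ⟨j, hj⟩ := h.cof' e h3
      obtain ⟨j', hj'⟩ := hgt (max k j)
      exact ⟨j', (le_max_left _ _).trans_lt hj', e, h1, h2, hj.trans
        ((h.lt j' j ((le_max_right _ _).trans_lt hj')).le.trans (h.le j'))⟩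
  refine ⟨g, hg, fun k => (H k).1, fun i hi => hc.2 _ ((h.le i).trans_lt (h.top i))
    (hi.1.imp' t fun k hk => h.lt i k hk) fun γ hγ => ?_⟩
  obtain ⟨k, h1, h2⟩ := h.cof i γ hγ
  obtain ⟨e, h3, h4, h5⟩ := (H k).2
  exact ⟨e, h3, h2.trans_lt h4, h5.trans_lt (h.lt i _ (hi.2 k h1))⟩

theorem exists_above [hK : Succ N L K] {g : K → K} (hg : DefF N g) :
    ∃ Φ : K → K, DefF N Φ ∧ (∀ a, a < Φ a) ∧ ∀ a x, x ≤ a → g x < Φ a := by
  obtain ⟨F, hF, H⟩ := exists_boundS (N := N) (L := L) (K := K) (p := fun a b : K => b ≤ a)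
    (by fun_prop) hK.small (f := fun a b => max a (g b)) (by fun_prop)
  exact ⟨F, hF, fun a => (le_max_left _ _).trans_lt (H a a le_rfl),
    fun a x hx => (le_max_right _ _).trans_lt (H a x hx)⟩

theorem exists_cl [hK : Succ N L K] {g : K → K} (hg : DefF N g) (a : K) : ∃ i, a ≤ i ∧ Cl g i := by
  have := hK.big
  obtain ⟨Φ, hΦ, h1, h2⟩ := exists_above (L := L) (g := fun x => max a (g x)) (N := N) (by fun_prop)
  obtain ⟨t, ξ, d, -, -, h3, h4⟩ := exists_run' (V := ℕ) (Big.nat (L := L)) hΦ fun a => (h1 a).le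
  refine ⟨d, ((le_max_left _ _).trans_lt (h4 0 ▸ h2 _ _ le_rfl : _ < t 0)).le.trans (h3.top 0).le,
    ⟨_, h3.top 0⟩, fun k hk => ?_⟩
  obtain ⟨j, hj⟩ := h3.cof' k hk
  exact ((le_max_right _ _).trans_lt (h4 (j + 1) ▸ h2 _ _
    (hj.trans (h3.lt _ _ (Nat.lt_succ_self j)).le) : _ < t (j + 1))).trans (h3.top _)

/-- The set mapping lemma. -/
theorem setmap (V : Type) [Coded N V] [LinearOrder V] [hV : Succ N L0 V] [hK : Succ N L K]
    (h0 : Sm N L (fun _ : L0 => True)) (h1 : Sm N L (fun _ : V => True)) {F : K → K → Prop}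
    (hF : DefF N (fun z : K × K => F z.1 z.2)) (hs : ∀ β, Sm N L0 (F β)) :
    ∃ γ, ∀ a, ∃ β, a ≤ β ∧ γ ≤ β ∧ (∀ x, F β x → x < β → x < γ) ∧
      ∀ α, α < β → ∀ x, F α x → x < β := by
  by_contra hcon
  simp only [not_exists, not_forall] at hcon
  obtain ⟨h, hh, Hh⟩ := choice (N := N) (R := fun γ a : K => ∀ β, ¬ (a ≤ β ∧ γ ≤ β ∧
      (∀ x, F β x → x < β → x < γ) ∧ ∀ α, α < β → ∀ x, F α x → x < β))
    (by simp only [all_eq, imp_eq]; fun_prop) hcon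
  obtain ⟨G, hG, HG⟩ := exists_boundS (N := N) (L := L) (K := K) hF (fun β => h0.trans (hs β))
    (f := fun _ x => x) (by fun_prop)
  obtain ⟨Φ, hΦ, k1, k2⟩ := exists_above (L := L) (g := fun x => max (h x) (G x)) (N := N)
    (by fun_prop)
  obtain ⟨t, ξ, d, ht, -, k3, k4⟩ := exists_run' h1 hΦ fun a => (k1 a).le
  have := hV.ne
  obtain ⟨j, hj, Hj⟩ := choice' (N := N) (p := fun x : K => x < d) (R := fun x (k : V) => x ≤ t k)
    (by fun_prop) k3.cof'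
  obtain ⟨i, hi⟩ := (hs d).bdd (K := V) hj
  refine Hh (ξ i) d ⟨?_, (k3.le i).trans (k3.top i).le,
    fun x h2 h3 => (Hj x h3).trans_lt (k3.lt i _ (hi x h2)), fun α hα x hx => ?_⟩
  · exact ((le_max_left _ _).trans_lt (k4 i ▸ k2 _ _ le_rfl : _ < t i)).le.trans (k3.top i).le
  · obtain ⟨k, hk⟩ := k3.cof' α hα
    obtain ⟨k', hk'⟩ := hV.exists_gt k
    exact (HG α x hx).trans (((le_max_right _ _).trans_lt
      (k4 k' ▸ k2 _ _ (hk.trans (k3.lt _ _ hk').le) : _ < t k')).trans (k3.top _))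

theorem exists_clubs (L : Type) [Coded N L] [Big N L] [WO N K] [Nonempty K] :
    ∃ E : K → K → Prop, DefF N (fun z : K × K => E z.1 z.2) ∧ (∀ d, Sm N L (E d)) ∧
      (∀ d x, E d x → x < d) ∧
      ∀ d (S : K → Prop), DefF N S → Club S d → Sm N L S → Club (E d) d := by
  obtain ⟨E, hE, H⟩ := choice (N := N) (R := fun (d : K) (S : DSet N K) => Sm N L S.Mem ∧
      ((∃ S' : DSet N K, Club S'.Mem d ∧ Sm N L S'.Mem) → Club S.Mem d))
    (by unfold Club; simp only [all_eq, imp_eq]; fun_prop) fun d => by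
      by_cases h : ∃ S' : DSet N K, Club S'.Mem d ∧ Sm N L S'.Mem
      · exact h.imp fun _ h => ⟨h.2, fun _ => h.1⟩
      · exact ⟨⟨fun x => x = d, by fun_prop⟩, sm_single d, fun h' => (h h').elim⟩
  refine ⟨fun d x => (E d).Mem x ∧ x < d, by fun_prop, fun d => (H d).1.mono fun _ h => h.1,
    fun _ _ h => h.2, fun d S hS h1 h2 => ?_⟩
  have h3 := (H d).2 ⟨⟨S, hS⟩, h1, h2⟩
  exact ⟨fun γ hγ => (h3.1 γ hγ).imp fun _ h => ⟨⟨h.1, h.2.2⟩, h.2⟩, fun η h4 h5 h6 =>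
    ⟨h3.2 η h4 h5 fun γ hγ => (h6 γ hγ).imp fun _ h => ⟨h.1.1, h.2⟩, h4⟩⟩

@[fun_prop] theorem DefF.cl [WO N V] {g : W → V → V} {i : W → V}
    (hg : DefF N (fun z : W × V => g z.1 z.2)) (hi : DefF N i) :
    DefF N (fun w => Cl (g w) (i w)) := by
  unfold Cl
  simp only [all_eq, imp_eq]
  fun_prop

/-- Club guessing. -/
theorem club_guessing (V1 V2 V3 : Type) [Coded N V1] [LinearOrder V1] [Coded N V2] [LinearOrder V2]
    [Coded N V3] [LinearOrder V3] [h1 : Succ N ℕ V1] [h2 : Succ N V1 V2] [h3 : Succ N V2 V3]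
    (h12 : Sm N V2 (fun _ : V1 => True)) :
    ∃ C : V3 → V3 → Prop, DefF N (fun z : V3 × V3 => C z.1 z.2) ∧
      ∀ g : V3 → V3, DefF N g → ∃ d, ¬ Ctble N (C d) ∧ ∀ x, C d x → Cl g x := by
  have := h2.big
  have := h3.ne
  obtain ⟨E, hE, e1, -, e2⟩ := exists_clubs (N := N) (K := V3) V1
  have F1 : ∀ g : V3 → V3, DefF N g → ∃ d, ¬ Ctble N (fun x => E d x ∧ Cl g x) := by
    intro g hg
    obtain ⟨Φ, hΦ, k1, k2⟩ := exists_above (L := V2) hg
    obtain ⟨t, ξ, d, ht, hξ, k3, k4⟩ := exists_run' h12 hΦ fun a => (k1 a).le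
    obtain ⟨u, hu, k5, k6⟩ := k3.trace h1.exists_gt ht (E := E d) (by fun_prop)
      (e2 d _ (by fun_prop) (k3.club h1.wf h1.exists_gt) (sm_range hξ))
    refine ⟨d, fun h => h1.not_sm (exists_cl (L := ℕ) hu) ?_⟩
    have := h1.ne
    refine Sm.of_inj h (by fun_prop) hξ (fun i hi => ⟨k6 i hi,
      hi.1.imp' t fun k hk => k3.lt i k hk, fun γ hγ => ?_⟩)
      fun _ _ _ _ h => k3.strictMono.injective h
    obtain ⟨k, k7, k8⟩ := k3.cof i γ hγ
    exact (k4 (u k) ▸ k2 _ _ (k8.trans (k3.lt _ _ (k5 k)).le) : _ < t (u k)).trans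
      (k3.lt i _ (hi.2 k k7))
  by_contra hcon
  have h4 : ∀ g0 : DFun N V3 V3, ∃ g : DFun N V3 V3, ∀ d, ¬ Ctble N (fun x => E d x ∧ Cl g0.app x) →
      ∃ x, E d x ∧ Cl g0.app x ∧ ¬ Cl g.app x := by
    intro g0
    by_contra h
    push Not at h
    have := g0.def_app
    refine hcon ⟨fun d x => E d x ∧ Cl g0.app x, by fun_prop, fun g hg => ?_⟩
    obtain ⟨d, k1, k2⟩ := h ⟨g, hg⟩
    exact ⟨d, k1, fun x hx => k2 x hx.1 hx.2⟩
  obtain ⟨Γ, hΓ, HΓ⟩ := choice (N := N) (by simp only [all_eq, imp_eq]; fun_prop) h4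
  have : Nonempty (DFun N V3 V3) := ⟨⟨fun x => x, DefF.id⟩⟩
  obtain ⟨G, hG, HG⟩ := tdc (N := N) (K := V2) (Y := DFun N V3 V3)
    (R := fun i g y => ∀ j, j < i → ∀ x, (Γ (g j)).app x ≤ y.app x)
    (by simp only [all_eq, imp_eq]; fun_prop)
    (fun i g g' y h H j hj => h j hj ▸ H j hj) (fun i g hg _ => by
      obtain ⟨F, hF, H⟩ := exists_boundS (N := N) (L := V2) (K := V3)
        (p := fun (_ : V3) (_ : V2) => True) (by fun_prop) (fun _ => sm_self)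
        (f := fun x j => (Γ (g j)).app x) (by fun_prop)
      exact ⟨⟨F, hF⟩, fun j _ x => (H x j trivial).le⟩)
  obtain ⟨F, hF, H⟩ := exists_boundS (N := N) (L := V2) (K := V3)
    (p := fun (_ : V3) (_ : V2) => True) (by fun_prop) (fun _ => sm_self)
    (f := fun x j => (G j).app x) (by fun_prop)
  obtain ⟨d, hd⟩ := F1 F hF
  obtain ⟨η, hη, Hη⟩ := choice (N := N)
    (R := fun (i : V2) (x : V3) => E d x ∧ Cl (G i).app x ∧ ¬ Cl (Γ (G i)).app x) (by fun_prop)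
    fun i => HΓ (G i) d fun h => hd (h.mono fun x hx => ⟨hx.1, hx.2.mono fun k => (H k i trivial).le⟩)
  have := h2.ne
  have h5 : ∀ i j, i < j → η i ≠ η j := fun i j hij h =>
    (Hη i).2.2 (h ▸ (Hη j).2.1.mono (HG j i hij))
  refine h2.not_sm (p := fun _ => True) (fun a => ⟨a, le_rfl, trivial⟩)
    (Sm.of_inj (e1 d) (by fun_prop) hη (fun i _ => (Hη i).1) fun i j _ _ h => ?_)
  rcases lt_trichotomy i j with k | k | k
  exacts [(h5 i j k h).elim, k, (h5 j i k h.symm).elim]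

theorem sm_lv [WO N K] (a : K) : Sm N (Lv a) (fun x : K => x < a) :=
  ⟨Subtype.val, DefF.val, fun x hx => ⟨⟨x, hx⟩, rfl⟩⟩

theorem sm_lv_le [WO N K] {a b : K} (h : a ≤ b) [Nonempty (Lv a)] :
    Sm N (Lv b) (fun _ : Lv a => True) :=
  Sm.of_inj (sm_lv b) (by fun_prop) DefF.val (fun x _ => x.2.trans_le h)
    fun _ _ _ _ h => Subtype.ext h

/-- `nu i` is the cardinal with index `i + 1` of `N`, `lam` is their supremum and `K` is the
successor cardinal of `lam`. -/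
structure Scale (N : Set ZFSet.{0}) [ZFC N] {K : Type} [Coded N K] [LinearOrder K] [WO N K]
    (nu : ℕ → K) (lam : K) : Prop where
  def_nu : DefF N nu
  mono : StrictMono nu
  lt : ∀ i, nu i < lam
  cof : ∀ a, a < lam → ∃ i, a < nu i
  zero : Succ N ℕ (Lv (nu 0))
  succ : ∀ i, Succ N (Lv (nu i)) (Lv (nu (i + 1)))
  top : Succ N (Lv lam) K

variable [WO N K] {nu : ℕ → K} {lam : K}

theorem Scale.ne (h : Scale N nu lam) (i : ℕ) : Nonempty (Lv (nu i)) :=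
  have := (h.succ i).big
  Big.nonempty N _

theorem Scale.exists_f (h : Scale N nu lam) {E : K → K → Prop}
    (hE : DefF N (fun z : K × K => E z.1 z.2)) (e1 : ∀ d, Sm N (Lv (nu 2)) (E d))
    (e2 : ∀ d x, E d x → x < d) :
    ∃ f : K → ℕ → K, DefF N (fun z : K × ℕ => f z.1 z.2) ∧ (∀ β n, f β n < nu (n + 3)) ∧
      (∀ α β, α < β → ∃ m, ∀ n, m ≤ n → f α n < f β n) ∧ ∀ α β, E β α → ∀ n, f α n < f β n := by
  have hn := h.def_nu
  have := h.top.ne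
  obtain ⟨π, hπ, Hπ⟩ := exists_enumS (N := N) (L := Lv lam) (R := fun β x : K => x < β)
    (by fun_prop) h.top.small_lt
  have : Nonempty (DFun N ℕ K) := ⟨⟨nu, hn⟩⟩
  obtain ⟨f, hf, Hf⟩ := tdc (N := N) (K := K) (Y := DFun N ℕ K) (R := fun β g y => ∀ n,
      y.app n < nu (n + 3) ∧ ∀ α, α < β →
        (E β α ∨ ∃ i : Lv lam, i.1 < nu (n + 2) ∧ π β i = α) → (g α).app n < y.app n)
    (by simp only [all_eq, imp_eq]; fun_prop)
    (fun β g g' y H H' n => ⟨(H' n).1, fun α hα h => H α hα ▸ (H' n).2 α hα h⟩) (fun β g hg H => by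
      obtain ⟨y, hy, Hy⟩ := choice (N := N) (R := fun (n : ℕ) (b : K) => b < nu (n + 3) ∧
          ∀ α, α < β → (E β α ∨ ∃ i : Lv lam, i.1 < nu (n + 2) ∧ π β i = α) → (g α).app n < b)
        (by simp only [all_eq, imp_eq]; fun_prop) fun n => by
          have hS := h.succ (n + 2)
          have := hS.big
          have := h.ne 2
          have := hS.ne
          have k1 : Sm N (Lv (nu (n + 2))) (fun i : Lv lam => i.1 < nu (n + 2)) :=
            have := h.top.big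
            have := Big.nonempty N (Lv lam)
            Sm.of_inj (sm_lv _) (by fun_prop) DefF.val (fun _ h => h) fun _ _ _ _ h => Subtype.ext h
          have k2 := ((sm_lv_le (h.mono.monotone (Nat.le_add_left 2 n))).trans (e1 β)).union
            (k1.image (f := π β) (by fun_prop))
          obtain ⟨c, hc, Hc⟩ := choice' (N := N) (p := fun α => α < β)
            (R := fun α (x : Lv (nu (n + 3))) => x.1 = (g α).app n) (by fun_prop)
            fun α hα => ⟨⟨_, (H α hα n).1⟩, rfl⟩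
          obtain ⟨b, hb⟩ := k2.bdd (K := Lv (nu (n + 3))) hc
          exact ⟨b.1, b.2, fun α hα h => Hc α hα ▸ hb α h⟩
      exact ⟨⟨y, hy⟩, Hy⟩)
  refine ⟨fun β n => (f β).app n, by fun_prop, fun β n => (Hf β n).1, fun α β hαβ => ?_,
    fun α β H n => (Hf β n).2 α (e2 _ _ H) (Or.inl H)⟩
  obtain ⟨i, hi⟩ := Hπ β α hαβ
  obtain ⟨m, hm⟩ := h.cof i.1 i.2
  exact ⟨m, fun n hn => (Hf β n).2 α hαβ
    (Or.inr ⟨i, hm.trans_le (h.mono.monotone (by omega)), hi⟩)⟩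

/-- A sparse family of functions. -/
theorem Scale.sparse (h : Scale N nu lam) :
    ∃ f : K → ℕ → K, DefF N (fun z : K × ℕ => f z.1 z.2) ∧ (∀ β n, f β n < nu (n + 3)) ∧
      ∀ S : ℕ → ℕ → K, DefF N (fun z : ℕ × ℕ => S z.1 z.2) →
        Sm N (Lv (nu 2)) (fun β => ∀ m, ∃ n, m ≤ n ∧ ∃ i, f β n = S n i) := by
  classical
  have := h.top.ne
  have h1 := h.zero
  have h2 := h.succ 0
  have h3 := h.succ 1
  have := (h.succ 2).big
  have := h.ne 0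
  obtain ⟨E, hE, e1, e2, e3⟩ := exists_clubs (N := N) (K := K) (Lv (nu 2))
  obtain ⟨f, hf, f1, f2, f3⟩ := h.exists_f hE e1 e2
  obtain ⟨C, hC, HC⟩ := club_guessing (N := N) (Lv (nu 0)) (Lv (nu 1)) (Lv (nu 2))
    (sm_lv_le (h.mono.monotone (by omega)))
  refine ⟨f, hf, f1, fun S hS => ?_⟩
  obtain ⟨T, hT⟩ : ∃ T : K → Prop, T = fun β => ∀ m, ∃ n, m ≤ n ∧ ∃ i, f β n = S n i := ⟨_, rfl⟩
  have hTd : DefF N T := by rw [hT]; simp only [all_eq]; fun_prop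
  rw [← hT]
  by_contra hcon
  obtain ⟨D, hD⟩ : ∃ D : K → Prop, D = fun γ => Sm N (Lv (nu 2)) (fun β => T β ∧ β ≤ γ) := ⟨_, rfl⟩
  have hDd : DefF N D := by rw [hD]; fun_prop
  have down : ∀ a b, a ≤ b → D b → D a := by
    rw [hD]
    exact fun a b hab H => H.mono fun _ h => ⟨h.1, h.2.trans hab⟩
  have nb : ¬ Sm N (Lv (nu 2)) (fun β => T β ∧ D β) := fun H => by
    by_cases k : ∀ γ, D γ
    · exact hcon (H.mono fun β hβ => ⟨hβ, k β⟩)
    · obtain ⟨δ, k1, k2⟩ := h.top.wf.wf.has_min {γ | ¬ D γ} (not_forall.1 k)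
      refine k1 ?_
      rw [hD]
      refine (H.union (sm_single δ)).mono fun β hβ => hβ.2.eq_or_lt.symm.imp_left fun k3 => ?_
      exact ⟨hβ.1, not_not.1 fun k4 => k2 β k4 k3⟩
  have bd : ∀ (s : Lv (nu 2) → K) (p : Lv (nu 2) → Prop), DefF N s → DefF N p →
      (∀ k, p k → D (s k)) → ∃ b, T b ∧ D b ∧ ∀ k, p k → s k < b := by
    intro s p hs hp H
    by_contra k
    push Not at k
    refine nb (((sm_self.mono fun _ _ => trivial).biUnion' hp (R := fun k β => T β ∧ β ≤ s k)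
      (by fun_prop) fun k hk => by have := H k hk; rwa [hD] at this).mono fun β hβ => ?_)
    exact (k β hβ.1 hβ.2).imp fun _ h => ⟨h.1, hβ.1, h.2⟩
  obtain ⟨t, ξ, d, ht, hξ, run, hd, H⟩ := exists_run (N := N) (K := K) (V := Lv (nu 2)) hDd down
    (fun s p hs hp H => (bd s p hs hp H).imp fun _ h => h.2)
    (Q := fun i x y => T y ∧ ∀ δ, (∃ σ, D σ ∧ ∃ m, ∀ n, m ≤ n → ∀ k, C δ k → k ≤ i →
      f (x k) n ≤ f σ n) → ∃ σ, σ < y ∧ ∃ m, ∀ n, m ≤ n → ∀ k, C δ k → k ≤ i → f (x k) n ≤ f σ n)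
    (by simp only [all_eq, imp_eq]; fun_prop)
    (fun i g g' y hg H => ⟨H.1, fun δ ⟨σ, k1, m, k2⟩ => by
      obtain ⟨σ', k3, m', k4⟩ := H.2 δ ⟨σ, k1, m, fun n hn k k5 k6 => hg k k6 ▸ k2 n hn k k5 k6⟩
      exact ⟨σ', k3, m', fun n hn k k5 k6 => hg k k6 ▸ k4 n hn k k5 k6⟩⟩)
    (fun i g hg hi => by
      obtain ⟨σ, hσ, Hσ⟩ := choice (N := N) (R := fun (δ : Lv (nu 2)) (σ : K) => D σ ∧
          ((∃ σ, D σ ∧ ∃ m, ∀ n, m ≤ n → ∀ k, C δ k → k ≤ i → f (g k) n ≤ f σ n) →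
            ∃ m, ∀ n, m ≤ n → ∀ k, C δ k → k ≤ i → f (g k) n ≤ f σ n))
        (by simp only [all_eq, imp_eq]; fun_prop) fun δ => by
          by_cases k : ∃ σ, D σ ∧ ∃ m, ∀ n, m ≤ n → ∀ k, C δ k → k ≤ i → f (g k) n ≤ f σ n
          · exact k.imp fun _ h => ⟨h.1, fun _ => h.2⟩
          · exact ⟨g i, hi, fun k' => (k k').elim⟩
      obtain ⟨b, k1, k2, k3⟩ := bd (fun δ => max (g i) (σ δ)) (fun _ => True) (by fun_prop)
        (by fun_prop) fun δ _ => by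
          rcases max_choice (g i) (σ δ) with k | k <;> rw [k]
          exacts [hi, (Hσ δ).1]
      exact ⟨b, k2, ((le_max_left _ _).trans_lt (k3 i trivial)).le, k1, fun δ k =>
        ⟨σ δ, (le_max_right _ _).trans_lt (k3 δ trivial), (Hσ δ).2 k⟩⟩)
  obtain ⟨g, hg, -, Hg⟩ := run.trace h3.exists_gt ht (E := E d) (by fun_prop)
    (e3 d _ (by fun_prop) (run.club h3.wf h3.exists_gt) (sm_range hξ))
  obtain ⟨δ, k1, k2⟩ := HC g hg
  obtain ⟨c, hc, Hc⟩ := choice' (N := N) (p := C δ) (R := fun i (z : ℕ × ℕ) =>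
      f (t i) z.1 = S z.1 z.2 ∧ (∀ k, C δ k → k ≤ i → f (ξ k) z.1 < f (t i) z.1) ∧
      ∀ j, C δ j → i < j → ∃ k, C δ k ∧ k ≤ j ∧ f (t i) z.1 < f (ξ k) z.1)
    (by simp only [all_eq, imp_eq]; fun_prop) fun i _ => by
      obtain ⟨σ, k3, m, k4⟩ := (H i).2 δ ⟨d, hd, 0, fun n _ k k3 _ => (f3 _ _ (Hg k (k2 k k3)) n).le⟩
      obtain ⟨m', k5⟩ := f2 _ _ k3
      obtain ⟨m'', k6⟩ : ∃ m, ∀ n, m ≤ n → ∀ j, C δ j → i < j →
          ∃ k, C δ k ∧ k ≤ j ∧ f (t i) n < f (ξ k) n := by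
        by_cases k6 : ∃ j, C δ j ∧ i < j
        · obtain ⟨k, k7, k8⟩ := h3.wf.wf.has_min {j | C δ j ∧ i < j} k6
          exact (f2 _ _ (run.lt k i k7.2)).imp fun m k9 n hn j k10 k11 =>
            ⟨k, k7.1, not_lt.1 (k8 j ⟨k10, k11⟩), k9 n hn⟩
        · exact ⟨0, fun _ _ j k7 k8 => (k6 ⟨j, k7, k8⟩).elim⟩
      have k7 := (H i).1
      rw [hT] at k7
      obtain ⟨n, k8, j, k9⟩ := k7 (max m (max m' m''))
      simp only [max_le_iff] at k8
      exact ⟨(n, j), k9, fun k k10 k11 => (k4 n k8.1 k k10 k11).trans_lt (k5 n k8.2.1), k6 n k8.2.2⟩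
  have k3 : ∀ i j, C δ i → C δ j → i < j → c i ≠ c j := fun i j hi hj hij e => by
    obtain ⟨k, k4, k5, k6⟩ := (Hc i hi).2.2 j hj hij
    have k7 := (Hc j hj).2.1 k k4 k5
    rw [(Hc j hj).1, ← e, ← (Hc i hi).1] at k7
    exact k6.not_gt k7
  have := h3.ne
  refine k1 (Sm.of_inj (Big.pair (L := ℕ)) (by fun_prop) hc (fun _ _ => trivial)
    fun i j hi hj e => ?_)
  rcases lt_trichotomy i j with k | k | k
  exacts [(k3 i j hi hj k e).elim, k, (k3 j i hj hi k e.symm).elim]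

end Pool.Agent.P.MP_5a7d1f_lc.Gro
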