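import Pool.Agent.P.MP_5a7d1f_lc.Gro.Alg

/-!
The cube of points attached to an independent family.
-/

set_option synthInstance.maxSize 16384
set_option linter.unusedSectionVars false

namespace Pool.Agent.P.MP_5a7d1f_lc.Gro

open Pool.Agent.Lib.Typed

variable {N : Set ZFSet.{0}} [ZFC N]
variable {W R : Type} [Coded N W] [Coded N R]
variable {A : Type} [Coded N A] [BooleanAlgebra A] [hA : BA N A]

/-- Changing the signs on `S`. -/
def flip {R : Type} (S : List R) (p : List (R × Prop)) : List (R × Prop) :=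
  p.map fun z => (z.1, (z.2 ↔ ¬ z.1 ∈ S))

@[fun_prop] theorem DefF.flip {S : W → List R} {p : W → List (R × Prop)} (hS : DefF N S)
    (hp : DefF N p) : DefF N (fun w => flip (S w) (p w)) := by
  unfold Gro.flip
  fun_prop

theorem mem_flip {R : Type} {S : List R} {p : List (R × Prop)} {z : R × Prop} :
    z ∈ flip S p ↔ (z.1, (z.2 ↔ ¬ z.1 ∈ S)) ∈ p := by
  simp only [flip, List.mem_map]
  constructor
  · rintro ⟨y, hy, rfl⟩
    convert hy using 1
    ext
    · rfl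
    · dsimp only
      tauto
  · intro h
    refine ⟨_, h, ?_⟩
    ext
    · rfl
    · dsimp only
      tauto

theorem mem_flip_flip {R : Type} {S S' : List R} {p : List (R × Prop)} {z : R × Prop}
    (h : z.1 ∈ S ↔ z.1 ∈ S') (hz : z ∈ p) : z ∈ flip S' (flip S p) := by
  rw [mem_flip, mem_flip]
  convert hz using 1
  ext
  · rfl
  · dsimp only
    tauto

theorem flip_mono {R : Type} {S : List R} {p q : List (R × Prop)} (h : ∀ z ∈ p, z ∈ q) :
    ∀ z ∈ flip S p, z ∈ flip S q := fun _ hz => mem_flip.2 (h _ (mem_flip.1 hz))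

theorem sub_flip {R : Type} {S : List R} {p q : List (R × Prop)} (h : ∀ z ∈ flip S p, z ∈ q) :
    ∀ z ∈ p, z ∈ flip S q := fun z hz => flip_mono h z (mem_flip_flip Iff.rfl hz)

theorem Val.flip {R : Type} {Rp : R → Prop} {p : List (R × Prop)} (h : Val Rp p) (S : List R) :
    Val Rp (flip S p) := by
  intro z hz
  refine ⟨(h _ (mem_flip.1 hz)).1, fun z' hz' e => ?_⟩
  have := (h _ (mem_flip.1 hz)).2 _ (mem_flip.1 hz') e
  rw [e] at this
  simp only [eq_iff_iff] at this ⊢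
  tauto

theorem Val.sub {R : Type} {Rp : R → Prop} {p q : List (R × Prop)} (h : Val Rp q)
    (hpq : ∀ z ∈ p, z ∈ q) : Val Rp p :=
  fun z hz => ⟨(h z (hpq z hz)).1, fun z' hz' => (h z (hpq z hz)).2 z' (hpq z' hz')⟩

theorem Val.append {R : Type} {Rp : R → Prop} {p q : List (R × Prop)} (hp : Val Rp p)
    (hq : Val Rp q) (h : ∀ z ∈ p, ∀ z' ∈ q, z.1 = z'.1 → z.2 = z'.2) : Val Rp (p ++ q) := by
  intro z hz
  rcases List.mem_append.1 hz with k | k
  · exact ⟨(hp z k).1, fun z' hz' => (List.mem_append.1 hz').elim ((hp z k).2 z') (h z k z')⟩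
  · exact ⟨(hq z k).1, fun z' hz' => (List.mem_append.1 hz').elim
      (fun k' e => (h z' k' z k e.symm).symm) ((hq z k).2 z')⟩

omit hA in
theorem cell_eq_bot {e : R → A} {p : List (R × Prop)} {z z' : R × Prop} (h : z ∈ p) (h' : z' ∈ p)
    (e1 : z.1 = z'.1) (e2 : z.2 ≠ z'.2) : cell e p = ⊥ := by
  have k : z' = (z.1, ¬ z.2) := Prod.ext e1.symm (by simp only [ne_eq, eq_iff_iff] at e2 ⊢; tauto)
  have := le_inf (cell_le (e := e) h) (cell_le (e := e) h')
  rwa [k, lit_not, inf_compl_eq_bot, le_bot_iff] at this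

/-- The relation `p` forces `a`. -/
theorem exists_forces [Enum N] {e : R → A} (he : DefF N e) {Rp : R → Prop} (hR : DefF N Rp)
    (ind : Indep e Rp) : ∃ Fr : List (R × Prop) → A → Prop,
      DefF N (fun z : List (R × Prop) × A => Fr z.1 z.2) ∧
      (∀ p q a b, (∀ z ∈ p, z ∈ q) → a ≤ b → Fr p a → Fr q b) ∧
      (∀ p a b, Fr p a → Fr p b → Fr p (a ⊓ b)) ∧ (∀ p, Val Rp p → ¬ Fr p ⊥) ∧
      (∀ p a, Val Rp p → ∃ q, Val Rp q ∧ (∀ z ∈ p, z ∈ q) ∧ (Fr q a ∨ Fr q aᶜ)) ∧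
      ∀ p, Fr p (cell e p) := by
  obtain ⟨F, hF, -, h1, h2⟩ := tukey (N := N)
    (Ok := fun l : List A => ∀ p, Val Rp p → lmeet l ⊓ cell e p ≠ ⊥)
    (by simp only [all_eq, imp_eq]; fun_prop) (S0 := fun _ => False) (by fun_prop)
    fun l hl p hp => by
      obtain rfl : l = [] := List.eq_nil_iff_forall_not_mem.2 hl
      simpa using ind p hp
  refine ⟨fun p a => ∃ l : List A, (∀ x ∈ l, F x) ∧ lmeet l ⊓ cell e p ≤ a,
    by simp only [all_eq, imp_eq]; fun_prop, fun p q a b k1 k2 ⟨l, k3, k4⟩ =>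
      ⟨l, k3, ((inf_le_inf_left _ (cell_mono k1)).trans k4).trans k2⟩,
    fun p a b ⟨l, k1, k2⟩ ⟨l', k3, k4⟩ => ⟨l ++ l', by simpa [or_imp, forall_and] using ⟨k1, k3⟩,
      le_inf ((inf_le_inf_right _ (by simp)).trans k2) ((inf_le_inf_right _ (by simp)).trans k4)⟩,
    fun p hp ⟨l, k1, k2⟩ => h1 l k1 p hp (le_bot_iff.1 k2), fun p a hp => ?_,
    fun p => ⟨[], by simp, by simp⟩⟩
  by_cases k : F (cell e p ⊓ a)ᶜ
  · refine ⟨p, hp, fun _ h => h, Or.inr ⟨[_], by simpa using k, ?_⟩⟩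
    simp [inf_sup_right]
  · have k1 := mt (h2 _) k
    push Not at k1
    obtain ⟨l, k1, q, k2, k3⟩ := k1
    obtain ⟨l', k4, k5⟩ := exists_filter_list k1
    have k6 : lmeet l' ⊓ cell e q ≤ cell e p ⊓ a := by
      rw [← disjoint_compl_right_iff, disjoint_iff, ← le_bot_iff, ← k3, inf_right_comm, inf_comm (lmeet l')]
      exact inf_le_inf_right _ (lmeet_mono k5)
    refine ⟨p ++ q, hp.append k2 fun z hz z' hz' e1 => by_contra fun e2 => h1 l' k4 q k2 ?_,
      by simp +contextual, Or.inl ⟨l', k4, (inf_le_inf_left _ (by simp)).trans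
        (k6.trans inf_le_right)⟩⟩
    have k7 := cell_eq_bot (e := e) (p := p ++ q) (z := z) (z' := z') (by simp [hz]) (by simp [hz'])
      e1 e2
    rw [cell_append] at k7
    exact le_bot_iff.1 (k7 ▸ le_inf (k6.trans inf_le_left) inf_le_right)

/-- Countable sets of indices that are closed under a definable operation on conditions. -/
theorem exists_support [Nonempty R] {d : List (R × Prop) → List (R × Prop)} (hd : DefF N d) :
    ∃ S : DSet N R, Ctble N S.Mem ∧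
      ∀ p : List (R × Prop), (∀ z ∈ p, S.Mem z.1) → ∀ z ∈ d p, S.Mem z.1 := by
  classical
  obtain ⟨G, hG, HG⟩ := choice (N := N)
    (R := fun (w : ℕ × List (R × Prop) × Prop) (y : List (R × Prop)) =>
      ∀ z, At w.2.1 w.1 z → y = [(z.1, w.2.2)]) (by simp only [all_eq, imp_eq]; fun_prop) fun w => by
      by_cases h : ∃ z, At w.2.1 w.1 z
      · obtain ⟨z, hz⟩ := h
        exact ⟨[(z.1, w.2.2)], fun z' hz' => by rw [Option.some.inj (hz.symm.trans hz')]⟩
      · exact ⟨[], fun z hz => (h ⟨z, hz⟩).elim⟩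
  obtain ⟨π, hπ, -, ⟨i0, h0⟩, h1⟩ := exists_hull (N := N) (L := ℕ) (V := fun _ => True)
    (F := fun i x y => if i = 0 then d x else if i = 1 then x ++ y else
      G (i.unpair.2, x, i.unpair.1 = 2)) (by fun_prop) (fun _ _ _ _ _ => trivial) (x0 := []) trivial
  refine ⟨⟨fun r => ∃ j, ∃ z ∈ π j, z.1 = r, by fun_prop⟩, ?_, fun p hp z hz => ?_⟩
  · refine (Sm.biUnion (L := ℕ) sm_self (R := fun j r => ∃ z ∈ π j, z.1 = r) (by fun_prop)
      fun j => ?_).mono fun _ ⟨j, h⟩ => ⟨j, trivial, h⟩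
    exact sm_finite (((π j).finite_toSet.image Prod.fst).subset fun _ h => h)
  · suffices ∃ j, π j = p by
      obtain ⟨j, rfl⟩ := this
      obtain ⟨m, hm⟩ := h1 0 j j
      exact ⟨m, z, by simpa [hm] using hz, rfl⟩
    clear hz
    induction p with
    | nil => exact ⟨i0, h0⟩
    | cons y p ih =>
      obtain ⟨k, hk⟩ := ih fun z hz => hp z (List.mem_cons_of_mem _ hz)
      obtain ⟨j, y', k1, k2⟩ := hp y List.mem_cons_self
      obtain ⟨n, hn⟩ := List.mem_iff_getElem?.1 k1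
      obtain ⟨m, hm⟩ := h1 (Nat.pair (if y.2 then 2 else 3) n) j j
      have k3 := Nat.left_le_pair (if y.2 then 2 else 3) n
      have k4 : 2 ≤ (if y.2 then 2 else 3) := by split_ifs <;> omega
      rw [if_neg (by omega), if_neg (by omega), HG _ y' (by simpa [At] using hn)] at hm
      obtain ⟨m', hm'⟩ := h1 1 m k
      refine ⟨m', ?_⟩
      rw [hm', hm, hk]
      by_cases k5 : y.2 <;> simp [k2, k5, Prod.ext_iff]

/-- The cube lemma. -/
theorem exists_cube [Enum N] [Nonempty R] {e : R → A} (he : DefF N e) {Rp : R → Prop}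
    (hR : DefF N Rp) (ind : Indep e Rp) :
    ∃ (u : DFun N (List R) (Pt N A)) (Sup : DSet N (A × R)),
      (∀ a, Ctble N (fun r => Sup.Mem (a, r))) ∧ (∀ r, Rp r → u.app [] ≠ u.app [r]) ∧
      ∀ a S S', (∀ r, Sup.Mem (a, r) → (r ∈ S ↔ r ∈ S')) → (u.app S).has a → (u.app S').has a := by
  classical
  obtain ⟨Fr, hFr, f1, f2, f3, f4, f5⟩ := exists_forces he hR ind
  obtain ⟨d, hd, Hd⟩ := choice' (N := N) (p := fun w : A × List (R × Prop) => Val Rp w.2)
    (R := fun w q => Val Rp q ∧ (∀ z ∈ w.2, z ∈ q) ∧ (Fr q w.1 ∨ Fr q w.1ᶜ))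
    (by simp only [all_eq, imp_eq]; fun_prop) fun w => f4 w.2 w.1
  obtain ⟨Sp, hSp, HSp⟩ := choice (N := N) (R := fun (a : A) (S : DSet N R) => Ctble N S.Mem ∧
      ∀ p : List (R × Prop), (∀ z ∈ p, S.Mem z.1) → ∀ z ∈ d (a, p), S.Mem z.1)
    (by simp only [all_eq, imp_eq]; fun_prop) fun a => exists_support (by fun_prop)
  obtain ⟨w, hw, -, w1, w2⟩ := tukey (N := N)
    (Ok := fun l : List (List R × A) => ∃ p, Val Rp p ∧ ∀ z ∈ l, Fr (flip z.1 p) z.2)
    (by simp only [all_eq, imp_eq]; fun_prop) (S0 := fun _ => False) (by fun_prop)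
    fun l hl => ⟨[], by simp [Val], fun z hz => (hl z hz).elim⟩
  have key : ∀ S a, w (S, a) ↔ ∀ l : List (List R × A), (∀ z ∈ l, w z) →
      ∃ p, Val Rp p ∧ Fr (flip S p) a ∧ ∀ z ∈ l, Fr (flip z.1 p) z.2 := fun S a =>
    ⟨fun h l hl => by simpa using w1 ((S, a) :: l) (List.forall_mem_cons.2 ⟨h, hl⟩),
      fun H => w2 _ fun l hl => by
        obtain ⟨l', k1, k2⟩ := exists_filter_list hl
        obtain ⟨p, k3, k4⟩ := H l' k1
        exact ⟨p, k3, fun z hz => List.forall_mem_cons (p := fun z : List R × A =>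
          Fr (flip z.1 p) z.2).2 k4 z (k2 z hz)⟩⟩
  have two : ∀ z z', w z → w z' → ∃ p, Val Rp p ∧ Fr (flip z.1 p) z.2 ∧ Fr (flip z'.1 p) z'.2 :=
    fun z z' h h' => by simpa using w1 [z, z'] (by simp [h, h'])
  have u1 : ∀ S a b, w (S, a ⊓ b) ↔ w (S, a) ∧ w (S, b) := fun S a b =>
    ⟨fun H => ⟨(key _ _).2 fun l hl => ((key _ _).1 H l hl).imp fun _ h =>
        ⟨h.1, f1 _ _ _ _ (fun _ h => h) inf_le_left h.2.1, h.2.2⟩,
      (key _ _).2 fun l hl => ((key _ _).1 H l hl).imp fun _ h =>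
        ⟨h.1, f1 _ _ _ _ (fun _ h => h) inf_le_right h.2.1, h.2.2⟩⟩,
      fun H => (key _ _).2 fun l hl => by
        obtain ⟨p, k1, k2, k3⟩ := (key _ _).1 H.1 ((S, b) :: l) (List.forall_mem_cons.2 ⟨H.2, hl⟩)
        rw [List.forall_mem_cons] at k3
        exact ⟨p, k1, f2 _ _ _ k2 k3.1, k3.2⟩⟩
  have u2 : ∀ S a, w (S, aᶜ) ↔ ¬ w (S, a) := fun S a => by
    refine ⟨fun H H' => ?_, fun H => by_contra fun H' => ?_⟩
    · obtain ⟨p, k1, k2, k3⟩ := two _ _ H' H
      exact f3 _ (k1.flip S) (by simpa using f2 _ _ _ k2 k3)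
    · rw [key] at H H'
      push Not at H H'
      obtain ⟨l, k1, k2⟩ := H
      obtain ⟨l', k3, k4⟩ := H'
      obtain ⟨p, k5, k6⟩ := w1 (l ++ l') (by simpa only [List.forall_mem_append] using ⟨k1, k3⟩)
      obtain ⟨q, k7, k8, k9⟩ := f4 _ a (k5.flip S)
      have k10 : ∀ z ∈ l ++ l', Fr (flip z.1 (flip S q)) z.2 := fun z hz =>
        f1 _ _ _ _ (flip_mono (sub_flip k8)) le_rfl (k6 z hz)
      have k11 : ∀ b, Fr q b → Fr (flip S (flip S q)) b := fun b =>
        f1 _ _ _ _ (fun z hz => mem_flip_flip Iff.rfl hz) le_rfl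
      rcases k9 with k9 | k9
      · obtain ⟨z, k12, k13⟩ := k2 _ (k7.flip S) (k11 _ k9)
        exact k13 (k10 z (by simp [k12]))
      · obtain ⟨z, k12, k13⟩ := k4 _ (k7.flip S) (k11 _ k9)
        exact k13 (k10 z (by simp [k12]))
  refine ⟨⟨fun S => Pt.mk (fun a => w (S, a)) (by fun_prop) (u1 S) (u2 S), DefF.of_has ?_⟩,
    ⟨fun z => (Sp z.1).Mem z.2, by fun_prop⟩, fun a => (HSp a).1, fun r hr h => ?_,
    fun a S S' hS H => (key _ _).2 fun l hl => ?_⟩
  · exact hw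
  · have k1 : ∀ a, w ([], a) ↔ w ([r], a) := fun a => eq_iff_iff.1 (congrArg (fun x => x.has a) h)
    obtain ⟨s, hs⟩ : ∃ s, w ([], lit e (r, s)) := by
      by_cases k : w ([], e r)
      exacts [⟨True, by simpa using k⟩, ⟨False, by simpa using (u2 _ _).2 k⟩]
    obtain ⟨p, k2, k3, k4⟩ := two _ _ hs ((k1 _).1 hs)
    obtain ⟨q, t, k5, k6, k7⟩ : ∃ q t, Val Rp q ∧ (∀ z ∈ p, z ∈ q) ∧ (r, t) ∈ q := by
      by_cases k : ∃ t, (r, t) ∈ p
      · exact ⟨p, k.choose, k2, fun _ h => h, k.choose_spec⟩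
      · refine ⟨[(r, True)] ++ p, True, Val.append (by simpa [Val] using hr) k2 fun z hz z' hz' e1 => ?_,
          by simp +contextual, by simp⟩
        obtain rfl := List.mem_singleton.1 hz
        exact (k ⟨z'.2, by rw [show r = z'.1 from e1]; exact hz'⟩).elim
    have k8 : ∀ S, Fr (flip S p) (lit e (r, s)) → (r, ¬ s) ∈ flip S q → False := fun S k8 k9 =>
      f3 _ (k5.flip S) (by
        have k10 := f2 _ _ _ (f1 _ _ _ _ (flip_mono k6) le_rfl k8)
          (f1 _ _ _ _ (fun _ h => h) (cell_le k9) (f5 _))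
        rwa [lit_not, inf_compl_eq_bot] at k10)
    by_cases k9 : s ↔ t
    · exact k8 _ k4 (mem_flip.2 (by convert k7 using 2; simp only [List.mem_singleton]; tauto))
    · exact k8 _ k3 (mem_flip.2 (by convert k7 using 2; simp only [List.not_mem_nil]; tauto))
  · obtain ⟨p, k1, k2, k3⟩ := (key _ _).1 H l hl
    obtain ⟨q, hq⟩ : ∃ q, q = (flip S p).filter fun z => (Sp a).Mem z.1 := ⟨_, rfl⟩
    have k4 : ∀ z, z ∈ q ↔ z ∈ flip S p ∧ (Sp a).Mem z.1 := by simp [hq]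
    obtain ⟨k5, k6, k7⟩ := Hd (a, q) ((k1.flip S).sub fun z hz => ((k4 z).1 hz).1)
    have k8 := (HSp a).2 q fun z hz => ((k4 z).1 hz).2
    have k9 : Val Rp (d (a, q) ++ flip S p) := k5.append (k1.flip S) fun z hz z' hz' e1 =>
      (k5 z hz).2 z' (k6 z' ((k4 z').2 ⟨hz', e1 ▸ k8 z hz⟩)) e1
    have k10 := k7.resolve_right fun k => f3 _ k9 (by
      have k11 := f2 _ _ _ (f1 _ (d (a, q) ++ flip S p) _ _ (by simp +contextual) le_rfl k2)
        (f1 _ _ _ _ (by simp +contextual) le_rfl k)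
      rwa [inf_compl_eq_bot] at k11)
    refine ⟨_, k9.flip S, f1 _ _ _ _ (fun z hz => mem_flip_flip (hS _ (k8 z hz)) (by simp [hz]))
      le_rfl k10, fun z hz => f1 _ _ _ _ (flip_mono (sub_flip (by simp +contextual))) le_rfl (k3 z hz)⟩

end Pool.Agent.P.MP_5a7d1f_lc.Gro
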