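import Mathlib.Topology.MetricSpace.Pseudo.Lemmas
import Mathlib.Topology.Instances.Real.Lemmas
import Pool.Agent.P.MP_af0a18_lc.Defs

/-!
The notions of the problem, relativised to a transitive class `N` of sets. An object of
ordinary mathematics lies in `N` when its code, a set, is a member of `N`.
-/

namespace Pool.Agent.P.MP_5a7d1f_lc.Gro

open ZFSet Filter Topology Pool.Agent.Lib.Forcing

/-- `N` contains a (partial) function that maps `a` onto `b`. -/
def Onto (N : Set ZFSet.{0}) (a b : ZFSet.{0}) : Prop :=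
  ∃ f ∈ N, (∀ x y, pair x y ∈ f → ∀ z, pair x z ∈ f → y = z) ∧ ∀ y ∈ b, ∃ x ∈ a, pair x y ∈ f

/-- MA holds in `N`: for a nonempty forcing in `N` whose antichains in `N` are
countable in `N`, and a family in `N` of fewer than continuum many dense sets, a filter in `N`
meets all members of the family. -/
def MAIn (N : Set ZFSet.{0}) : Prop :=
  ∀ P ∈ N, ∀ le ∈ N, IsForcing P le → P ≠ ∅ →
    (∀ A ∈ N, A ⊆ P → (∀ p ∈ A, ∀ q ∈ A, p ≠ q → ¬ ∃ r, pair r p ∈ le ∧ pair r q ∈ le) →
      Onto N omega A) →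
    ∀ D ∈ N, (∀ d ∈ D, d ⊆ P ∧ ∀ p ∈ P, ∃ q ∈ d, pair q p ∈ le) →
      ¬ Onto N D (omega.powerset.sep (· ∈ N)) →
      ∃ G ∈ N, G ⊆ P ∧ (∀ p q, q ∈ G → pair q p ∈ le → p ∈ G) ∧
        (∀ p ∈ G, ∀ q ∈ G, ∃ r ∈ G, pair r p ∈ le ∧ pair r q ∈ le) ∧ ∀ d ∈ D, ∃ q ∈ d, q ∈ G

variable {X Y : Type}

/-- The von Neumann code of a natural number. -/
noncomputable def nat (n : ℕ) : ZFSet.{0} := Ordinal.toZFSet n

/-- The code of an ordered pair. -/
def pairCode (c : X → ZFSet.{0}) (d : Y → ZFSet.{0}) (z : X × Y) : ZFSet.{0} :=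
  pair (c z.1) (d z.2)

/-- The code of a set is the set of the codes of its elements. -/
noncomputable def setCode (c : X → ZFSet.{0}) (S : Set X) : ZFSet.{0} := range fun x : S => c x

/-- The code of a function is the code of its graph. -/
noncomputable def funCode (c : X → ZFSet.{0}) (d : Y → ZFSet.{0}) (f : X → Y) : ZFSet.{0} :=
  setCode (pairCode c d) {z | f z.1 = z.2}

/-- The rational number `(a - b) / (k + 1)`. -/
noncomputable def rq (z : ℕ × ℕ × ℕ) : ℝ := ((z.1 : ℝ) - z.2.1) / (z.2.2 + 1)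

/-- The code of a real function `f` is the code of the set of pairs `(x, q)`, `q` a rational
number below `f x` (the lower Dedekind cuts of the values). -/
noncomputable def realCode (c : X → ZFSet.{0}) (f : X → ℝ) : ZFSet.{0} :=
  setCode (pairCode c (pairCode nat (pairCode nat nat))) {z | rq z.2 < f z.1}

/-- The real functions on `X` that lie in `N` and satisfy `P`. -/
def Fns (N : Set ZFSet.{0}) (c : X → ZFSet.{0}) (P : (X → ℝ) → Prop) : Type :=
  {f : X → ℝ // realCode c f ∈ N ∧ P f}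

/-- The code of a member of `Fns`. -/
noncomputable def fnCode {N : Set ZFSet.{0}} {c : X → ZFSet.{0}} {P : (X → ℝ) → Prop}
    (f : Fns N c P) : ZFSet.{0} := realCode c f.1

/-- `φ` is linear, and bounded for the norm `sup {|f x| : B x}`. -/
def IsFunctional {N : Set ZFSet.{0}} {c : X → ZFSet.{0}} {P : (X → ℝ) → Prop} (B : X → Prop)
    (φ : Fns N c P → ℝ) : Prop :=
  (∀ f g h : Fns N c P, h.1 = f.1 + g.1 → φ h = φ f + φ g) ∧
    (∀ (t : ℝ) (f g : Fns N c P), g.1 = t • f.1 → φ g = t * φ f) ∧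
    ∃ M : ℝ, ∀ (f : Fns N c P) (r : ℝ), (∀ x, B x → |f.1 x| ≤ r) → |φ f| ≤ M * r

variable {A : Type} [BooleanAlgebra A]

/-- The Boolean algebra `A`, coded by `c`, lies in `N`. -/
structure IsAlgebraIn (N : Set ZFSet.{0}) (c : A → ZFSet.{0}) : Prop where
  inj : Function.Injective c
  carrier : setCode c Set.univ ∈ N
  inf : funCode (pairCode c c) c (fun z => z.1 ⊓ z.2) ∈ N
  compl : funCode c c (fun a => aᶜ) ∈ N

/-- The ultrafilters in `N` of the algebra of the elements whose code lies in `N`. -/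
def St (N : Set ZFSet.{0}) (c : A → ZFSet.{0}) : Type :=
  {x : Set A // setCode c x ∈ N ∧ (∀ a b, c a ∈ N → c b ∈ N → (a ⊓ b ∈ x ↔ a ∈ x ∧ b ∈ x)) ∧
    ∀ a, c a ∈ N → (aᶜ ∈ x ↔ a ∉ x)}

/-- The Stone topology. -/
instance (N : Set ZFSet.{0}) (c : A → ZFSet.{0}) : TopologicalSpace (St N c) :=
  TopologicalSpace.generateFrom {U | ∃ a : A, U = {x | a ∈ x.1}}

/-- The code of a point of the Stone space. -/
noncomputable def stCode {N : Set ZFSet.{0}} {c : A → ZFSet.{0}} (x : St N c) : ZFSet.{0} :=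
  setCode c x.1

/-- The space `C(St A)` of `N`. -/
def CK (N : Set ZFSet.{0}) (c : A → ZFSet.{0}) : Type :=
  Fns N (stCode : St N c → _) Continuous

/-- The dual space `C(St A)*` of `N`. -/
def Dual (N : Set ZFSet.{0}) (c : A → ZFSet.{0}) : Type :=
  Fns N (fnCode : CK N c → _) (IsFunctional fun _ => True)

/-- The bidual space `C(St A)**` of `N`. -/
def Bidual (N : Set ZFSet.{0}) (c : A → ZFSet.{0}) : Type :=
  Fns N (fnCode : Dual N c → _) (IsFunctional fun f : CK N c => ∀ x, |f.1 x| ≤ 1)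

/-- `A` has the Grothendieck property in `N`: every weak* convergent sequence in `N` of the
dual space is weakly convergent. -/
def GrothendieckIn (N : Set ZFSet.{0}) (c : A → ZFSet.{0}) : Prop :=
  ∀ φ : ℕ → Dual N c, funCode nat fnCode φ ∈ N → ∀ ψ : Dual N c,
    (∀ f : CK N c, Tendsto (fun n => (φ n).1 f) atTop (𝓝 (ψ.1 f))) →
    ∀ Φ : Bidual N c, Tendsto (fun n => Φ.1 (φ n)) atTop (𝓝 (Φ.1 ψ))

/-- `N` contains a topological embedding of its `βω`, the Stone space of its power set of `ω`,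
in the Stone space of `A`. -/
def ContainsBetaIn (N : Set ZFSet.{0}) (c : A → ZFSet.{0}) : Prop :=
  ∃ h : St N (setCode nat) → St N c, funCode stCode stCode h ∈ N ∧ IsEmbedding h

end Pool.Agent.P.MP_5a7d1f_lc.Gro
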