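import Pool.Agent.P.MP_5a7d1f_lc.Gro.Ccc

/-!
Generic extensions in the typed layer: covering, preservation of cardinals, names for ccc
forcing and a book-keeping function.
-/

set_option synthInstance.maxSize 16384
set_option linter.unusedSectionVars false

namespace Pool.Agent.P.MP_5a7d1f_lc.Gro

open ZFSet Pool.Agent.Lib.Forcing Pool.Agent.Lib.Typed Pool.Agent.P.MP_af0a18_lc

/-- The codes in `M` and in `N` agree. -/
class Same (M N : Set ZFSet.{0}) (X : Type) [Coded M X] [Coded N X] : Prop where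
  eq : ∀ x : X, cd N x = cd M x

variable {M N : Set ZFSet.{0}} [ZFC M] [ZFC N]
variable {X : Type} [Coded M X] {V G : X → Prop} {Le : X → X → Prop}
variable {A B L L' : Type} [Coded M A] [Coded N A] [Same M N A] [Coded M B] [Coded N B]
  [Same M N B] [Coded M L] [Coded N L] [Same M N L] [Coded M L'] [Coded N L'] [Same M N L']

instance : Same M N ℕ := ⟨fun _ => rfl⟩

instance {a : ZFSet.{0}} [InM M a] [InM N a] : Same M N (El a) := ⟨fun _ => rfl⟩

instance : Same M N (A × B) :=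
  ⟨fun z => by rw [cd_prod', cd_prod', Same.eq (M := M), Same.eq (M := M) z.2]⟩

instance : Same M N (List A) := ⟨fun l => by
  ext z
  refine (mem_cd_dset (S := listGraph l)).trans
    (Iff.trans ?_ (mem_cd_dset (S := listGraph l)).symm)
  simp only [Same.eq (M := M) (N := N)]
  rfl⟩

instance {p : A → Prop} [DefC M p] [DefC N p] : Same M N {x // p x} :=
  ⟨fun x => Same.eq (M := M) x.1⟩

theorem DefF.up (h : M ⊆ N) {f : A → B} (hf : DefF M f) : DefF N f := hf.lift h Same.eq Same.eq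

theorem DefF.upP (h : M ⊆ N) {p : A → Prop} (hp : DefF M p) : DefF N p :=
  hp.lift h Same.eq fun _ => rfl

theorem Sm.up (h : M ⊆ N) {p : A → Prop} (hp : Sm M L p) : Sm N L p :=
  hp.imp fun _ k => ⟨DefF.up h k.1, k.2⟩

theorem WO.up (h : M ⊆ N) [LinearOrder A] [k : WO M A] : WO N A := ⟨k.wf, DefF.upP h k.def_lt⟩

/-- Functions on `L` of `N` have countably many possible values in `M`. -/
def Cover (M N : Set ZFSet.{0}) [ZFC M] [ZFC N] (L : Type) [Coded M L] [Coded N L] : Prop :=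
  ∀ (B : Type) [Coded M B] [Coded N B] [Same M N B] (s : L → B), DefF N s →
    ∃ W : L → B → Prop, DefF M (fun z : L × B => W z.1 z.2) ∧ ∀ a, Ctble M (W a) ∧ W a (s a)

theorem Cover.mono (h : M ⊆ N) (hc : Cover M N L) (hL : Sm M L (fun _ : L' => True)) :
    Cover M N L' := by
  intro B _ _ _ s hs
  obtain ⟨g, hg, H⟩ := hL
  obtain ⟨j, hj, Hj⟩ := choice (N := M) (R := fun (a : L') (i : L) => g i = a) (by fun_prop)
    fun a => H a trivial
  obtain ⟨W, h1, h2⟩ := hc B (fun i => s (g i)) (hs.comp (DefF.up h hg))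
  exact ⟨fun a => W (j a), by fun_prop, fun a => ⟨(h2 _).1, Hj a ▸ (Hj a).symm ▸ (h2 (j a)).2⟩⟩

theorem Succ.up [LinearOrder B] [hK : Succ M L B] (h : M ⊆ N) (hc : Cover M N L) : Succ N L B := by
  have := hK.big
  refine { WO.up h with
    big := ⟨Big.pair.up h, Big.nat.up h⟩
    ne := hK.ne
    small := fun a => (hK.small a).up h
    bdd := fun s hs => ?_ }
  obtain ⟨W, h1, h2⟩ := hc B s hs
  obtain ⟨b, hb⟩ := (sm_self.biUnion h1 fun a => ctble_sm (L := L) (h2 a).1).bdd (K := B) DefF.id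
  exact ⟨b, fun i => hb _ ⟨i, trivial, (h2 i).2⟩⟩

theorem Scale.up [LinearOrder B] [WO M B] [WO N B] {nu : ℕ → B} {lam : B} (sc : Scale M nu lam)
    (h : M ⊆ N) (hc : Cover M N (Lv lam)) : Scale N nu lam :=
  ⟨DefF.up h sc.def_nu, sc.mono, sc.lt, sc.cof, sc.zero.up h (hc.mono h sc.top.big.nat),
    fun i => (sc.succ i).up h (have := sc.ne i; hc.mono h (sm_lv_le (sc.lt i).le)), sc.top.up h hc⟩

/-- `N` is the extension of `M` by the generic filter `G`. -/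
structure Gen (M N : Set ZFSet.{0}) [ZFC M] [ZFC N] {X : Type} [Coded M X] (V : X → Prop)
    (Le : X → X → Prop) (G : X → Prop) : Prop where
  po : Po M V Le
  sub : M ⊆ N
  valid : ∀ p, G p → V p
  up : ∀ p q, G p → V q → Le p q → G q
  dir : ∀ p q, G p → G q → ∃ r, G r ∧ Le r p ∧ Le r q
  ne : ∃ p, G p
  below : ∀ {R : X → Prop}, DefF M R → ∀ {p}, G p →
    (∀ q, V q → Le q p → ∃ q', V q' ∧ Le q' q ∧ R q') → ∃ q, G q ∧ R q
  eval : ∀ {A : Type} [Coded M A] [Coded N A] [Same M N A] {R : A → X → Prop},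
    DefF M (fun z : A × X => R z.1 z.2) → DefF N (fun a => ∃ p, G p ∧ R a p)
  nice : ∀ {A : Type} [Coded M A] [Coded N A] [Same M N A] {Z : A → Prop}, DefF N Z →
    ∃ S : A → X → Prop, DefF M (fun z : A × X => S z.1 z.2) ∧
      (∀ a p q, S a p → V q → Le q p → S a q) ∧ ∀ a, Z a ↔ ∃ p, G p ∧ S a p

theorem Gen.meets (h : Gen M N V Le G) {R : X → Prop} (hR : DefF M R)
    (hd : ∀ q, V q → ∃ q', V q' ∧ Le q' q ∧ R q') : ∃ q, G q ∧ R q :=
  h.ne.elim fun _ hp => h.below hR hp fun q hq _ => hd q hq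

theorem exists_gen [hE : Enum M] (hM : IsZFModel M) (hc : M.Countable) (po : Po M V Le)
    (hne : ∃ p, V p) : ∃ (N : Set ZFSet.{0}) (_ : ZFC N), Enum N ∧ IsZFModel N ∧ N.Countable ∧
      ∃ G, Gen M N V Le G := by
  obtain ⟨P, le, tf⟩ := exists_TF po.defV po.defLe po.refl po.trans
  obtain ⟨p, hp⟩ := hne
  obtain ⟨H, -, hH⟩ := exists_generic hc tf.forcing ((tf.hP _).2 ⟨p, hp, rfl⟩)
  have hN := hM.genericExt tf.forcing tf.memP tf.memL hH
  have := hN.zfm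
  have hMN := subset_genericExt tf.forcing tf.memP hH
  have enum : ∀ x ∈ genericExt M H, ∃ α ∈ genericExt M H, α.IsOrdinal ∧
      Surj (genericExt M H) α x := by
    intro x hx
    obtain ⟨T, hT, v, hv, h2, h3⟩ := exists_cover tf.forcing tf.memP hH hx
    obtain ⟨α, hα, ho, r, hr, h4, h5⟩ := hE.enum T hT
    exact ⟨α, hMN hα, ho, Surj.trans (hMN hα) hx ⟨r, hMN hr, h4, h5⟩
      ⟨v, hv, fun a b h c h' => h2 a b c h h', h3⟩⟩
  have hZF := zfc_of hN (choice_of_enum enum)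
  refine ⟨_, hZF, ⟨enum⟩, hN, hc.image _, In M H, po, hMN,
    fun _ => tf.valid hH, fun p q h1 h2 h3 =>
      hH.upward _ _ h1 ((tf.hL _ _).2 ⟨tf.valid hH h1, h2, h3⟩), fun _ _ => tf.directed hH,
    tf.nonempty hH, fun hR _ => tf.below hH hR, fun hR => ?_, fun {A} _ _ _ _ hZ => ?_⟩
  · obtain ⟨Z, h1, -, h2⟩ := tf.eval hH hR
    exact (defF_mem h1).congr_iff fun a => by rw [Same.eq (M := M), h2]
  · obtain ⟨Z, h1, h2⟩ := hZ.defP
    obtain ⟨S, h3, h4, h5⟩ := tf.nice hH h1 A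
    exact ⟨S, h3, h4, fun a => by rw [h2, Same.eq (M := M), h5]⟩

/-- Conditions that decide the values of a function of the extension. -/
theorem Gen.decide (h : Gen M N V Le G) {s : A → B} (hs : DefF N s) :
    ∃ S : A → B → X → Prop, DefF M (fun z : A × B × X => S z.1 z.2.1 z.2.2) ∧
      (∀ a b p q, S a b p → V q → Le q p → S a b q) ∧ (∀ a b b' p, S a b p → S a b' p → b = b') ∧
      (∀ a b p, S a b p → V p) ∧ ∀ a, ∃ p, G p ∧ S a (s a) p := by
  obtain ⟨S, h1, h2, h3⟩ := h.nice (Z := fun z : A × B => s z.1 = z.2) (by fun_prop)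
  have := h.po.defV
  have := h.po.defLe
  refine ⟨fun a b p => V p ∧ S (a, b) p ∧ ∀ q b', V q → Le q p → S (a, b') q → b' = b,
    by simp only [all_eq, imp_eq]; fun_prop, fun a b p q k1 k2 k3 => ⟨k2, h2 _ _ _ k1.2.1 k2 k3,
      fun r b' k4 k5 => k1.2.2 r b' k4 (h.po.trans _ _ _ k5 k3)⟩,
    fun a b b' p k1 k2 => k2.2.2 p b k1.1 (h.po.refl p) k1.2.1, fun _ _ _ k => k.1, fun a => ?_⟩
  obtain ⟨p, k1, k2⟩ := (h3 (a, s a)).1 rfl
  obtain ⟨q, k3, k4, k5⟩ := h.below (R := fun q => Le q p ∧ ((∃ b', b' ≠ s a ∧ S (a, b') q) ∨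
      ∀ r b', V r → Le r q → S (a, b') r → b' = s a)) (by simp only [all_eq, imp_eq]; fun_prop) k1
    fun q k3 k4 => by
      by_cases k : ∀ r b', V r → Le r q → S (a, b') r → b' = s a
      · exact ⟨q, k3, h.po.refl q, k4, Or.inr k⟩
      · push Not at k
        obtain ⟨r, b', k5, k6, k7, k8⟩ := k
        exact ⟨r, k5, k6, h.po.trans _ _ _ k6 k4, Or.inl ⟨b', k8, k7⟩⟩
  exact ⟨q, k3, h.valid q k3, h2 _ _ _ k2 (h.valid q k3) k4,
    k5.resolve_left fun ⟨b', k6, k7⟩ => k6 ((h3 (a, b')).2 ⟨q, k3, k7⟩).symm⟩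

theorem Gen.cover (h : Gen M N V Le G) (hc : Ccc M V Le) : Cover M N L := by
  intro B _ _ _ s hs
  obtain ⟨S, h1, h2, h3, h4, h5⟩ := h.decide hs
  obtain ⟨p0, -⟩ := h.ne
  have : Nonempty X := ⟨p0⟩
  refine ⟨fun a b => ∃ p, S a b p, by fun_prop, fun a => ⟨?_, (h5 a).imp fun _ k => k.2⟩⟩
  have : Nonempty B := ⟨s a⟩
  obtain ⟨f, hf, H⟩ := choice' (N := M) (p := fun b => ∃ p, S a b p) (R := fun b p => S a b p)
    (by fun_prop) fun _ k => k
  exact hc.index h.po (by fun_prop) hf (fun b hb => h4 _ _ _ (H b hb))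
    fun b b' hb hb' k ⟨r, k1, k2, k3⟩ =>
      k (h3 a b b' r (h2 _ _ _ _ (H b hb) k1 k2) (h2 _ _ _ _ (H b' hb') k1 k3))

/-- Names with countably many conditions for each point. -/
theorem Gen.name [Enum M] (h : Gen M N V Le G) (hc : Ccc M V Le) {Z : A → Prop} (hZ : DefF N Z) :
    ∃ nm : A → ℕ → List X, DefF M (fun z : A × ℕ => nm z.1 z.2) ∧
      (∀ a n, ∀ x ∈ nm a n, V x) ∧ ∀ a, Z a ↔ ∃ n, ∃ x ∈ nm a n, G x := by
  obtain ⟨S, h1, h2, h3⟩ := h.nice hZ
  have := h.po.defV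
  have := h.po.defLe
  have := h.po.def_cmp
  obtain ⟨c, hc, H⟩ := choice (N := M) (R := fun (a : A) (c : DFun M ℕ (List X)) =>
      (∀ n, ∀ x ∈ c.app n, V x ∧ S a x) ∧
        ∀ p r, V p ∧ S a p → V r → Le r p → ∃ n, ∃ x ∈ c.app n, Cmp V Le r x)
    (by simp only [all_eq, imp_eq]; fun_prop) fun a => by
      obtain ⟨c, k1, k2⟩ := h.po.predense' hc (E := fun p => V p ∧ S a p) (by fun_prop)
      exact ⟨⟨c, k1⟩, k2⟩
  refine ⟨fun a n => (c a).app n, by fun_prop, fun a n x hx => ((H a).1 n x hx).1, fun a =>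
    (h3 a).trans ⟨fun ⟨p, k1, k2⟩ => ?_, fun ⟨n, x, k1, k2⟩ => ⟨x, k2, ((H a).1 n x k1).2⟩⟩⟩
  obtain ⟨q, k3, n, x, k4, k5⟩ := h.below (R := fun q => ∃ n, ∃ x ∈ (c a).app n, Le q x)
    (by fun_prop) k1 fun r k3 k4 => by
      obtain ⟨n, x, k5, q, k6, k7, k8⟩ := (H a).2 p r ⟨h.valid p k1, k2⟩ k3 k4
      exact ⟨q, k6, k7, n, x, k5, k8⟩
  exact ⟨n, x, k4, h.up q x k3 ((H a).1 n x k4).1 k5⟩

/-- A distributive forcing adds no function on `L`. -/
theorem Gen.no_new (h : Gen M N V Le G)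
    (hd : ∀ p, V p → ∀ D : L → X → Prop, DefF M (fun z : L × X => D z.1 z.2) →
      (∀ i q, V q → ∃ q', V q' ∧ Le q' q ∧ D i q') →
      (∀ i q q', V q' → Le q' q → D i q → D i q') → ∃ q, V q ∧ Le q p ∧ ∀ i, D i q)
    {s : L → B} (hs : DefF N s) : DefF M s := by
  obtain ⟨S, h1, h2, h3, h4, h5⟩ := h.decide hs
  have := h.po.defV
  have := h.po.defLe
  obtain ⟨q, hq, k⟩ := h.meets
    (R := fun q => ∀ i, (∃ b, S i b q) ∨ ∀ r b, V r → Le r q → ¬ S i b r)
    (by simp only [all_eq, imp_eq]; fun_prop) fun p hp => hd p hp _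
      (by simp only [all_eq, imp_eq]; fun_prop) (fun i q hq => by
        by_cases k : ∀ r b, V r → Le r q → ¬ S i b r
        · exact ⟨q, hq, h.po.refl q, Or.inr k⟩
        · push Not at k
          obtain ⟨r, b, k1, k2, k3⟩ := k
          exact ⟨r, k1, k2, Or.inl ⟨b, k3⟩⟩)
      fun i q q' k1 k2 k3 => k3.imp (fun ⟨b, k⟩ => ⟨b, h2 _ _ _ _ k k1 k2⟩)
        fun k r b k4 k5 => k r b k4 (h.po.trans _ _ _ k5 k2)
  refine DefF.of_rel (fun i b => S i b q) (by fun_prop) fun i b => ?_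
  obtain ⟨p, k1, k2⟩ := h5 i
  obtain ⟨r, k3, k4, k5⟩ := h.dir p q k1 hq
  have k6 := h2 _ _ _ _ k2 (h.valid r k3) k4
  have k7 : ∀ b, S i b q → s i = b := fun b hb => h3 _ _ _ _ k6 (h2 _ _ _ _ hb (h.valid r k3) k5)
  obtain ⟨b', k8⟩ := (k i).resolve_right fun k8 => k8 r _ (h.valid r k3) k5 k6
  exact ⟨fun e => e ▸ (k7 b' k8).symm ▸ k8, k7 b⟩

section
variable {K I Y : Type} [Coded M K] [Coded M I] [Coded M Y] [LinearOrder K]

/-- The order of the book-keeping forcing. -/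
def BLe (q p : K × DFun M (K × I) Y) : Prop :=
  p.1 ≤ q.1 ∧ ∀ z : K × I, z.1 < p.1 → q.2.app z = p.2.app z

theorem po_bLe [WO M K] : Po M (fun _ => True) (BLe : K × DFun M (K × I) Y → _ → Prop) :=
  ⟨by fun_prop, by simp only [BLe, all_eq, imp_eq]; fun_prop, fun _ => ⟨le_rfl, fun _ _ => rfl⟩,
    fun _ _ _ h k => ⟨k.1.trans h.1, fun z hz => (h.2 z (hz.trans_le k.1)).trans (k.2 z hz)⟩⟩

theorem bLe_bound {L : Type} [Coded M L] [LinearOrder L] [hK : Succ M L K] {T : L → Prop}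
    (hT : DefF M T) {c : L → K × DFun M (K × I) Y} (hc : DefF M c) (p : K × DFun M (K × I) Y)
    (h1 : ∀ i, T i → BLe (c i) p) (h2 : ∀ i j, T j → i < j → BLe (c j) (c i)) :
    ∃ q, BLe q p ∧ ∀ i, T i → BLe q (c i) := by
  have := p.2.def_app
  obtain ⟨b, hb⟩ := hK.bdd (fun i => (c i).1) (by fun_prop)
  obtain ⟨g, hg, H⟩ := choice (N := M) (R := fun (z : K × I) (y : Y) =>
      (z.1 < p.1 → y = p.2.app z) ∧ ∀ i, T i → z.1 < (c i).1 → y = (c i).2.app z)
    (by simp only [all_eq, imp_eq]; fun_prop) fun z => by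
      by_cases k : ∃ i, T i ∧ z.1 < (c i).1
      · obtain ⟨i, k1, k2⟩ := k
        refine ⟨(c i).2.app z, (h1 i k1).2 z, fun j k3 k4 => ?_⟩
        rcases lt_trichotomy i j with k | rfl | k
        exacts [((h2 i j k3 k).2 z k2).symm, rfl, (h2 j i k1 k).2 z k4]
      · exact ⟨_, fun _ => rfl, fun i k1 k2 => (k ⟨i, k1, k2⟩).elim⟩
  exact ⟨(max b p.1, ⟨g, hg⟩), ⟨le_max_right _ _, fun z => (H z).1⟩, fun i hi =>
    ⟨(hb i).le.trans (le_max_left _ _), fun z => (H z).2 i hi⟩⟩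

theorem bLe_dist {L : Type} [Coded M L] [LinearOrder L] [WO M L] [Succ M L K]
    (p : K × DFun M (K × I) Y) {D : L → K × DFun M (K × I) Y → Prop}
    (hD : DefF M (fun z : L × (K × DFun M (K × I) Y) => D z.1 z.2))
    (h1 : ∀ i q, ∃ q', BLe q' q ∧ D i q') (h2 : ∀ i q q', BLe q' q → D i q → D i q') :
    ∃ q, BLe q p ∧ ∀ i, D i q := by
  have po := po_bLe (M := M) (K := K) (I := I) (Y := Y)
  have := po.defLe
  have : Nonempty (K × DFun M (K × I) Y) := ⟨p⟩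
  obtain ⟨c, hc, H⟩ := tdc (N := M) (K := L) (Y := K × DFun M (K × I) Y)
    (R := fun i g y => BLe y p ∧ D i y ∧ ∀ j, j < i → BLe y (g j))
    (by simp only [all_eq, imp_eq]; fun_prop)
    (fun i g g' y h k => ⟨k.1, k.2.1, fun j hj => h j hj ▸ k.2.2 j hj⟩) fun i g hg k => by
      obtain ⟨q, k1, k2⟩ := bLe_bound (T := fun j => j < i) (by fun_prop) hg p
        (fun j hj => (k j hj).1) fun j j' hj => (k j' hj).2.2 j
      obtain ⟨r, k3, k4⟩ := h1 i q
      exact ⟨r, po.trans _ _ _ k3 k1, k4, fun j hj => po.trans _ _ _ k3 (k2 j hj)⟩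
  obtain ⟨q, k1, k2⟩ := bLe_bound (T := fun _ => True) (by fun_prop) hc p (fun i _ => (H i).1)
    fun i j _ => (H j).2.2 i
  exact ⟨q, k1, fun i => h2 _ _ _ (k2 i trivial) (H i).2.1⟩

end

/-- Every function of `M` from `I` to `Y` occurs cofinally often. -/
def Book (M : Set ZFSet.{0}) [ZFC M] {K I Y : Type} [Coded M K] [Coded M I] [Coded M Y]
    [LinearOrder K] (e : K → I → Y) : Prop :=
  DefF M (fun z : K × I => e z.1 z.2) ∧ ∀ f : I → Y, DefF M f → ∀ γ, ∃ β, γ ≤ β ∧ e β = f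

theorem Gen.book {K : Type} [Coded M K] [Coded N K] [Same M N K] [LinearOrder K] [LinearOrder L]
    [WO M L] [hK : Succ M L K] (hA : Sm M L (fun _ : A => True)) {G : K × DFun M (K × A) B → Prop}
    (h : Gen M N (fun _ => True) BLe G) : Cover M N L ∧ ∃ e : K → A → B, Book N e := by
  have h1 : ∀ (B : Type) [Coded M B] [Coded N B] [Same M N B] (s : L → B), DefF N s → DefF M s :=
    fun B _ _ _ s => h.no_new fun p _ D hD h1 h2 => (bLe_dist p hD
      (fun i q => (h1 i q trivial).imp fun _ k => k.2) fun i q q' => h2 i q q' trivial).imp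
        fun _ k => ⟨trivial, k⟩
  refine ⟨fun B _ _ _ s hs => ⟨fun a b => b = s a, by have := h1 B s hs; fun_prop,
    fun a => ⟨ctble_single _, rfl⟩⟩, ?_⟩
  obtain ⟨e, he, H⟩ := choice (N := N) (R := fun (z : K × A) (y : B) =>
      ∃ p, G p ∧ z.1 < p.1 ∧ p.2.app z = y)
    (h.eval (A := (K × A) × B) (R := fun z p => z.1.1 < p.1 ∧ p.2.app z.1 = z.2) (by fun_prop))
    fun z => by
      obtain ⟨p, k1, k2⟩ := h.meets (R := fun p => z.1 < p.1) (by fun_prop) fun q _ => by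
        obtain ⟨b, hb⟩ := hK.exists_gt z.1
        exact ⟨(max b q.1, q.2), trivial, ⟨le_max_right _ _, fun _ _ => rfl⟩,
          hb.trans_le (le_max_left _ _)⟩
      exact ⟨_, p, k1, k2, rfl⟩
  refine ⟨fun β i => e (β, i), he, fun f hf γ => ?_⟩
  obtain ⟨g, hg, Hg⟩ := hA
  obtain ⟨j, hj, Hj⟩ := choice (N := M) (R := fun (a : A) (i : L) => g i = a) (by fun_prop)
    fun a => Hg a trivial
  have h2 : DefF M f := ((h1 B _ (hf.comp (DefF.up h.sub hg))).comp hj).congr fun a => by rw [Hj]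
  obtain ⟨p, k1, β, k2, k3, k4⟩ := h.meets
    (R := fun p => ∃ β, γ ≤ β ∧ β < p.1 ∧ ∀ i, p.2.app (β, i) = f i)
    (by simp only [all_eq]; fun_prop) fun q _ => by
      obtain ⟨b, hb⟩ := hK.exists_gt (max γ q.1)
      have := q.2.def_app
      classical
      exact ⟨(b, ⟨fun z => if z.1 = max γ q.1 then f z.2 else q.2.app z, by fun_prop⟩), trivial,
        ⟨((le_max_right _ _).trans_lt hb).le, fun z hz =>
          if_neg (hz.trans_le (le_max_right _ _)).ne⟩, _, le_max_left _ _, hb, fun i => if_pos rfl⟩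
  refine ⟨β, k2, funext fun i => ?_⟩
  obtain ⟨q, k5, k6, k7⟩ := H (β, i)
  obtain ⟨r, -, k8, k9⟩ := h.dir p q k1 k5
  exact k7.symm.trans ((k9.2 _ k6).symm.trans ((k8.2 _ k3).trans (k4 i)))

end Pool.Agent.P.MP_5a7d1f_lc.Gro
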