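import Pool.Agent.P.MP_5a7d1f_lc.Gro.Step

/-!
From the Grothendieck property to its combinatorial form.
-/

set_option synthInstance.maxSize 16384
set_option linter.unusedSectionVars false

namespace Pool.Agent.P.MP_5a7d1f_lc.Gro

open ZFSet Filter Topology Pool.Agent.Lib.Forcing Pool.Agent.Lib.Typed Pool.Agent.P.MP_af0a18_lc

variable {N : Set ZFSet.{0}} [ZFC N]
variable {X Y W : Type} [Coded N X] [Coded N Y] [Coded N W]

/-- Product of two codes. -/
def rmul (u v : Q3) : Q3 := (u.1 * v.1 + u.2.1 * v.2.1, u.1 * v.2.1 + u.2.1 * v.1,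
  u.2.2 * v.2.2 + u.2.2 + v.2.2)

theorem rq_rmul (u v : Q3) : rq (rmul u v) = rq u * rq v := by
  unfold rq rmul
  have : ((u.2.2 * v.2.2 + u.2.2 + v.2.2 : ℕ) : ℝ) + 1 = (u.2.2 + 1) * (v.2.2 + 1) := by
    push_cast; ring
  rw [this]
  push_cast
  field_simp
  ring

theorem lt_mul_of_corners {u x a b y : ℝ} (h1 : a < x) (h2 : x < b) (h3 : u < a * y)
    (h4 : u < b * y) : u < x * y := by
  rcases le_total 0 y with h | h <;> nlinarith

@[fun_prop] theorem RealFn.mul {f g : W → ℝ} (hf : RealFn N f) (hg : RealFn N g) :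
    RealFn N (fun w => f w * g w) := by
  have h1 : DefF N (fun z : Q3 × Q3 => rmul z.1 z.2) := by unfold rmul; fun_prop
  have h2 : DefF N (fun z : W × Q3 => ∃ a b c d : Q3, Gro.rq a < f z.1 ∧ f z.1 < Gro.rq b ∧
      Gro.rq c < g z.1 ∧ g z.1 < Gro.rq d ∧ Gro.rq z.2 < Gro.rq (rmul a c) ∧
      Gro.rq z.2 < Gro.rq (rmul a d) ∧ Gro.rq z.2 < Gro.rq (rmul b c) ∧
      Gro.rq z.2 < Gro.rq (rmul b d)) := by fun_prop
  refine h2.congr_iff fun z => ?_
  simp only [rq_rmul]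
  refine ⟨fun ⟨a, b, c, d, h1, h2, h3, h4, h5, h6, h7, h8⟩ => lt_mul_of_corners h1 h2 ?_ ?_,
    fun h => ?_⟩
  · rw [mul_comm] at h5 h6 ⊢
    exact lt_mul_of_corners h3 h4 h5 h6
  · rw [mul_comm] at h7 h8 ⊢
    exact lt_mul_of_corners h3 h4 h7 h8
  · have h3 : ∀ᶠ p in 𝓝 (f z.1, g z.1), Gro.rq z.2 < p.1 * p.2 :=
      (continuous_mul.tendsto (f z.1, g z.1)).eventually (lt_mem_nhds h)
    obtain ⟨ε, h4, h5⟩ := Metric.eventually_nhds_iff.1 h3
    obtain ⟨a, a1, a2⟩ := exists_rq (sub_lt_self (f z.1) h4)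
    obtain ⟨b, b1, b2⟩ := exists_rq (lt_add_of_pos_right (f z.1) h4)
    obtain ⟨c, c1, c2⟩ := exists_rq (sub_lt_self (g z.1) h4)
    obtain ⟨d, d1, d2⟩ := exists_rq (lt_add_of_pos_right (g z.1) h4)
    have h6 : ∀ s t : ℝ, f z.1 - ε < s → s < f z.1 + ε → g z.1 - ε < t → t < g z.1 + ε →
        Gro.rq z.2 < s * t := fun s t k1 k2 k3 k4 => h5 (y := (s, t)) (by
      simp only [Prod.dist_eq, Real.dist_eq, max_lt_iff, abs_lt]
      refine ⟨⟨?_, ?_⟩, ?_, ?_⟩ <;> linarith)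
    refine ⟨a, b, c, d, a2, b1, c2, d1, ?_, ?_, ?_, ?_⟩ <;> apply h6 <;> linarith

section
variable {P : (X → ℝ) → Prop}

/-- A member of `Fns` as a real function of `N`. -/
def Fns.toR (f : Fns N (cd N) P) : RFun N X := ⟨f.1, realCode_mem_iff.1 f.2.1⟩

theorem Fns.toR_inj : Function.Injective (Fns.toR : Fns N (cd N) P → _) := fun _ _ h =>
  Subtype.ext (congrArg RFun.app h)

/-- A definable class of real functions is coded. -/
@[reducible] noncomputable def codeFns (h : DefF N (fun f : RFun N X => P f.app)) :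
    Coded N (Fns N (cd N) P) :=
  ofCode Fns.toR Fns.toR_inj (h.congr_iff fun f =>
    ⟨fun k => ⟨⟨f.app, realCode_mem_iff.2 f.def_app, k⟩, rfl⟩, by
      rintro ⟨g, rfl⟩
      exact g.2.2⟩) fnCode fun f => (cd_dset_eq f.toR.cuts).symm

variable [Coded N (Fns N (cd N) P)]

theorem Fns.def_toR (h : ∀ f : Fns N (cd N) P, cd N f = fnCode f) :
    DefF N (Fns.toR : Fns N (cd N) P → _) :=
  defF_of_cd_eq fun f => (cd_dset_eq f.toR.cuts).trans (h f).symm

theorem Fns.exists_toR (h : ∀ f : Fns N (cd N) P, cd N f = fnCode f) :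
    ∃ T : Fns N (cd N) P → RFun N X, DefF N T ∧ ∀ f, f.1 = (T f).app :=
  ⟨_, Fns.def_toR h, fun _ => rfl⟩

theorem defF_isFunctional [Nonempty X] (h : ∀ f : Fns N (cd N) P, cd N f = fnCode f) :
    DefF N (fun φ : RFun N (Fns N (cd N) P) => IsFunctional (fun _ => True) φ.app) := by
  obtain ⟨T, h1, hT⟩ := Fns.exists_toR h
  refine (by simp only [hT, all_eq, imp_eq]; fun_prop : DefF N (fun φ : RFun N (Fns N (cd N) P) =>
    (∀ f g k : Fns N (cd N) P, (∀ x, k.1 x = f.1 x + g.1 x) → φ.app k = φ.app f + φ.app g) ∧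
    ((∀ (f g : Fns N (cd N) P) x, (∀ y, g.1 y * f.1 x = g.1 x * f.1 y) →
      ¬ f.1 x = 0 → φ.app g * f.1 x = g.1 x * φ.app f) ∧
      ∀ f : Fns N (cd N) P, (∀ y, f.1 y = 0) → φ.app f = 0) ∧
    ∃ M : ℕ, ∀ (f : Fns N (cd N) P) (u : Q3), (∀ x, |f.1 x| ≤ rq u) →
      |φ.app f| ≤ M * rq u)).congr_iff fun φ => ?_
  refine and_congr (forall₃_congr fun f g k => imp_congr_left funext_iff.symm)
    (and_congr ⟨fun ⟨h2, h3⟩ t f g e => ?_, fun h2 => ⟨fun f g x h3 h4 => ?_, fun f h3 => ?_⟩⟩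
      ⟨fun ⟨M, h2⟩ => ⟨M, fun f r h3 => ?_⟩, fun ⟨M, h2⟩ => ⟨⌈M⌉₊, fun f u h3 => ?_⟩⟩)
  · have e' : ∀ x, g.1 x = t * f.1 x := congrFun e
    by_cases k : ∀ y, f.1 y = 0
    · rw [h3 f k, h3 g fun y => by rw [e', k, mul_zero], mul_zero]
    · obtain ⟨x, k⟩ := not_forall.1 k
      refine mul_right_cancel₀ k ((h2 f g x (fun y => by rw [e', e']; ring) k).trans ?_)
      rw [e']
      ring
  · rw [h2 (g.1 x / f.1 x) f g (funext fun y => ?_)]
    · field_simp
    · change g.1 y = g.1 x / f.1 x * f.1 y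
      field_simp
      exact h3 y
  · simpa using h2 0 f f (funext fun y => by simpa using h3 y)
  · refine le_of_forall_pos_le_add fun ε hε => ?_
    obtain ⟨u, u1, u2⟩ := exists_rq (lt_add_of_pos_right r (by positivity : 0 < ε / (M + 1)))
    refine (h2 f u fun x => (h3 x trivial).trans u1.le).trans ?_
    have h4 : (M : ℝ) * (ε / (M + 1)) ≤ ε := by
      rw [← mul_div_assoc, div_le_iff₀ (by positivity)]
      nlinarith
    nlinarith [Nat.cast_nonneg (α := ℝ) M]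
  · exact (h2 f _ fun x _ => h3 x).trans (mul_le_mul_of_nonneg_right (Nat.le_ceil M)
      ((abs_nonneg _).trans (h3 (Classical.arbitrary X))))

end

variable {A : Type} [Coded N A] [BooleanAlgebra A] [hA : BA N A]

theorem Pt.isOpen (a : A) : IsOpen {x : Pt N A | x.has a} :=
  TopologicalSpace.isOpen_generateFrom_of_mem ⟨a, rfl⟩

theorem Pt.exists_basic {U : Set (Pt N A)} (h : IsOpen U) :
    ∀ x ∈ U, ∃ a, x.has a ∧ ∀ y : Pt N A, y.has a → y ∈ U := by
  induction h with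
  | basic s hs =>
    obtain ⟨a, rfl⟩ := hs
    exact fun x hx => ⟨a, hx, fun _ h => h⟩
  | univ => exact fun x _ => ⟨⊤, x.has_top, fun _ _ => trivial⟩
  | inter s t _ _ h1 h2 =>
    intro x hx
    obtain ⟨a, a1, a2⟩ := h1 x hx.1
    obtain ⟨b, b1, b2⟩ := h2 x hx.2
    exact ⟨a ⊓ b, Pt.has_inf.2 ⟨a1, b1⟩, fun y hy =>
      ⟨a2 y (Pt.has_inf.1 hy).1, b2 y (Pt.has_inf.1 hy).2⟩⟩
  | sUnion S _ ih =>
    rintro x ⟨s, h1, h2⟩
    exact (ih s h1 x h2).imp fun a h => ⟨h.1, fun y hy => ⟨s, h1, h.2 y hy⟩⟩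

theorem Pt.continuous_iff {f : Pt N A → ℝ} : Continuous f ↔
    ∀ (x : Pt N A) n, ∃ a, x.has a ∧ ∀ y : Pt N A, y.has a → |f y - f x| < ep n := by
  refine ⟨fun h x n => Pt.exists_basic (U := f ⁻¹' Metric.ball (f x) (ep n))
    (Metric.isOpen_ball.preimage h) x (Metric.mem_ball_self (ep_pos n)), fun h => ?_⟩
  refine continuous_iff_continuousAt.2 fun x => Metric.tendsto_nhds.2 fun ε hε => ?_
  obtain ⟨n, hn⟩ := exists_ep hε
  obtain ⟨a, h1, h2⟩ := h x n
  exact mem_of_superset ((Pt.isOpen a).mem_nhds h1) fun y hy => (h2 y hy).trans hn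

/-- The continuous functions. -/
abbrev CKt (N : Set ZFSet.{0}) [ZFC N] (A : Type) [Coded N A] [BooleanAlgebra A] [BA N A] : Type :=
  Fns N (cd N : Pt N A → _) Continuous

noncomputable instance : Coded N (CKt N A) :=
  codeFns (by simp only [Pt.continuous_iff, all_eq, imp_eq]; fun_prop)

/-- The bounded functionals. -/
abbrev Dt (N : Set ZFSet.{0}) [ZFC N] (A : Type) [Coded N A] [BooleanAlgebra A] [BA N A] : Type :=
  Fns N (cd N : CKt N A → _) (IsFunctional fun _ => True)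

noncomputable instance [Nonempty (Pt N A)] : Coded N (Dt N A) :=
  codeFns (defF_isFunctional fun _ => rfl)

/-- The indicator function of a clopen set. -/
noncomputable def indC (a : A) : CKt N A :=
  ⟨fun x => ind (x.has a), realCode_mem_iff.2 (by fun_prop), Pt.continuous_iff.2 fun x n => by
    by_cases h : x.has a
    · exact ⟨a, h, fun y hy => by simpa [ind, h, hy] using ep_pos n⟩
    · exact ⟨aᶜ, Pt.has_compl.2 h, fun y hy => by
        simpa [ind, h, Pt.has_compl.1 hy] using ep_pos n⟩⟩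

theorem defF_indC : DefF N (indC : A → CKt N A) :=
  DefF.of_inj Fns.toR_inj (Fns.def_toR fun _ => rfl) (DefF.of_rapp
    (by fun_prop : RealFn N fun z : A × Pt N A => ind (z.2.has z.1)))

theorem exists_trace (B : Pt N A → Prop) (m : List (Pt N A)) : ∃ a, ∀ x ∈ m, x.has a ↔ B x := by
  have h1 : ∀ (x : Pt N A) (m : List (Pt N A)), x ∉ m → ∃ a, x.has a ∧ ∀ y ∈ m, ¬ y.has a := by
    intro x m
    induction m with
    | nil => exact fun _ => ⟨⊤, x.has_top, by simp⟩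
    | cons y m ih =>
      intro h
      obtain ⟨a, a1, a2⟩ := ih fun k => h (List.mem_cons_of_mem _ k)
      obtain ⟨b, b1, b2⟩ := Pt.exists_sep (List.ne_of_not_mem_cons h)
      exact ⟨a ⊓ b, Pt.has_inf.2 ⟨a1, b1⟩, List.forall_mem_cons.2
        ⟨fun k => b2 (Pt.has_inf.1 k).2, fun z hz k => a2 z hz (Pt.has_inf.1 k).1⟩⟩
  induction m with
  | nil => exact ⟨⊤, by simp⟩
  | cons x m ih =>
    obtain ⟨a, ha⟩ := ih
    by_cases h : x ∈ m
    · exact ⟨a, List.forall_mem_cons.2 ⟨ha x h, ha⟩⟩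
    · obtain ⟨b, b1, b2⟩ := h1 x m h
      by_cases k : B x
      · exact ⟨a ⊔ b, List.forall_mem_cons.2 ⟨by simp [Pt.has_sup, b1, k], fun y hy => by
          simp [Pt.has_sup, b2 y hy, ha y hy]⟩⟩
      · exact ⟨a ⊓ bᶜ, List.forall_mem_cons.2 ⟨by simp [Pt.has_inf, Pt.has_compl, b1, k],
          fun y hy => by simp [Pt.has_inf, Pt.has_compl, b2 y hy, ha y hy]⟩⟩

theorem weak_null [Enum N] {l l' : ℕ → List (Pt N A)}
    (h : ∀ a, Tendsto (fun k => av (l k) (fun x => ind (x.has a)) -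
      av (l' k) (fun x => ind (x.has a))) atTop (𝓝 0)) {f : Pt N A → ℝ} (hf : RealFn N f)
    (hc : Continuous f) : Tendsto (fun k => av (l k) f - av (l' k) f) atTop (𝓝 0) := by
  let S : (Pt N A → ℝ) → Prop := fun g => ∀ b, Tendsto (fun k =>
    av (l k) (fun x => g x * ind (x.has b)) - av (l' k) (fun x => g x * ind (x.has b))) atTop (𝓝 0)
  have h1 : ∀ t : ℝ, S fun _ => t := fun t b => by
    simpa only [av_mul, ← mul_sub, mul_zero] using (h b).const_mul t
  have h2 : ∀ g g' a, S g → S g' → S fun x => g x * ind (x.has a) + g' x * ind (x.has aᶜ) := by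
    intro g g' a k k' b
    have e : ∀ (a : A) (x : Pt N A), ind (x.has a) * ind (x.has b) = ind (x.has (a ⊓ b)) :=
      fun a x => by by_cases k1 : x.has a <;> by_cases k2 : x.has b <;> simp [ind, Pt.has_inf, *]
    simpa only [add_mul, mul_assoc, e, av_add, add_zero, add_sub_add_comm]
      using (k (a ⊓ b)).add (k' (aᶜ ⊓ b))
  refine Metric.tendsto_nhds.2 fun ε hε => ?_
  obtain ⟨n, hn⟩ := exists_ep (by positivity : 0 < ε / 6)
  obtain ⟨m, m1, m2⟩ : ∃ m : List A, (∀ a ∈ m, ∃ x, ∀ y : Pt N A, y.has aᶜ → |f y - f x| < ep n) ∧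
      lmeet m = ⊥ := by
    by_contra k
    obtain ⟨x, hx⟩ := exists_pt (N := N) (F := fun a : A => ∃ x, ∀ y : Pt N A, y.has aᶜ →
      |f y - f x| < ep n) (by simp only [all_eq, imp_eq]; fun_prop) fun m hm e => k ⟨m, hm, e⟩
    obtain ⟨a, a1, a2⟩ := Pt.continuous_iff.1 hc x n
    exact Pt.has_compl.1 (hx aᶜ ⟨x, by simpa using a2⟩) a1
  obtain ⟨g, g1, g2⟩ : ∃ g, S g ∧ ∀ x : Pt N A, ¬ x.has (lmeet m) → |f x - g x| ≤ ep n := by
    clear m2
    induction m with
    | nil => exact ⟨_, h1 0, fun x hx => (hx x.has_top).elim⟩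
    | cons a m ih =>
      obtain ⟨g, g1, g2⟩ := ih fun b hb => m1 b (List.mem_cons_of_mem _ hb)
      obtain ⟨x0, h0⟩ := m1 a List.mem_cons_self
      refine ⟨_, h2 _ _ a g1 (h1 (f x0)), fun x hx => ?_⟩
      by_cases k : x.has a
      · simpa [ind, k, Pt.has_compl] using g2 x fun k' => hx (Pt.has_inf.2 ⟨k, k'⟩)
      · simpa [ind, k, Pt.has_compl] using (h0 x (Pt.has_compl.2 k)).le
  have h3 : ∀ l : List (Pt N A), |av l f - av l fun x => g x * ind (x.has ⊤)| ≤ ep n := fun l => by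
    have e : av l f = av l (fun x => f x - g x) + av l fun x => g x * ind (x.has ⊤) := by
      rw [← av_add]
      exact av_congr fun x _ => by simp [ind, x.has_top]
    rw [e, add_sub_cancel_right]
    exact abs_av_le (ep_pos n).le fun x _ => g2 x (m2 ▸ x.not_has_bot)
  refine (Metric.tendsto_nhds.1 (g1 ⊤) (ε / 3) (by positivity)).mono fun k hk => ?_
  have k1 := abs_le.1 (h3 (l k))
  have k2 := abs_le.1 (h3 (l' k))
  rw [Real.dist_eq, sub_zero, abs_lt] at hk ⊢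
  constructor <;> linarith [hk.1, hk.2, k1.1, k1.2, k2.1, k2.2]

theorem GrothendieckIn.gstar [Enum N] [Nonempty (Pt N A)]
    (h : GrothendieckIn N (cd N : A → ZFSet.{0})) : GStar N A := by
  intro l l' hl hl' H B hB
  have h' : ∀ φ : ℕ → Dt N A, funCode (cd N) (cd N) φ ∈ N → ∀ ψ : Dt N A,
      (∀ f : CKt N A, Tendsto (fun n => (φ n).1 f) atTop (𝓝 (ψ.1 f))) →
      ∀ Φ : Fns N (cd N : Dt N A → _) (IsFunctional fun f : CKt N A => ∀ x, |f.1 x| ≤ 1),
        Tendsto (fun n => Φ.1 (φ n)) atTop (𝓝 (Φ.1 ψ)) := h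
  obtain ⟨T, h1, hT⟩ := Fns.exists_toR (N := N) (X := Pt N A) (P := Continuous) fun _ => rfl
  have h2 : DefF N (Fns.toR : Dt N A → _) := Fns.def_toR fun _ => rfl
  have h3 : RealFn N (fun z : ℕ × CKt N A => av (l z.1) z.2.1 - av (l' z.1) z.2.1) := by
    simp only [hT]
    fun_prop
  let φ : ℕ → Dt N A := fun k => ⟨fun f => av (l k) f.1 - av (l' k) f.1,
    realCode_mem_iff.2 (h3.comp (f := fun f => (k, f)) (by fun_prop)), fun f g s e => by
      beta_reduce
      rw [e, ← add_sub_add_comm, ← av_add, ← av_add]; rfl, fun t f g e => by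
      beta_reduce
      rw [e, mul_sub, ← av_mul, ← av_mul]; rfl, 2, fun f r hr => by
      have k0 : 0 ≤ r := (abs_nonneg _).trans (hr (Classical.arbitrary _) trivial)
      have k1 := abs_av_le (l := l k) k0 fun x _ => hr x trivial
      have k2 := abs_av_le (l := l' k) k0 fun x _ => hr x trivial
      exact (abs_sub _ _).trans (by linarith)⟩
  have h4 : DefF N φ := DefF.of_inj Fns.toR_inj h2 (DefF.of_rapp h3)
  obtain ⟨a, ha, Ha⟩ := choice (N := N) (R := fun (j : ℕ) (a : A) => ∀ k x, k < j →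
      x ∈ l k ∨ x ∈ l' k → (x.has a ↔ B x)) (by simp only [all_eq, imp_eq]; fun_prop) fun j =>
    (exists_trace B ((List.range j).flatMap fun k => l k ++ l' k)).imp fun a h k x h1 h2 =>
      h x (List.mem_flatMap.2 ⟨k, List.mem_range.2 h1, List.mem_append.2 h2⟩)
  obtain ⟨U, hU⟩ := exists_ultraIn N
  have h5 : ∀ (b : A) x, |(indC b : CKt N A).1 x| ≤ 1 := fun b x => abs_ind_le _
  have h6 : ∀ ψ : Dt N A, ∃ r, Tendsto (fun j => ψ.1 (indC (a j))) U (𝓝 r) := fun ψ =>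
    ψ.2.2.2.2.elim fun M hM => exists_ulim U fun j => hM _ 1 fun x _ => h5 _ x
  choose Φ hΦ using h6
  have h7 := defF_indC (N := N) (A := A)
  have h8 : RealFn N Φ := hU.realFn (s := fun ψ j => ψ.1 (indC (a j)))
    (RealFn.app (h2.comp DefF.fst) (h7.comp (ha.comp DefF.snd))) hΦ
  let ψ : Dt N A := ⟨fun _ => 0, realCode_mem_iff.2 RealFn.zero, by simp, by simp, 0, by simp⟩
  have h9 : Tendsto (fun k => Φ (φ k)) atTop (𝓝 (Φ ψ)) := h' φ (funCode_mem_iff.2 h4) ψ
    (fun f => weak_null H (realCode_mem_iff.1 f.2.1) f.2.2) ⟨Φ, realCode_mem_iff.2 h8,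
      fun f g s e => tendsto_nhds_unique (hΦ s) (by rw [e]; exact (hΦ f).add (hΦ g)),
      fun t f g e => tendsto_nhds_unique (hΦ g) (by rw [e]; exact (hΦ f).const_mul t),
      1, fun f r hr => by
        rw [one_mul]
        exact le_of_tendsto' (hΦ f).abs fun j => hr _ (h5 _)⟩
  have h10 : Φ ψ = 0 := tendsto_nhds_unique (hΦ ψ) tendsto_const_nhds
  refine (h10 ▸ h9).congr fun k => tendsto_nhds_unique (hΦ _) (tendsto_const_nhds.congr' ?_)
  refine ((eventually_gt_atTop k).filter_mono hU.le).mono fun j hj => ?_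
  exact congrArg₂ (· - ·) (av_congr fun x hx => congrArg ind (propext (Ha j k x hj (Or.inl hx)).symm))
    (av_congr fun x hx => congrArg ind (propext (Ha j k x hj (Or.inr hx)).symm))

omit [Coded N A] hA in
/-- The theorem inside `N`. -/
theorem Scale.main [Enum N] {K : Type} [Coded N K] [LinearOrder K] [WO N K] {nu : ℕ → K} {lam : K}
    (sc : Scale N nu lam) (ma : MAT N (Lv lam)) (hc : Sm N K (fun _ : DSet N ℕ => True))
    [Infinite A] (c : A → ZFSet.{0}) (h1 : IsAlgebraIn N c) (h2 : GrothendieckIn N c) :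
    ContainsBetaIn N c := by
  let _ : Coded N A := ⟨c, h1.inj, by
    convert h1.carrier using 1
    ext z
    simp [mem_setCode, mem_range]⟩
  have : BA N A := ⟨(funCode_mem_iff (X := A × A)).1 h1.inf, funCode_mem_iff.1 h1.compl⟩
  obtain ⟨x, -⟩ := exists_points (N := N) (A := A)
  have : Nonempty (Pt N A) := ⟨x 0⟩
  exact sc.containsBeta ma hc (GrothendieckIn.gstar h2)

end Pool.Agent.P.MP_5a7d1f_lc.Gro
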