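import Pool.Agent.P.MP_5a7d1f_lc.Gro.Ccc

/-!
A finite support iteration of ccc forcing, inside a model `M`.
-/

set_option synthInstance.maxSize 16384
set_option linter.unusedSectionVars false

namespace Pool.Agent.P.MP_5a7d1f_lc.Gro

open Pool.Agent.Lib.Typed

/-- Conditions are finite lists of pairs. -/
abbrev Cond (K L : Type) : Type := List (K × L)

variable {K L : Type}

/-- The list is a function. -/
def Fu (p : Cond K L) : Prop := ∀ z ∈ p, ∀ z' ∈ p, z.1 = z'.1 → z.2 = z'.2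

/-- The order on the coordinates in `J`, given the forcing relation `d` for the iterands. -/
def LeJ (d : K → L → L → Cond K L → Prop) (J : K → Prop) (q p : Cond K L) : Prop :=
  ∀ z ∈ p, J z.1 → ∃ ξ, (z.1, ξ) ∈ q ∧ d z.1 ξ z.2 q

/-- `q` forces the pair `(η, ξ)` into the relation with name `n`. -/
def Sf (n : L × L × ℕ → List (Cond K L)) (le : Cond K L → Cond K L → Prop) (η ξ : L)
    (q : Cond K L) : Prop :=
  ∀ r, Fu r → le r q → ∃ s, Fu s ∧ le s r ∧ ∃ k, ∃ x ∈ n (η, ξ, k), le s x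

/-- `r` forces that the relation is a preorder. -/
def Pre (n : L × L × ℕ → List (Cond K L)) (le : Cond K L → Cond K L → Prop) (r : Cond K L) :
    Prop :=
  (∀ ξ, Sf n le ξ ξ r) ∧ ∀ s a b c, Fu s → le s r → Sf n le a b s → Sf n le b c s → Sf n le a c s

variable {M : Set ZFSet.{0}} [ZFC M] {W X Y : Type} [Coded M W] [Coded M X] [Coded M Y]
  [Coded M K] [Coded M L]

/-- The two step iteration below `r` is ccc. -/
def Two (M : Set ZFSet.{0}) [ZFC M] [Coded M K] [Coded M L] (n : L × L × ℕ → List (Cond K L))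
    (le : Cond K L → Cond K L → Prop) (r : Cond K L) : Prop :=
  Ccc M (fun z : Cond K L × L => Fu z.1 ∧ le z.1 r) fun z' z => le z'.1 z.1 ∧ Sf n le z'.2 z.2 z'.1

/-- `q` forces: if the relation is a ccc preorder then it contains `(η, ξ)`. -/
def Lf (M : Set ZFSet.{0}) [ZFC M] [Coded M K] [Coded M L] (n : L × L × ℕ → List (Cond K L))
    (le : Cond K L → Cond K L → Prop) (η ξ : L) (q : Cond K L) : Prop :=
  ∀ r, Fu r → le r q → Pre n le r ∧ Two M n le r → Sf n le η ξ r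

@[fun_prop] theorem DefF.fu {p : W → Cond K L} (hp : DefF M p) : DefF M (fun w => Fu (p w)) := by
  simp only [Fu, all_eq, imp_eq]
  fun_prop

@[fun_prop] theorem DefF.leJ {d : W → K → L → L → Cond K L → Prop} {J : W → K → Prop}
    {q p : W → Cond K L}
    (hd : DefF M (fun z : W × K × L × L × Cond K L => d z.1 z.2.1 z.2.2.1 z.2.2.2.1 z.2.2.2.2))
    (hJ : DefF M (fun z : W × K => J z.1 z.2)) (hq : DefF M q) (hp : DefF M p) :
    DefF M (fun w => LeJ (d w) (J w) (q w) (p w)) := by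
  simp only [LeJ, all_eq, imp_eq]
  fun_prop

section
variable {n : W → L × L × ℕ → List (Cond K L)} {le : W → Cond K L → Cond K L → Prop}
  (hn : DefF M (fun z : W × L × L × ℕ => n z.1 z.2))
  (hle : DefF M (fun z : W × Cond K L × Cond K L => le z.1 z.2.1 z.2.2))
include hn hle

@[fun_prop] theorem DefF.sf {η ξ : W → L} {q : W → Cond K L} (h1 : DefF M η) (h2 : DefF M ξ)
    (hq : DefF M q) : DefF M (fun w => Sf (n w) (le w) (η w) (ξ w) (q w)) := by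
  simp only [Sf, all_eq, imp_eq]
  fun_prop

@[fun_prop] theorem DefF.pre {q : W → Cond K L} (hq : DefF M q) :
    DefF M (fun w => Pre (n w) (le w) (q w)) := by
  simp only [Pre, all_eq, imp_eq]
  fun_prop

@[fun_prop] theorem DefF.two {q : W → Cond K L} (hq : DefF M q) :
    DefF M (fun w => Two M (n w) (le w) (q w)) := by
  simp only [Two, Ccc, Cmp, all_eq, imp_eq]
  fun_prop

@[fun_prop] theorem DefF.lf {η ξ : W → L} {q : W → Cond K L} (h1 : DefF M η) (h2 : DefF M ξ)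
    (hq : DefF M q) : DefF M (fun w => Lf M (n w) (le w) (η w) (ξ w) (q w)) := by
  simp only [Lf, all_eq, imp_eq]
  fun_prop

end

theorem Ccc.index' [Nonempty Y] {V : X → Prop} {Le : X → X → Prop} (h : Ccc M V Le) {A : Y → Prop}
    (hA : DefF M A) {f : Y → X} (hf : DefF M f) (h1 : ∀ p, A p → V (f p) ∧ Le (f p) (f p))
    (h2 : ∀ p q, A p → A q → p ≠ q → ¬ Cmp V Le (f p) (f q)) : Ctble M A := by
  refine Sm.of_inj (L := ℕ) (h.out (A := fun x => ∃ y, A y ∧ f y = x) (by fun_prop) ?_ ?_) hA hf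
    (fun p hp => ⟨p, hp, rfl⟩) fun p q hp hq e => by_contra fun k => h2 p q hp hq k
      ⟨f p, (h1 p hp).1, (h1 p hp).2, e ▸ (h1 p hp).2⟩
  · rintro _ ⟨y, hy, rfl⟩
    exact (h1 y hy).1
  · rintro _ _ ⟨y, hy, rfl⟩ ⟨y', hy', rfl⟩ k
    exact h2 y y' hy hy' fun e => k (e ▸ rfl)

theorem exists_filter {X : Type} (P : X → Prop) (l : List X) :
    ∃ l' : List X, ∀ z, z ∈ l' ↔ z ∈ l ∧ P z := by
  classical
  exact ⟨l.filter P, fun z => by simp⟩

theorem LeJ.mono {K L : Type} {d : K → L → L → Cond K L → Prop} {J J' : K → Prop}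
    {q p : Cond K L} (h : LeJ d J q p) (hJ : ∀ β, J' β → J β) : LeJ d J' q p :=
  fun z hz k => h z hz (hJ _ k)

variable [LinearOrder K]

theorem list_bound {K : Type} [LinearOrder K] {T : K → Prop} (h0 : ∃ b, T b) (l : List K) :
    ∃ b, T b ∧ ∀ a ∈ l, (∃ c, T c ∧ a < c) → a < b := by
  induction l with
  | nil => exact h0.imp fun _ h => ⟨h, by simp⟩
  | cons a l ih =>
    obtain ⟨b, h1, h2⟩ := ih
    by_cases h : ∃ c, T c ∧ a < c
    · obtain ⟨c, h3, h4⟩ := h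
      rcases le_total b c with k | k
      · exact ⟨c, h3, List.forall_mem_cons.2 ⟨fun _ => h4, fun x hx e => (h2 x hx e).trans_le k⟩⟩
      · exact ⟨b, h1, List.forall_mem_cons.2 ⟨fun _ => h4.trans_le k, h2⟩⟩
    · exact ⟨b, h1, List.forall_mem_cons.2 ⟨fun k => (h k).elim, h2⟩⟩

/-- The order of the iteration up to stage `β`. -/
abbrev Lb {K L : Type} [LinearOrder K] (d : K → L → L → Cond K L → Prop) (β : K) :
    Cond K L → Cond K L → Prop := LeJ d (fun γ => γ < β)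

/-- `d` is the forcing relation of the iteration with book-keeping function `e`. -/
structure It (M : Set ZFSet.{0}) [ZFC M] [Coded M K] [Coded M L]
    (e : K → L × L × ℕ → List (Cond K L)) (d : K → L → L → Cond K L → Prop) : Prop where
  def_e : DefF M (fun z : K × L × L × ℕ => e z.1 z.2)
  def_d : DefF M (fun z : K × L × L × Cond K L => d z.1 z.2.1 z.2.2.1 z.2.2.2)
  eq : ∀ β η ξ q, d β η ξ q ↔ Lf M (e β) (Lb d β) η ξ q

variable [hK : WO M K] {e : K → L × L × ℕ → List (Cond K L)} {d : K → L → L → Cond K L → Prop}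

theorem exists_it (he : DefF M (fun z : K × L × L × ℕ => e z.1 z.2)) : ∃ d, It M e d := by
  have : Nonempty (DSet M (L × L × Cond K L)) := ⟨⟨fun _ => True, by fun_prop⟩⟩
  obtain ⟨s, hs, H⟩ := tdc (N := M) (K := K) (Y := DSet M (L × L × Cond K L))
    (R := fun β g y => ∀ η ξ q, y.Mem (η, ξ, q) ↔
      Lf M (e β) (Lb (fun γ a b r => (g γ).Mem (a, b, r)) β) η ξ q)
    (by simp only [all_eq]; fun_prop) (fun β g g' y h k => by
      rwa [show Lb (fun γ a b r => (g' γ).Mem (a, b, r)) β =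
        Lb (fun γ a b r => (g γ).Mem (a, b, r)) β from funext₂ fun q p => propext
          (forall₃_congr fun z _ hz => by simp only [h _ hz])])
    fun β g hg _ => ⟨⟨fun z => Lf M (e β) (Lb (fun γ a b r => (g γ).Mem (a, b, r)) β)
      z.1 z.2.1 z.2.2, by fun_prop⟩, fun _ _ _ => Iff.rfl⟩
  exact ⟨fun γ a b r => (s γ).Mem (a, b, r), he, by fun_prop, H⟩

variable (h : It M e d)
include h

theorem It.d_refl (β : K) (ξ : L) (q : Cond K L) : d β ξ ξ q :=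
  (h.eq _ _ _ _).2 fun _ _ _ k => k.1.1 ξ

theorem It.of_sub {J : K → Prop} {q p : Cond K L} (k : ∀ z ∈ p, J z.1 → z ∈ q) : LeJ d J q p :=
  fun z hz hJ => ⟨z.2, k z hz hJ, h.d_refl _ _ _⟩

theorem It.refl (J : K → Prop) (p : Cond K L) : LeJ d J p p := h.of_sub fun _ k _ => k

theorem It.trans_aux {J : K → Prop} (hJ : ∀ β γ, γ < β → J β → J γ)
    (ih : ∀ β, J β → ∀ r q p, Lb d β r q → Lb d β q p → Lb d β r p) (r q p : Cond K L)
    (h1 : LeJ d J r q) (h2 : LeJ d J q p) : LeJ d J r p := by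
  intro z hz k
  obtain ⟨ξ, k1, k2⟩ := h2 z hz k
  obtain ⟨η, k3, k4⟩ := h1 _ k1 k
  rw [h.eq] at k2 k4
  refine ⟨η, k3, (h.eq _ _ _ _).2 fun s k5 k6 k7 => k7.1.2 s _ _ _ k5 (h.refl _ _)
    (k4 s k5 k6 k7) (k2 s k5 (ih _ k _ _ _ k6 (h1.mono fun γ hγ => hJ _ _ hγ k)) k7)⟩

theorem It.trans_lb (β : K) : ∀ r q p, Lb d β r q → Lb d β q p → Lb d β r p := by
  have := hK.wf
  induction β using WellFoundedLT.induction with
  | ind β ih => exact h.trans_aux (fun _ _ k k' => k.trans k') ih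

theorem It.po {J : K → Prop} (hJ : ∀ β γ, γ < β → J β → J γ) (hd : DefF M J) :
    Po M Fu (LeJ d J) :=
  have := h.def_d
  ⟨by fun_prop, by fun_prop, h.refl J, h.trans_aux hJ fun β _ => h.trans_lb β⟩

theorem It.po_lb (β : K) : Po M Fu (Lb d β) := h.po (fun _ _ k k' => k.trans k') (by fun_prop)

theorem It.d_mono {β : K} {η ξ : L} {q q' : Cond K L} (k : d β η ξ q) (k' : Lb d β q' q) :
    d β η ξ q' :=
  (h.eq _ _ _ _).2 fun r k1 k2 => (h.eq _ _ _ _).1 k r k1 (h.trans_lb β _ _ _ k2 k')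

theorem It.sf_mono {β : K} {n : L × L × ℕ → List (Cond K L)} {η ξ : L} {q q' : Cond K L}
    (k : Sf n (Lb d β) η ξ q) (k' : Lb d β q' q) : Sf n (Lb d β) η ξ q' :=
  fun r k1 k2 => k r k1 (h.trans_lb β _ _ _ k2 k')

theorem It.d_of_sf {β : K} {η ξ : L} {q : Cond K L} (k : Sf (e β) (Lb d β) η ξ q) : d β η ξ q :=
  (h.eq _ _ _ _).2 fun _ _ k1 _ => h.sf_mono k k1

theorem It.pre_mono {β : K} {n : L × L × ℕ → List (Cond K L)} {q q' : Cond K L}
    (k : Pre n (Lb d β) q) (k' : Lb d β q' q) : Pre n (Lb d β) q' :=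
  ⟨fun ξ => h.sf_mono (k.1 ξ) k', fun s a b c k1 k2 => k.2 s a b c k1 (h.trans_lb β _ _ _ k2 k')⟩

theorem It.two_mono {β : K} {n : L × L × ℕ → List (Cond K L)} {q q' : Cond K L}
    (k : Two M n (Lb d β) q) (k' : Lb d β q' q) : Two M n (Lb d β) q' := fun A h1 h2 =>
  k A (fun p hp => ⟨(h1 p hp).1, h.trans_lb β _ _ _ (h1 p hp).2 k'⟩)
    fun p p' hp hp' hne ⟨r, k1, k2, k3⟩ =>
      h2 p p' hp hp' hne ⟨r, ⟨k1.1, h.trans_lb β _ _ _ k2.1 (h1 p hp).2⟩, k2, k3⟩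

/-- The condition that is `s` below `β` and `t` from `β` on. -/
theorem It.glue (β : K) {s t : Cond K L} (hs : Fu s) (ht : Fu t) :
    ∃ q, Fu q ∧ Lb d β q s ∧ (∀ z ∈ t, β ≤ z.1 → z ∈ q) ∧ ∀ (J : K → Prop) p, Lb d β s p →
      (∀ z ∈ p, J z.1 → β ≤ z.1 → ∃ ξ, (z.1, ξ) ∈ t ∧ d z.1 ξ z.2 q) → LeJ d J q p := by
  obtain ⟨q, hq⟩ := exists_filter (fun z => (z ∈ s ∧ z.1 < β) ∨ (z ∈ t ∧ β ≤ z.1)) (s ++ t)
  have h1 : ∀ z ∈ s, z.1 < β → z ∈ q := fun z k1 k2 => (hq z).2 ⟨by simp [k1], Or.inl ⟨k1, k2⟩⟩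
  have h2 : ∀ z ∈ t, β ≤ z.1 → z ∈ q := fun z k1 k2 => (hq z).2 ⟨by simp [k1], Or.inr ⟨k1, k2⟩⟩
  refine ⟨q, fun z hz z' hz' k => ?_, h.of_sub h1, h2, fun J p k1 k2 z hz k3 => ?_⟩
  · rcases ((hq z).1 hz).2 with k1 | k1 <;> rcases ((hq z').1 hz').2 with k2 | k2
    exacts [hs z k1.1 z' k2.1 k, (k1.2.not_ge (k ▸ k2.2)).elim, (k2.2.not_ge (k ▸ k1.2)).elim,
      ht z k1.1 z' k2.1 k]
  · rcases lt_or_ge z.1 β with k4 | k4
    · obtain ⟨ξ, k5, k6⟩ := k1 z hz k4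
      exact ⟨ξ, h1 _ k5 k4, h.d_mono k6 (h.of_sub fun y hy k => h1 y hy (k.trans k4))⟩
    · exact (k2 z hz k3 k4).imp fun ξ k => ⟨h2 _ k.1 k4, k.2⟩

theorem It.amalg {β : K} {s p : Cond K L} (hs : Fu s) (hp : Fu p) (k : Lb d β s p) :
    ∃ q, Fu q ∧ LeJ d (fun _ => True) q p ∧ Lb d β q s := by
  obtain ⟨q, k1, k2, -, k3⟩ := h.glue β hs hp
  exact ⟨q, k1, k3 _ p k fun z hz _ _ => ⟨z.2, hz, h.d_refl _ _ _⟩, k2⟩

theorem It.amalg_at {β : K} {s p : Cond K L} (hs : Fu s) (hp : Fu p) (k : Lb d β s p) (η : L)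
    (k' : ∀ ξ, (β, ξ) ∈ p → d β η ξ s) :
    ∃ q, Fu q ∧ LeJ d (fun _ => True) q p ∧ Lb d β q s ∧ (β, η) ∈ q := by
  obtain ⟨t, ht⟩ := exists_filter (fun z => β < z.1) p
  obtain ⟨q, k1, k2, k3, k4⟩ := h.glue β hs (t := (β, η) :: t) fun z hz z' hz' e => by
    rcases List.mem_cons.1 hz with rfl | k1 <;> rcases List.mem_cons.1 hz' with rfl | k2
    exacts [rfl, (((ht _).1 k2).2.ne e).elim, (((ht _).1 k1).2.ne' e).elim,
      hp z ((ht _).1 k1).1 z' ((ht _).1 k2).1 e]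
  refine ⟨q, k1, k4 _ p k fun z hz _ k5 => ?_, k2, k3 _ List.mem_cons_self le_rfl⟩
  rcases k5.eq_or_lt with rfl | k5
  · exact ⟨η, List.mem_cons_self, h.d_mono (k' _ hz) k2⟩
  · exact ⟨z.2, List.mem_cons_of_mem _ ((ht z).2 ⟨hz, k5⟩), h.d_refl _ _ _⟩

variable [Enum M] [Nonempty L]

theorem It.ccc_succ {β : K} (hc : Ccc M Fu (Lb d β)) : Ccc M Fu (LeJ d fun γ => γ ≤ β) := by
  intro A h1 h2
  have := h.def_d
  have := h.def_e
  have := A.def_mem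
  have po := h.po_lb β
  have := po.def_cmp
  obtain ⟨c, k1, k2, k3⟩ := po.predense' hc (E := fun r =>
      (Pre (e β) (Lb d β) r ∧ Two M (e β) (Lb d β) r) ∨
        ∀ s, Fu s → Lb d β s r → ¬ (Pre (e β) (Lb d β) s ∧ Two M (e β) (Lb d β) s))
    (by simp only [all_eq, imp_eq]; fun_prop)
  refine ((sm_self.biUnion (R := fun n x => x ∈ c n) (by fun_prop) fun n => sm_mem_list (L := ℕ) (c n)).biUnion' (by fun_prop)
    (R := fun x p => A.Mem p ∧ Cmp Fu (Lb d β) p x) (by fun_prop) ?_).mono fun p hp => ?_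
  · rintro x ⟨n, -, hx⟩
    obtain ⟨t, ht, H⟩ := choice' (N := M) (p := fun p => A.Mem p ∧ Cmp Fu (Lb d β) p x)
      (R := fun p (t : Cond K L × L) => Fu t.1 ∧ Lb d β t.1 p ∧ Lb d β t.1 x ∧
        ∀ ξ, (β, ξ) ∈ p → ξ = t.2) (by simp only [all_eq, imp_eq]; fun_prop)
      fun p ⟨hp, r, k4, k5, k6⟩ => by
        by_cases k : ∃ ξ, (β, ξ) ∈ p
        · obtain ⟨ξ, k⟩ := k
          exact ⟨(r, ξ), k4, k5, k6, fun η k7 => h1 p hp _ k7 _ k rfl⟩
        · exact ⟨(r, Classical.arbitrary L), k4, k5, k6, fun η k7 => (k ⟨η, k7⟩).elim⟩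
    have key : ∀ p p', A.Mem p ∧ Cmp Fu (Lb d β) p x → A.Mem p' ∧ Cmp Fu (Lb d β) p' x → p ≠ p' →
        ∀ s η, Fu s → Lb d β s (t p).1 → Lb d β s (t p').1 → d β η (t p).2 s →
          ¬ d β η (t p').2 s := by
      intro p p' hp hp' hne s η k4 k5 k6 k7 k8
      obtain ⟨q, k9, k10, -, k11⟩ := h.glue β k4 (t := [(β, η)]) (by simp [Fu])
      have k12 : ∀ p, A.Mem p ∧ Cmp Fu (Lb d β) p x → Lb d β s (t p).1 → d β η (t p).2 s →
          LeJ d (fun γ => γ ≤ β) q p := fun p hp k5 k7 =>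
        k11 _ p (po.trans _ _ _ k5 (H p hp).2.1) fun z hz e1 e2 => by
          obtain rfl := le_antisymm e2 e1
          exact ⟨η, List.mem_singleton_self _, (H p hp).2.2.2 _ hz ▸ h.d_mono k7 k10⟩
      exact h2 p p' hp.1 hp'.1 hne ⟨q, k9, k12 p hp k5 k7, k12 p' hp' k6 k8⟩
    rcases k2 n x hx with k | k
    · exact Ccc.index' k.2 (by fun_prop) ht (fun p hp => ⟨⟨(H p hp).1, (H p hp).2.2.1⟩,
        po.refl _, h.sf_mono (k.1.1 _) (H p hp).2.2.1⟩) fun p p' hp hp' hne ⟨s, k4, k5, k6⟩ =>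
          key p p' hp hp' hne s.1 s.2 k4.1 k5.1 k6.1 (h.d_of_sf k5.2) (h.d_of_sf k6.2)
    · refine hc.index po (by fun_prop) (f := fun p => (t p).1) (by fun_prop)
        (fun p hp => (H p hp).1) fun p p' hp hp' hne ⟨s, k4, k5, k6⟩ => ?_
      have k7 : ∀ ξ, d β (t p).2 ξ s := fun ξ => (h.eq _ _ _ _).2 fun r e1 e2 e3 =>
        (k r e1 (po.trans _ _ _ e2 (po.trans _ _ _ k5 (H p hp).2.2.1)) e3).elim
      exact key p p' hp hp' hne s _ k4 k5 k6 (k7 _) (k7 _)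
  · by_cases k : ∀ s, Fu s → Lb d β s p → ¬ (Pre (e β) (Lb d β) s ∧ Two M (e β) (Lb d β) s)
    · obtain ⟨n, x, k4, k5⟩ := k3 p p (Or.inr k) (h1 p hp) (po.refl p)
      exact ⟨x, ⟨n, trivial, k4⟩, hp, k5⟩
    · simp only [not_forall, not_not] at k
      obtain ⟨s, k4, k5, k6⟩ := k
      obtain ⟨n, x, k7, r, k8, k9, k10⟩ := k3 s s (Or.inl k6) k4 (po.refl s)
      exact ⟨x, ⟨n, trivial, k7⟩, hp, r, k8, po.trans _ _ _ k9 k5, k10⟩

theorem It.ccc_lim {J : K → Prop} (hd : DefF M J) (hm : ∀ β, J β → ∃ γ, J γ ∧ β < γ)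
    (hc : ∀ β, J β → Ccc M Fu (Lb d β)) : Ccc M Fu (LeJ d J) := by
  intro A h1 h2
  have := h.def_d
  have := A.def_mem
  by_cases h0 : ∃ β, J β
  swap
  · exact sm_finite (L := ℕ) (Set.Subsingleton.finite fun p hp q hq => by_contra fun k =>
      h2 p q hp hq k ⟨[], by simp [Fu], fun _ _ e => (h0 ⟨_, e⟩).elim, fun _ _ e => (h0 ⟨_, e⟩).elim⟩)
  obtain ⟨β0, h0⟩ := h0
  have : Nonempty K := ⟨β0⟩
  have : Nonempty (DFun M ℕ (List (Cond K L))) := ⟨⟨fun _ => [], by fun_prop⟩⟩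
  obtain ⟨c, k1, k2⟩ := choice' (N := M) (p := J) (R := fun β (c : DFun M ℕ (List (Cond K L))) =>
      (∀ n, ∀ x ∈ c.app n, A.Mem x) ∧
        ∀ p, A.Mem p → ∃ n, ∃ x ∈ c.app n, ∃ r, Fu r ∧ Lb d β r p ∧ Lb d β r x)
    (by simp only [all_eq, imp_eq]; fun_prop) fun β hβ => by
      obtain ⟨c, k1, k2, k3⟩ := (h.po_lb β).predense' (hc β hβ) A.def_mem
      exact ⟨⟨c, k1⟩, k2, fun p hp => k3 p p hp (h1 p hp) (h.refl _ p)⟩
  obtain ⟨g, k3, k4⟩ := choice (N := M) (R := fun (z : K × ℕ) γ => J γ ∧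
      ∀ x ∈ (c z.1).app z.2, ∀ y ∈ x, J y.1 → y.1 < γ) (by simp only [all_eq, imp_eq]; fun_prop)
    fun z => (list_bound ⟨β0, h0⟩ (((c z.1).app z.2).flatten.map Prod.fst)).imp fun γ k =>
      ⟨k.1, fun x hx y hy e => k.2 _ (List.mem_map.2 ⟨y, List.mem_flatten.2 ⟨x, hx, hy⟩, rfl⟩)
        (hm _ e)⟩
  obtain ⟨π, k5, k6, -, k7⟩ := exists_hull (N := M) (L := ℕ) (V := J) (F := fun i β _ => g (β, i))
    (by fun_prop) (fun _ _ _ _ _ => (k4 _).1) h0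
  refine ((Sm.prod' (L := ℕ) sm_self sm_self).biUnion
    (R := fun (z : ℕ × ℕ) x => x ∈ (c (π z.1)).app z.2) (by fun_prop)
    fun _ => sm_mem_list _).mono fun p hp => ?_
  obtain ⟨_, ⟨j, rfl⟩, k8⟩ := list_bound (T := fun β => ∃ j, π j = β) ⟨_, 0, rfl⟩ (p.map Prod.fst)
  obtain ⟨n, x, k9, r, k10, k11, k12⟩ := (k2 _ (k6 j)).2 p hp
  have k13 := (k2 _ (k6 j)).1 n x k9
  refine ⟨(j, n), trivial, by_contra fun k => ?_⟩
  obtain ⟨t, ht⟩ := exists_filter (fun z => J z.1 ∧ π j ≤ z.1) (p ++ x)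
  have k14 : ∀ z ∈ p, ∀ z' ∈ x, z.1 = z'.1 → ¬ (J z.1 ∧ π j ≤ z.1) := fun z hz z' hz' e k => by
    obtain ⟨m, hm⟩ := k7 n j j
    exact (k8 _ (List.mem_map.2 ⟨z, hz, rfl⟩) ⟨_, ⟨m, hm⟩,
      e ▸ (k4 (π j, n)).2 x k9 z' hz' (e ▸ k.1)⟩).not_ge k.2
  obtain ⟨q, e1, -, -, e2⟩ := h.glue (π j) k10 (t := t) fun z hz z' hz' e => by
    rw [ht, List.mem_append] at hz hz'
    rcases hz.1 with e1 | e1 <;> rcases hz'.1 with e2 | e2
    exacts [h1 p hp z e1 z' e2 e, (k14 z e1 z' e2 e hz.2).elim,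
      (k14 z' e2 z e1 e.symm hz'.2).elim, h1 x k13 z e1 z' e2 e]
  exact h2 p x hp k13 (fun e => k (e ▸ k9)) ⟨q, e1,
    e2 J p k11 fun z hz e3 e4 => ⟨z.2, (ht z).2 ⟨by simp [hz], e3, e4⟩, h.d_refl _ _ _⟩,
    e2 J x k12 fun z hz e3 e4 => ⟨z.2, (ht z).2 ⟨by simp [hz], e3, e4⟩, h.d_refl _ _ _⟩⟩

theorem It.ccc_aux {J : K → Prop} (hJ : ∀ β γ, γ < β → J β → J γ) (hd : DefF M J)
    (hc : ∀ β, J β → Ccc M Fu (Lb d β)) : Ccc M Fu (LeJ d J) := by
  by_cases k : ∀ β, J β → ∃ γ, J γ ∧ β < γ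
  · exact h.ccc_lim hd k hc
  · push Not at k
    obtain ⟨β, k1, k2⟩ := k
    rw [show J = fun γ => γ ≤ β from funext fun γ => propext ⟨k2 γ, fun e =>
      e.eq_or_lt.elim (fun e => e ▸ k1) fun e => hJ _ _ e k1⟩]
    exact h.ccc_succ (hc β k1)

theorem It.ccc_lb (β : K) : Ccc M Fu (Lb d β) := by
  have := hK.wf
  induction β using WellFoundedLT.induction with
  | ind β ih => exact h.ccc_aux (fun _ _ k k' => k.trans k') (by fun_prop) ih

theorem It.ccc : Ccc M Fu (LeJ d fun _ => True) :=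
  h.ccc_aux (fun _ _ _ k => k) (by fun_prop) fun β _ => h.ccc_lb β

end Pool.Agent.P.MP_5a7d1f_lc.Gro
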