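import Pool.Agent.P.MP_5a7d1f_lc.Gro.Gen
import Pool.Agent.P.MP_5a7d1f_lc.Gro.Iter
import Pool.Agent.P.MP_5a7d1f_lc.Gro.Defs

/-!
MA and the size of the continuum in the extension by the iteration.
-/

set_option synthInstance.maxSize 16384
set_option linter.unusedSectionVars false

namespace Pool.Agent.P.MP_5a7d1f_lc.Gro

open ZFSet Pool.Agent.Lib.Forcing Pool.Agent.Lib.Typed Pool.Agent.P.MP_af0a18_lc

variable {M N : Set ZFSet.{0}} [ZFC M] [ZFC N] {K L : Type} [Coded N K] [Coded N L]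

theorem MAT.of_self [hL : Big N L] (h : ∀ Le : L → L → Prop, Po N (fun _ => True) Le →
    Ccc N (fun _ => True) Le → ∀ D : L → L → Prop, DefF N (fun z : L × L => D z.1 z.2) →
      (∀ i ξ, ∃ η, Le η ξ ∧ D i η) → ∃ G : L → Prop, DefF N G ∧
        (∀ p q, G p → G q → ∃ r, G r ∧ Le r p ∧ Le r q) ∧ ∀ i, ∃ p, G p ∧ D i p) : MAT N L := by
  rintro X _ V Le po hc ⟨p0, h0⟩ D hD H
  have := po.defV
  have := po.defLe
  have := po.def_cmp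
  have : Nonempty X := ⟨p0⟩
  have hne := Big.nonempty N L
  obtain ⟨F, hF, HF⟩ := choice' (N := N) (p := fun z : L × X × X => V z.2.1)
    (R := fun z y => V y ∧ Le y z.2.1 ∧ D z.1 y ∧ (Cmp V Le z.2.1 z.2.2 → Le y z.2.2))
    (by simp only [imp_eq]; fun_prop) fun z hz => by
      by_cases k : Cmp V Le z.2.1 z.2.2
      · obtain ⟨r, k1, k2, k3⟩ := k
        obtain ⟨y, k4, k5, k6⟩ := H z.1 r k1
        exact ⟨y, k4, po.trans _ _ _ k5 k2, k6, fun _ => po.trans _ _ _ k5 k3⟩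
      · obtain ⟨y, k4, k5, k6⟩ := H z.1 _ hz
        exact ⟨y, k4, k5, k6, fun k' => (k k').elim⟩
  obtain ⟨π, h1, h2, -, h3⟩ := exists_hull (N := N) (L := L) (V := V) (F := fun i x y => F (i, x, y))
    hF (fun i x y hx _ => (HF (i, x, y) hx).1) h0
  obtain ⟨G, g1, g2, g3⟩ := h (fun a b => Le (π a) (π b))
    ⟨by fun_prop, by fun_prop, fun _ => po.refl _, fun _ _ _ => po.trans _ _ _⟩
    (fun A _ k => hc.index po A.def_mem h1 (fun p _ => h2 p) fun p q hp hq hne e => by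
      obtain ⟨m, hm⟩ := h3 p p q
      have k1 := HF (p, π p, π q) (h2 p)
      rw [← hm] at k1
      exact k p q hp hq hne ⟨m, trivial, k1.2.1, k1.2.2.2 e⟩)
    (fun i a => D i (π a)) (by fun_prop) fun i a => by
      obtain ⟨m, hm⟩ := h3 i a a
      have k1 := HF (i, π a, π a) (h2 a)
      exact ⟨m, hm ▸ k1.2.1, hm ▸ k1.2.2.1⟩
  refine ⟨fun x => ∃ a, G a ∧ π a = x, by fun_prop, ?_, ?_, fun i => ?_⟩
  · rintro _ ⟨a, -, rfl⟩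
    exact h2 a
  · rintro _ _ ⟨a, ha, rfl⟩ ⟨b, hb, rfl⟩
    obtain ⟨c, k1, k2⟩ := g2 a b ha hb
    exact ⟨_, ⟨c, k1, rfl⟩, k2⟩
  · obtain ⟨a, k1, k2⟩ := g3 i
    exact ⟨_, ⟨a, k1, rfl⟩, k2⟩

/-- The untyped form of MA. -/
theorem MAT.maIn [LinearOrder K] [hK : Succ N L K] (ma : MAT N L)
    (hc : Sm N K (fun _ : DSet N ℕ => True)) : MAIn N := by
  intro P hP le hle hf hne hA D hD hd hn
  have := hK.big
  have := InM.mk hP
  have := InM.mk (insert_mem hP hD)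
  obtain ⟨P0, h0⟩ := El.exists_val (mem_insert P D)
  have : Nonempty (El (insert P D)) := ⟨P0⟩
  have h1 : DefF N (In N le : El P × El P → Prop) := DefF.isIn hle
  have h2 : DefF N (In N D : El (insert P D) → Prop) := DefF.isIn hD
  obtain ⟨g, hg, Hg⟩ : Sm N L (In N D : El (insert P D) → Prop) := by
    by_contra k
    obtain ⟨s, hs, Hs⟩ := tdc (N := N) (K := K) (Y := El (insert P D))
      (R := fun i g y => In N D y ∧ ∀ j, j < i → g j ≠ y) (by simp only [all_eq, imp_eq]; fun_prop)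
      (fun i g g' y h k => ⟨k.1, fun j hj => h j hj ▸ k.2 j hj⟩) fun i g hg _ => by
        by_contra k1
        push Not at k1
        exact k (((hK.small_lt i).image hg).mono k1)
    have := hK.ne
    obtain ⟨j, hj, Hj⟩ := choice' (N := N) (p := fun y => ∃ i, s i = y) (R := fun y i => s i = y)
      (by fun_prop) fun _ k => k
    have k1 : ∀ i, j (s i) = i := fun i => by
      rcases lt_trichotomy (j (s i)) i with k1 | k1 | k1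
      exacts [((Hs i).2 _ k1 (Hj _ ⟨i, rfl⟩)).elim, k1,
        ((Hs _).2 _ k1 (Hj _ ⟨i, rfl⟩).symm).elim]
    obtain ⟨c, k2, k3⟩ := hc
    obtain ⟨r, k4, k5, k6⟩ := exists_graph (k2.comp hj)
    refine hn ⟨r, k4, k5, fun y hy => ?_⟩
    rw [mem_sep, mem_powerset] at hy
    obtain ⟨i, hi⟩ := k3 ⟨_, defF_mem hy.2⟩ trivial
    refine ⟨_, (Hs i).1, ?_⟩
    convert k6 (s i) using 2
    ext z
    rw [k1, hi, mem_cd_dset]
    refine ⟨fun hz => ?_, fun ⟨n, k7, k8⟩ => k8 ▸ k7⟩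
    obtain ⟨n, rfl⟩ := mem_car.1 ((car_nat (N := N)).ge (hy.1 hz))
    exact ⟨n, hz, rfl⟩
  obtain ⟨p0, hp0⟩ := (ZFSet.eq_empty_or_nonempty P).resolve_left hne
  obtain ⟨p1, -⟩ := El.exists_val hp0
  have : Nonempty (El P) := ⟨p1⟩
  have h3 : ∀ {q p}, pair q p ∈ le → q ∈ P ∧ p ∈ P := fun k => pair_mem_prod.1 (hf.subset k)
  obtain ⟨G, g1, -, g2, g3⟩ := ma (El P) (fun _ => True) (fun q p => In N le (q, p))
    ⟨by fun_prop, h1, fun p => hf.refl _ p.val_mem, fun r q p => hf.trans _ _ _⟩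
    (fun A _ k => by
      obtain ⟨c, k1, k2⟩ := exists_fun_of_surj (M := N) (A := ℕ) (B := El P) car_nat.ge
        (hA _ (cd_mem A) ((cd_dset_subset A).trans car_el.le) fun p hp q hq hne ⟨r, k1, k2⟩ => by
          obtain ⟨p, hp', rfl⟩ := mem_cd_dset.1 hp
          obtain ⟨q, hq', rfl⟩ := mem_cd_dset.1 hq
          obtain ⟨r, rfl⟩ := El.exists_val (h3 k1).1
          exact k p q hp' hq' (fun e => hne (e ▸ rfl)) ⟨r, trivial, k1, k2⟩)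
      exact ⟨c, k1, fun x hx => (k2 x (cd_mem_dset.2 hx)).imp fun _ k => k.2⟩)
    ⟨p1, trivial⟩ (fun i q => cd N q ∈ cd N (g i))
    (defF_cd_mem DefF.snd (hg.comp DefF.fst)) fun i p _ => by
      rcases mem_insert_iff.1 (g i).val_mem with k | k
      · exact ⟨p, trivial, hf.refl _ p.val_mem, (k : cd N (g i) = P).ge p.val_mem⟩
      · obtain ⟨q, k1, k2⟩ := (hd _ k).2 _ p.val_mem
        obtain ⟨q, rfl⟩ := El.exists_val (h3 k2).1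
        exact ⟨q, trivial, k2, k1⟩
  let T : DSet N (El P) := ⟨fun p => ∃ q, G q ∧ In N le (q, p), by fun_prop⟩
  have h4 : ∀ q, G q → cd N q ∈ cd N T := fun q hq =>
    cd_mem_dset.2 ⟨q, hq, hf.refl _ q.val_mem⟩
  refine ⟨cd N T, cd_mem T, (cd_dset_subset T).trans car_el.le, fun p q hq k => ?_,
    fun p hp q hq => ?_, fun d hd' => ?_⟩
  · obtain ⟨q, ⟨r, k1, k2⟩, rfl⟩ := mem_cd_dset.1 hq
    obtain ⟨p, rfl⟩ := El.exists_val (h3 k).2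
    exact (cd_mem_dset (S := T) (x := p)).2 ⟨r, k1, hf.trans _ _ _ k2 k⟩
  · obtain ⟨p, ⟨p', k1, k2⟩, rfl⟩ := mem_cd_dset.1 hp
    obtain ⟨q, ⟨q', k3, k4⟩, rfl⟩ := mem_cd_dset.1 hq
    obtain ⟨r, k5, k6, k7⟩ := g2 p' q' k1 k3
    exact ⟨_, h4 r k5, hf.trans _ _ _ k6 k2, hf.trans _ _ _ k7 k4⟩
  · obtain ⟨d, rfl⟩ := El.exists_val (mem_insert_of_mem P hd')
    obtain ⟨i, rfl⟩ := Hg d hd'
    obtain ⟨q, k1, k2⟩ := g3 i
    exact ⟨_, k2, h4 q k1⟩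

theorem Po.exists_unc [Enum M] {X Y : Type} [Coded M X] [Coded M Y] [Nonempty Y] {V : X → Prop}
    {Le : X → X → Prop} (po : Po M V Le) (hc : Ccc M V Le) {A : Y → Prop} (hA : DefF M A)
    {f : Y → X} (hf : DefF M f) (hV : ∀ y, A y → V (f y)) (hu : ¬ Ctble M A) :
    ∃ s, V s ∧ ∀ (C : DFun M ℕ Y) r, V r → Le r s →
      ∃ y, A y ∧ (¬ ∃ n, C.app n = y) ∧ Cmp V Le r (f y) := by
  have := po.defV
  have := po.def_cmp
  by_contra k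
  have k1 : ∀ s, V s → ∃ r, V r ∧ Le r s ∧
      ∃ C : DFun M ℕ Y, ∀ y, A y → Cmp V Le r (f y) → ∃ n, C.app n = y := fun s hs => by
    by_contra k1
    refine k ⟨s, hs, fun C r k2 k3 => by_contra fun k4 => k1 ⟨r, k2, k3, C, fun y k5 k6 =>
      by_contra fun k7 => k4 ⟨y, k5, k7, k6⟩⟩⟩
  obtain ⟨y0, h0⟩ : ∃ y, A y := by_contra fun k2 =>
    hu ((ctble_single (Classical.arbitrary Y)).mono fun y hy => (k2 ⟨y, hy⟩).elim)
  obtain ⟨c, k2, k3, k4⟩ := po.predense hc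
    (E := fun r => ∃ C : DFun M ℕ Y, ∀ y, A y → Cmp V Le r (f y) → ∃ n, C.app n = y)
    (by simp only [all_eq, imp_eq]; fun_prop) ((k1 _ (hV y0 h0)).imp fun _ k => k.2.2)
  refine hu ((ctble_nat.biUnion (R := fun n y => A y ∧ Cmp V Le (c n) (f y)) (by fun_prop)
    fun n => (k3 n).elim fun C k => ⟨C.app, C.def_app, fun y hy => k y hy.1 hy.2⟩).mono
      fun y hy => ?_)
  obtain ⟨r, k5, k6, k7⟩ := k1 _ (hV y hy)
  obtain ⟨n, t, k8, k9, k10⟩ := k4 r r k7 k5 (po.refl r)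
  exact ⟨n, trivial, hy, t, k8, k10, po.trans _ _ _ k9 k6⟩

variable [Enum M] [Coded M K] [Coded M L] [Same M N K] [Same M N L] [LinearOrder K]
  [hK : Succ M L K] {e : K → L × L × ℕ → List (Cond K L)} {d : K → L → L → Cond K L → Prop}
  {G : Cond K L → Prop} (h : It M e d) (g : Gen M N Fu (LeJ d fun _ => True) G)
include h g

theorem It.name {Z : L → L → Prop} (hZ : DefF N (fun z : L × L => Z z.1 z.2)) :
    ∃ n : L × L × ℕ → List (Cond K L), DefF M n ∧ ∃ γ, (∀ a, ∀ x ∈ n a, Fu x ∧ ∀ z ∈ x, z.1 < γ) ∧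
      ∀ η ξ, Z η ξ ↔ ∃ k, ∃ x ∈ n (η, ξ, k), G x := by
  have := hK.big
  have := Big.nonempty M L
  have := hK.ne
  obtain ⟨n, h1, h2, h3⟩ := g.name h.ccc hZ
  obtain ⟨γ, hγ⟩ := ((Sm.prod' (N := M) (L := L) (sm_self.prod' sm_self) Big.nat).biUnion
    (R := fun (a : (L × L) × ℕ) z => ∃ x ∈ n a.1 a.2, z ∈ x) (by fun_prop) fun a =>
      (sm_mem_list (n a.1 a.2).flatten).mono fun _ k => List.mem_flatten.2 k).bdd (K := K) DefF.fst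
  exact ⟨fun a => n (a.1, a.2.1) a.2.2, by fun_prop, γ, fun a x hx =>
    ⟨h2 _ _ x hx, fun z hz => hγ z ⟨(_, _), trivial, x, hx, hz⟩⟩, fun η ξ => h3 (η, ξ)⟩

theorem It.below {β : K} {R : Cond K L → Prop} (hR : DefF M R)
    (h1 : ∀ q s, Lb d β q s → R s → R q) {p : Cond K L} (hp : G p)
    (h2 : ∀ q, Fu q → Lb d β q p → ∃ s, Fu s ∧ Lb d β s q ∧ R s) : ∃ q, G q ∧ R q :=
  g.below hR hp fun q k1 k2 => by
    obtain ⟨s, k3, k4, k5⟩ := h2 q k1 (k2.mono fun _ _ => trivial)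
    obtain ⟨r, k6, k7, k8⟩ := h.amalg k3 k1 k4
    exact ⟨r, k6, k7, h1 _ _ k8 k5⟩

theorem It.dir (β : K) {p q : Cond K L} (hp : G p) (hq : G q) :
    ∃ r, G r ∧ Lb d β r p ∧ Lb d β r q :=
  (g.dir p q hp hq).imp fun _ k =>
    ⟨k.1, k.2.1.mono fun _ _ => trivial, k.2.2.mono fun _ _ => trivial⟩

section
variable {β : K} {Le : L → L → Prop} (hb : ∀ a, ∀ x ∈ e β a, Fu x ∧ ∀ z ∈ x, z.1 < β)
  (hn : ∀ η ξ, Le η ξ ↔ ∃ k, ∃ x ∈ e β (η, ξ, k), G x)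
include hb hn

theorem It.truth {η ξ : L} : Le η ξ ↔ ∃ q, G q ∧ Sf (e β) (Lb d β) η ξ q := by
  have := h.def_d
  have := h.def_e
  refine (hn η ξ).trans ⟨fun ⟨k, x, k1, k2⟩ => ⟨x, k2, fun r k3 k4 =>
    ⟨r, k3, h.refl _ r, k, x, k1, k4⟩⟩, fun ⟨q, k1, k2⟩ => ?_⟩
  obtain ⟨s, k3, k, x, k4, k5⟩ := h.below g (β := β)
    (R := fun s => ∃ k, ∃ x ∈ e β (η, ξ, k), Lb d β s x) (by fun_prop)
    (fun q s k3 ⟨k, x, k4, k5⟩ => ⟨k, x, k4, h.trans_lb β _ _ _ k3 k5⟩) k1 k2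
  exact ⟨k, x, k4, g.up s x k3 (hb _ x k4).1 fun z hz _ => k5 z hz ((hb _ x k4).2 z hz)⟩

theorem It.exists_pre (po : Po N (fun _ => True) Le) : ∃ q, G q ∧ Pre (e β) (Lb d β) q := by
  have := h.def_d
  have := h.def_e
  have key : ∀ η ξ r, Fu r → ¬ Sf (e β) (Lb d β) η ξ r → ∃ t, Fu t ∧ Lb d β t r ∧
      ∀ s, Fu s → Lb d β s t → ¬ Sf (e β) (Lb d β) η ξ s := by
    intro η ξ r _ k
    simp only [Sf, not_forall] at k
    obtain ⟨t, k1, k2, k3⟩ := k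
    refine ⟨t, k1, k2, fun s k4 k5 k6 => k3 ?_⟩
    obtain ⟨u, k7, k8, k9⟩ := k6 s k4 (h.refl _ s)
    exact ⟨u, k7, h.trans_lb β _ _ _ k8 k5, k9⟩
  have key2 : ∀ η ξ q, G q → Le η ξ →
      ¬ ∀ s, Fu s → Lb d β s q → ¬ Sf (e β) (Lb d β) η ξ s := fun η ξ q hq k k' => by
    obtain ⟨p, k1, k2⟩ := (h.truth g hb hn).1 k
    obtain ⟨r, k3, k4, k5⟩ := h.dir g β hq k1
    exact k' r (g.valid r k3) k4 (h.sf_mono k2 k5)
  obtain ⟨p, hp⟩ := g.ne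
  obtain ⟨q, hq, k⟩ := h.below g (β := β) (R := fun q => Pre (e β) (Lb d β) q ∨
      (∃ ξ, ∀ s, Fu s → Lb d β s q → ¬ Sf (e β) (Lb d β) ξ ξ s) ∨
      ∃ a b c, Sf (e β) (Lb d β) a b q ∧ Sf (e β) (Lb d β) b c q ∧
        ∀ s, Fu s → Lb d β s q → ¬ Sf (e β) (Lb d β) a c s)
    (by simp only [all_eq, imp_eq]; fun_prop) (fun q s k => Or.imp (fun k1 => h.pre_mono k1 k)
      (Or.imp (fun ⟨ξ, k1⟩ => ⟨ξ, fun t k2 k3 => k1 t k2 (h.trans_lb β _ _ _ k3 k)⟩)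
        fun ⟨a, b, c, k1, k2, k3⟩ => ⟨a, b, c, h.sf_mono k1 k, h.sf_mono k2 k,
          fun t k4 k5 => k3 t k4 (h.trans_lb β _ _ _ k5 k)⟩)) hp fun q hq _ => by
      by_cases k : Pre (e β) (Lb d β) q
      · exact ⟨q, hq, h.refl _ q, Or.inl k⟩
      · simp only [Pre, not_and_or, not_forall] at k
        rcases k with ⟨ξ, k⟩ | ⟨s, a, b, c, k1, k2, k3, k4, k5⟩
        · exact (key ξ ξ q hq k).imp fun t k => ⟨k.1, k.2.1, Or.inr (Or.inl ⟨ξ, k.2.2⟩)⟩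
        · exact (key a c s k1 k5).imp fun t k => ⟨k.1, h.trans_lb β _ _ _ k.2.1 k2, Or.inr (Or.inr
            ⟨a, b, c, h.sf_mono k3 k.2.1, h.sf_mono k4 k.2.1, k.2.2⟩)⟩
  rcases k with k | ⟨ξ, k⟩ | ⟨a, b, c, k1, k2, k3⟩
  exacts [⟨q, hq, k⟩, (key2 ξ ξ q hq (po.refl ξ) k).elim, (key2 a c q hq (po.trans _ _ _
    ((h.truth g hb hn).2 ⟨q, hq, k1⟩) ((h.truth g hb hn).2 ⟨q, hq, k2⟩)) k3).elim]

theorem It.exists_two (po : Po N (fun _ => True) Le) (hc : Ccc N (fun _ => True) Le) :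
    ∃ q, G q ∧ Two M (e β) (Lb d β) q := by
  have := h.def_d
  have := h.def_e
  have := hK.big
  have := Big.nonempty M L
  have pb := h.po_lb β
  obtain ⟨p, hp⟩ := g.ne
  obtain ⟨q, hq, k⟩ := h.below g (β := β) (R := fun q => Two M (e β) (Lb d β) q ∨
      ∃ A : DSet M (Cond K L × L), (∀ y y' s η, A.Mem y → A.Mem y' → Fu s → Lb d β s y.1 →
        Lb d β s y'.1 → Sf (e β) (Lb d β) η y.2 s → Sf (e β) (Lb d β) η y'.2 s → y = y') ∧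
        ∀ (C : DFun M ℕ (Cond K L × L)) r, Fu r → Lb d β r q →
          ∃ s, Fu s ∧ Lb d β s r ∧ ∃ y, A.Mem y ∧ (¬ ∃ n, C.app n = y) ∧ Lb d β s y.1)
    (by simp only [all_eq, imp_eq]; fun_prop) (fun q s k => Or.imp (fun k1 => h.two_mono k1 k)
      fun ⟨A, k1, k2⟩ => ⟨A, k1, fun C r k3 k4 => k2 C r k3 (pb.trans _ _ _ k4 k)⟩) hp
    fun q hq _ => by
      by_cases k : Two M (e β) (Lb d β) q
      · exact ⟨q, hq, h.refl _ q, Or.inl k⟩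
      · simp only [Two, Ccc, not_forall] at k
        obtain ⟨A, k1, k2, k3⟩ := k
        obtain ⟨s, k4, k5⟩ := (pb.below q).exists_unc ((h.ccc_lb β).below pb q) A.def_mem DefF.fst
          k1 k3
        refine ⟨s, k4.1, k4.2, Or.inr ⟨A, fun y y' t η e1 e2 e3 e4 e5 e6 e7 => by_contra fun k =>
          k2 y y' e1 e2 k ⟨(t, η), ⟨e3, pb.trans _ _ _ e4 (k1 y e1).2⟩, ⟨e4, e6⟩, e5, e7⟩,
          fun C r e1 e2 => ?_⟩⟩
        obtain ⟨y, e3, e4, t, e5, e6, e7⟩ := k5 C r ⟨e1, pb.trans _ _ _ e2 k4.2⟩ e2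
        exact ⟨t, e5.1, e6, y, e3, e4, e7⟩
  refine k.elim (fun k => ⟨q, hq, k⟩) fun ⟨A, k1, k2⟩ => False.elim ?_
  have := A.def_mem
  obtain ⟨s, k3, k4⟩ := hc.index po (Y := Cond K L × L)
    (g.eval (R := fun y u => A.Mem y ∧ Lb d β u y.1) (by fun_prop)) DefF.snd (fun _ _ => trivial)
    fun y y' ⟨u, e1, e2, e3⟩ ⟨u', e4, e5, e6⟩ hne ⟨η, _, e7, e8⟩ => by
      obtain ⟨v, e9, e10⟩ := (h.truth g hb hn).1 e7
      obtain ⟨v', e11, e12⟩ := (h.truth g hb hn).1 e8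
      obtain ⟨a, a1, a2, a3⟩ := h.dir g β e1 e4
      obtain ⟨b, b1, b2, b3⟩ := h.dir g β e9 e11
      obtain ⟨c, c1, c2, c3⟩ := h.dir g β a1 b1
      exact hne (k1 y y' c η e2 e5 (g.valid c c1) (pb.trans _ _ _ c2 (pb.trans _ _ _ a2 e3))
        (pb.trans _ _ _ c2 (pb.trans _ _ _ a3 e6)) (h.sf_mono e10 (pb.trans _ _ _ c3 b2))
        (h.sf_mono e12 (pb.trans _ _ _ c3 b3)))
  obtain ⟨W, k5, k6⟩ := g.cover h.ccc (L := ℕ) _ s k3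
  obtain ⟨C, k7, k8⟩ := ctble_nat.biUnion k5 fun n => (k6 n).1
  obtain ⟨u, e1, y, e2, e3, e4⟩ := h.below g (β := β)
    (R := fun u => ∃ y, A.Mem y ∧ (¬ ∃ n, C n = y) ∧ Lb d β u y.1) (by fun_prop)
    (fun q s k ⟨y, e1, e2, e3⟩ => ⟨y, e1, e2, pb.trans _ _ _ k e3⟩) hq (k2 ⟨C, k7⟩)
  obtain ⟨n, rfl⟩ := k4 y ⟨u, e1, e2, e4⟩
  exact e3 (k8 _ ⟨n, trivial, (k6 n).2⟩)

end

theorem It.mat (he : Book M e) : MAT N L := by
  have := h.def_d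
  have := h.def_e
  have := hK.big
  have := Big.nonempty M L
  have : Big N L := ⟨Big.pair.up g.sub, Big.nat.up g.sub⟩
  refine MAT.of_self fun Le po hc D hD H => ?_
  obtain ⟨n, h1, γ, h2, h3⟩ := h.name g po.defLe
  obtain ⟨m, h4, γ', h5, h6⟩ := h.name g hD
  obtain ⟨β, h7, rfl⟩ := he.2 n h1 (max γ γ')
  have hb : ∀ a, ∀ x ∈ e β a, Fu x ∧ ∀ z ∈ x, z.1 < β := fun a x hx => ⟨(h2 a x hx).1, fun z hz =>
    ((h2 a x hx).2 z hz).trans_le ((le_max_left _ _).trans h7)⟩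
  have pb := h.po_lb β
  refine ⟨fun ξ => ∃ p, G p ∧ (β, ξ) ∈ p, g.eval (by fun_prop), ?_, fun i => ?_⟩
  · rintro ξ ξ' ⟨p, k1, k2⟩ ⟨p', k3, k4⟩
    obtain ⟨a, a1, a2⟩ := h.exists_pre g hb h3 po
    obtain ⟨b, b1, b2⟩ := h.exists_two g hb h3 po hc
    obtain ⟨c, c1, c2, c3⟩ := h.dir g β a1 b1
    obtain ⟨r, r1, r2, r3⟩ := g.dir p p' k1 k3
    obtain ⟨s, s1, s2, s3⟩ := h.dir g β r1 c1
    obtain ⟨η, k5, k6⟩ := r2 _ k2 trivial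
    obtain ⟨η', k7, k8⟩ := r3 _ k4 trivial
    obtain rfl : η = η' := g.valid r r1 _ k5 _ k7 rfl
    have k9 : ∀ ζ, d β η ζ r → Le η ζ := fun ζ k => (h.truth g hb h3).2 ⟨s, s1,
      (h.eq _ _ _ _).1 k s (g.valid s s1) s2 ⟨h.pre_mono a2 (pb.trans _ _ _ s3 c2),
        h.two_mono b2 (pb.trans _ _ _ s3 c3)⟩⟩
    exact ⟨η, ⟨r, r1, k5⟩, k9 _ k6, k9 _ k8⟩
  · obtain ⟨q, hq, k⟩ := g.meets (R := fun q =>
        (∃ η, (β, η) ∈ q ∧ ∃ k, ∃ x ∈ m (i, η, k), Lb d β q x) ∨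
        ∃ ξ, ∀ s η, Fu s → Lb d β s q → Sf (e β) (Lb d β) η ξ s →
          ¬ ∃ k, ∃ x ∈ m (i, η, k), Lb d β s x)
      (by simp only [all_eq, imp_eq]; fun_prop) fun p hp => by
        obtain ⟨ξ, k1⟩ : ∃ ξ, ∀ ζ, (β, ζ) ∈ p → ζ = ξ := by
          by_cases k : ∃ ξ, (β, ξ) ∈ p
          · exact k.imp fun ξ k ζ k' => hp _ k' _ k rfl
          · exact ⟨Classical.arbitrary L, fun ζ k' => (k ⟨ζ, k'⟩).elim⟩
        by_cases k : ∀ s η, Fu s → Lb d β s p → Sf (e β) (Lb d β) η ξ s →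
          ¬ ∃ k, ∃ x ∈ m (i, η, k), Lb d β s x
        · exact ⟨p, hp, h.refl _ p, Or.inr ⟨ξ, k⟩⟩
        · simp only [not_forall, not_not] at k
          obtain ⟨s, η, k2, k3, k4, k, x, k5, k6⟩ := k
          obtain ⟨q, k7, k8, k9, k10⟩ := h.amalg_at k2 hp k3 η fun ζ k => k1 ζ k ▸ h.d_of_sf k4
          exact ⟨q, k7, k8, Or.inl ⟨η, k10, k, x, k5, pb.trans _ _ _ k9 k6⟩⟩
    rcases k with ⟨η, k1, k, x, k2, k3⟩ | ⟨ξ, k⟩
    · exact ⟨η, ⟨q, hq, k1⟩, (h6 i η).2 ⟨k, x, k2, g.up q x hq (h5 _ x k2).1 fun z hz _ =>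
        k3 z hz (((h5 _ x k2).2 z hz).trans_le ((le_max_right _ _).trans h7))⟩⟩
    · obtain ⟨η, k1, k2⟩ := H i ξ
      obtain ⟨p, k3, k4⟩ := (h.truth g hb h3).1 k1
      obtain ⟨j, x, k5, k6⟩ := (h6 i η).1 k2
      obtain ⟨r, r1, r2, r3⟩ := h.dir g β k3 k6
      obtain ⟨s, s1, s2, s3⟩ := h.dir g β hq r1
      exact (k s η (g.valid s s1) s2 (h.sf_mono k4 (pb.trans _ _ _ s3 r2))
        ⟨j, x, k5, pb.trans _ _ _ s3 r3⟩).elim

theorem It.cont (he : Book M e) : Sm N K (fun _ : DSet N ℕ => True) := by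
  have := h.def_e
  obtain ⟨c, hc, H⟩ := hK.big.nat
  have hc' := DefF.up g.sub hc
  obtain ⟨T, h1, h2⟩ := exists_dset (g.eval (A := K × ℕ) (R := fun z x =>
    ∃ ξ k, c ξ = z.2 ∧ x ∈ e z.1 (ξ, ξ, k)) (by fun_prop)) (W := K) (X := ℕ)
    (R := fun β j => ∃ x, G x ∧ ∃ ξ k, c ξ = j ∧ x ∈ e β (ξ, ξ, k))
  refine ⟨T, h1, fun S _ => ?_⟩
  have := S.def_mem
  obtain ⟨n, h3, γ, -, h4⟩ := h.name g (Z := fun _ ξ => S.Mem (c ξ)) (by fun_prop)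
  obtain ⟨β, -, rfl⟩ := he.2 n h3 γ
  refine ⟨β, DSet.ext (funext fun j => propext ((h2 β j).trans ⟨?_, fun k => ?_⟩))⟩
  · rintro ⟨x, k1, ξ, k, rfl, k2⟩
    exact (h4 ξ ξ).2 ⟨k, x, k2, k1⟩
  · obtain ⟨ξ, rfl⟩ := H j trivial
    obtain ⟨k, x, k1, k2⟩ := (h4 ξ ξ).1 k
    exact ⟨x, k2, ξ, k, rfl, k1⟩

end Pool.Agent.P.MP_5a7d1f_lc.Gro
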