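import Mathlib.SetTheory.Cardinal.Regular
import Pool.Agent.P.MP_5a7d1f_lc.Gro.MA
import Pool.Agent.P.MP_5a7d1f_lc.Gro.Groth

/-!
The ground model and the final model.
-/

set_option synthInstance.maxSize 16384
set_option linter.unusedSectionVars false

namespace Pool.Agent.P.MP_5a7d1f_lc.Gro

open ZFSet Pool.Agent.Lib.Forcing Pool.Agent.Lib.Typed Pool.Agent.P.MP_af0a18_lc

/-- First order form of `Succ`. -/
def SuccZ (M : Set ZFSet.{0}) (w l k : ZFSet.{0}) : Prop :=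
  (∃ r ∈ M, Fn r ∧ ∀ a ∈ l, ∀ b ∈ l, ∃ c ∈ l, pair c (pair a b) ∈ r) ∧
    (∃ r ∈ M, Fn r ∧ ∀ n ∈ w, ∃ c ∈ l, pair c n ∈ r) ∧ (∃ a ∈ k, a = a) ∧
    (∀ a ∈ k, ∃ r ∈ M, Fn r ∧ ∀ b ∈ k, ¬ a ∈ b → ∃ c ∈ l, pair c b ∈ r) ∧
    ∀ s ∈ M, Fn s → ∃ b ∈ k, ∀ i ∈ l, ∀ y ∈ k, pair i y ∈ s → y ∈ b

instance (a b c : ℕ) : UDf (fun M e => SuccZ M (e a) (e b) (e c)) := by
  unfold SuccZ; infer_instance

/-- First order form of `Scale`. -/
def ScaleZ (M : Set ZFSet.{0}) (w k : ZFSet.{0}) : Prop :=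
  ∃ l ∈ k, ∃ f ∈ M, Fn f ∧ (∀ n ∈ w, ∃ a ∈ k, pair n a ∈ f) ∧
    (∀ n ∈ w, ∀ a ∈ k, pair n a ∈ f → a ∈ l ∧ ((¬ ∃ m ∈ w, m ∈ n) → SuccZ M w w a) ∧
      ∀ m ∈ w, ∀ b ∈ k, pair m b ∈ f → n ∈ m → a ∈ b ∧
        ((¬ ∃ j ∈ w, n ∈ j ∧ j ∈ m) → SuccZ M w a b)) ∧
    (∀ a ∈ k, a ∈ l → ∃ n ∈ w, ∃ b ∈ k, pair n b ∈ f ∧ a ∈ b) ∧ SuccZ M w l k

instance (a b : ℕ) : UDf (fun M e => ScaleZ M (e a) (e b)) := by unfold ScaleZ; infer_instance

/-- The sentence that is transferred to the ground model. -/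
def Base (M : Set ZFSet.{0}) : Prop :=
  G4 M ∧ ∃ w ∈ M, ∃ k ∈ M, IsOmega w ∧ k.IsOrdinal ∧ ScaleZ M w k

instance : UDf (fun M _ => Base M) := by unfold Base; infer_instance

variable {M : Set ZFSet.{0}} [ZFC M] {X L K : Type} [Coded M X] [Coded M L] [Coded M K]

theorem exists_fun_of_fn [Nonempty X] {r : ZFSet.{0}} (hr : r ∈ M) (h : Fn r) :
    ∃ g : L → X, DefF M g ∧ ∀ i x, pair (cd M i) (cd M x) ∈ r → g i = x := by
  obtain ⟨g, hg, H⟩ := choice' (N := M) (p := fun i : L => ∃ x : X, In M r (i, x))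
    (R := fun i (x : X) => In M r (i, x)) (DefF.isIn hr) fun _ k => k
  exact ⟨g, hg, fun i x k => Coded.inj (h _ _ (H i ⟨x, k⟩) _ k)⟩

theorem sm_iff [Nonempty X] {p : X → Prop} :
    Sm M L p ↔ ∃ r ∈ M, Fn r ∧ ∀ x, p x → ∃ c : L, pair (cd M c) (cd M x) ∈ r := by
  refine ⟨fun ⟨g, hg, H⟩ => ?_, fun ⟨r, h1, h2, h3⟩ => ?_⟩
  · obtain ⟨r, h1, h2, h3⟩ := exists_graph hg
    exact ⟨r, h1, h2, fun x hx => (H x hx).imp fun c (k : g c = x) => k ▸ h3 c⟩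
  · obtain ⟨g, hg, H⟩ := exists_fun_of_fn (L := L) (X := X) h1 h2
    exact ⟨g, hg, fun x hx => (h3 x hx).imp fun c => H c x⟩

theorem succ_iff [LinearOrder K] [hK : WO M K] (hlt : ∀ a b : K, cd M a ∈ cd M b ↔ a < b) :
    Succ M L K ↔ SuccZ M (car M ℕ) (car M L) (car M K) := by
  simp only [SuccZ, forall_car, exists_car, hlt, not_lt]
  constructor
  · intro h
    have := h.big
    have := Big.nonempty M L
    have := h.ne
    obtain ⟨r, h1, h2, h3⟩ := sm_iff.1 h.big.pair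
    refine ⟨⟨r, h1, h2, fun a b => h3 (a, b) trivial⟩, by simpa using sm_iff.1 h.big.nat,
      ⟨this.some, trivial⟩, fun a => sm_iff.1 (h.small a), fun s k1 k2 => ?_⟩
    obtain ⟨g, hg, H⟩ := exists_fun_of_fn (L := L) (X := K) k1 k2
    exact (h.bdd g hg).imp fun b k i y e => H i y e ▸ k i
  · rintro ⟨⟨r, h1, h2, h3⟩, h4, ⟨a, -⟩, h5, h6⟩
    have : Nonempty K := ⟨a⟩
    have h7 : Sm M L (fun _ : ℕ => True) := sm_iff.2 (by simpa using h4)
    have : Nonempty L := h7.elim fun _ k => ⟨(k.2 0 trivial).choose⟩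
    refine { hK with
      big := ⟨sm_iff.2 ⟨r, h1, h2, fun z _ => h3 z.1 z.2⟩, h7⟩
      ne := ‹_›
      small := fun a => sm_iff.2 (h5 a)
      bdd := fun s hs => ?_ }
    obtain ⟨r, k1, k2, k3⟩ := exists_graph hs
    exact (h6 r k1 k2).imp fun b k i => k i _ (k3 i)

section
variable {κ : ZFSet.{0}} [InM M κ] [hκ : Fact κ.IsOrdinal]

theorem car_lv (a : El κ) : car M (Lv a) = cd M a := by
  ext z
  rw [mem_car]
  refine ⟨?_, fun hz => ?_⟩
  · rintro ⟨x, rfl⟩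
    exact El.lt_iff.1 x.2
  · obtain ⟨x, rfl⟩ := El.exists_val (hκ.out.mem_trans hz a.val_mem)
    exact ⟨⟨x, El.lt_iff.2 hz⟩, rfl⟩

theorem succ_lv {a : El κ} : Succ M L (Lv a) ↔ SuccZ M (car M ℕ) (car M L) (cd M a) := by
  rw [← car_lv]
  exact succ_iff fun _ _ => El.lt_iff.symm

theorem scale_iff : (∃ (nu : ℕ → El κ) (lam : El κ), Scale M nu lam) ↔
    ScaleZ M (car M ℕ) (car M (El κ)) := by
  have h0 : ∀ a b : El κ, cd M a ∈ cd M b ↔ a < b := fun _ _ => El.lt_iff.symm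
  have h00 : ∀ a b : El κ, SuccZ M (car M ℕ) (cd M a) (cd M b) ↔ Succ M (Lv a) (Lv b) :=
    fun a b => by rw [succ_lv, car_lv]
  have h01 : ∀ a : El κ, SuccZ M (car M ℕ) (cd M a) (car M (El κ)) ↔ Succ M (Lv a) (El κ) :=
    fun a => by rw [succ_iff h0, car_lv]
  simp only [ScaleZ, forall_car, exists_car, h0, cd_nat_mem, ← succ_lv, h00, h01]
  constructor
  · rintro ⟨nu, lam, h⟩
    obtain ⟨f, h1, h2, h3⟩ := exists_graph h.def_nu
    have h4 : ∀ (n : ℕ) (a : El κ), pair (cd M n) (cd M a) ∈ f → nu n = a := fun n a k =>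
      Coded.inj (h2 _ _ (h3 n) _ k)
    refine ⟨lam, f, h1, h2, fun n => ⟨_, h3 n⟩, fun n a k => ?_, fun a k => ?_, h.top⟩
    · obtain rfl := h4 n a k
      refine ⟨h.lt n, fun k1 => ?_, fun m b k1 k2 => ?_⟩
      · obtain rfl : n = 0 := by_contra fun e => k1 ⟨0, Nat.pos_of_ne_zero e⟩
        exact h.zero
      · obtain rfl := h4 m b k1
        refine ⟨h.mono k2, fun k3 => ?_⟩
        obtain rfl : m = n + 1 := by_contra fun e => k3 ⟨n + 1, by omega, by omega⟩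
        exact h.succ n
    · exact (h.cof a k).imp fun n k => ⟨_, h3 n, k⟩
  · rintro ⟨lam, f, h1, h2, h3, h4, h5, h6⟩
    have : Nonempty (El κ) := ⟨lam⟩
    obtain ⟨nu, k1, k2⟩ := exists_fun_of_fn (L := ℕ) (X := El κ) h1 h2
    have k3 : ∀ n : ℕ, pair (cd M n) (cd M (nu n)) ∈ f := fun n => (h3 n).elim fun a k => k2 n a k ▸ k
    refine ⟨nu, lam, k1, fun n m k => ((h4 n _ (k3 n)).2.2 m _ (k3 m) k).1,
      fun n => (h4 n _ (k3 n)).1, fun a k => ?_, (h4 0 _ (k3 0)).2.1 (by simp), fun n => ?_, h6⟩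
    · obtain ⟨n, b, k4, k5⟩ := h5 a k
      exact ⟨n, k2 n b k4 ▸ k5⟩
    · exact ((h4 n _ (k3 n)).2.2 _ _ (k3 _) n.lt_succ_self).2 fun ⟨j, _, _⟩ => by omega

end

open Cardinal in
theorem mk_of_range {K : Type} {r : K → Ordinal.{0}} (hr : Function.Injective r) {o : Ordinal.{0}}
    (h : ∀ x, (∃ k, r k = x) ↔ x < o) : #K = o.card := by
  rw [← lift_inj.{0, 1}, ← mk_Iio_ordinal, ← mk_range_eq_of_injective hr, lift_id',
    show Set.range r = Set.Iio o from Set.ext h]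

open Cardinal in
theorem succ_univ {L K : Type} [Coded Set.univ L] [Coded Set.univ K] [LinearOrder K]
    [hK : WO Set.univ K] {r : K → Ordinal.{0}} (hr : StrictMono r) {c : Cardinal.{0}} (hc : ℵ₀ ≤ c)
    (hL : #L = c) (h : ∀ x, (∃ k, r k = x) ↔ x < (Order.succ c).ord) : Succ Set.univ L K := by
  have h1 : ∀ (X : Type) [Coded Set.univ X] [Nonempty X] (p : X → Prop), #{x // p x} ≤ c →
      Sm Set.univ L p := fun X _ _ p k => by
    obtain ⟨j⟩ := (Cardinal.le_def _ _).1 (k.trans hL.ge)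
    exact ⟨_, defF_univ (Function.extend j Subtype.val fun _ => Classical.arbitrary X),
      fun x hx => ⟨j ⟨x, hx⟩, j.injective.extend_apply _ _ _⟩⟩
  have h2 := isRegular_succ hc
  have : Infinite L := infinite_iff.2 (hL ▸ hc)
  have : Nonempty K := ((h 0).2 h2.ord_pos).elim fun k _ => ⟨k⟩
  refine { hK with
    big := ⟨h1 _ _ ((mk_subtype_le _).trans (by simp [hL, mul_eq_self hc])),
      h1 _ _ ((mk_subtype_le _).trans (by simpa using hc))⟩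
    ne := ‹_›
    small := fun a => h1 _ _ ?_
    bdd := fun s _ => ?_ }
  · rw [mk_of_range (r := fun x : {b // b ≤ a} => r x.1) (o := r a + 1)
      (hr.injective.comp Subtype.val_injective) fun x => ⟨?_, fun k => ?_⟩, card_le_iff]
    · exact (isSuccLimit_ord h2.aleph0_le).add_one_lt ((h _).1 ⟨a, rfl⟩)
    · rintro ⟨k, rfl⟩
      exact Order.lt_add_one_iff.2 (hr.monotone k.2)
    · rw [Order.lt_add_one_iff] at k
      obtain ⟨b, rfl⟩ := (h x).2 (k.trans_lt ((h _).1 ⟨a, rfl⟩))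
      exact ⟨⟨b, hr.le_iff_le.1 k⟩, rfl⟩
  · obtain ⟨b, hb⟩ := (h _).2 (Ordinal.iSup_add_one_lt_of_lt_cof (f := fun i => r (s i))
      (by rw [h2.cof_ord, hL]; exact Order.lt_succ c) fun i => (h _).1 ⟨_, rfl⟩)
    exact ⟨b, fun i => hr.lt_iff_lt.1 (hb ▸ Ordinal.lt_iSup_add_one (fun i => r (s i)) i)⟩

open Cardinal Ordinal in
theorem base_univ : Base Set.univ := by
  let κ : ZFSet.{0} := toZFSet (ℵ_ (ω + 1)).ord
  have : Fact κ.IsOrdinal := ⟨isOrdinal_toZFSet _⟩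
  refine ⟨g4, car Set.univ ℕ, trivial, car Set.univ (El κ), trivial, isOmega_iff.2 car_nat,
    by rw [car_el]; exact this.out, scale_iff.1 ?_⟩
  have h1 : ∀ x, (∃ k : El κ, k.val.rank = x) ↔ x < (ℵ_ (ω + 1)).ord := fun x =>
    ⟨fun ⟨k, e⟩ => by
      obtain ⟨a, ha, e'⟩ := mem_toZFSet_iff.1 k.val_mem
      rwa [← e, ← e', rank_toZFSet], fun k => (El.exists_val (toZFSet_mem_toZFSet_iff.2 k)).imp
        fun _ e => by rw [e, rank_toZFSet]⟩
  have h2 : ∀ (a : El κ) x, (∃ k : Lv a, k.1.val.rank = x) ↔ x < a.val.rank := fun a x =>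
    ⟨fun ⟨k, e⟩ => e ▸ k.2, fun k => ((h1 x).2 (k.trans ((h1 _).1 ⟨a, rfl⟩))).elim fun b e =>
      ⟨⟨b, show b.val.rank < a.val.rank from e ▸ k⟩, e⟩⟩
  have h3 : StrictMono fun k : El κ => k.val.rank := fun _ _ h => h
  have h4 : ∀ a : El κ, StrictMono fun k : Lv a => k.1.val.rank := fun _ _ _ h => h
  obtain ⟨lam, h5⟩ := (h1 (ℵ_ ω).ord).2 (by simp)
  choose nu h6 using fun n : ℕ => (h1 (ℵ_ (n + 1)).ord).2 (by simp [natCast_lt_omega0])
  refine ⟨nu, lam, defF_univ _, fun n m k => h3.lt_iff_lt.1 ?_, fun n => h3.lt_iff_lt.1 ?_,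
    fun a k => ?_, succ_univ (h4 _) le_rfl mk_nat ?_, fun n => succ_univ (h4 _)
      (aleph0_le_aleph (n + 1)) ((mk_of_range (h4 _).injective (h2 _)).trans ?_) ?_,
    succ_univ h3 (aleph0_le_aleph ω) ((mk_of_range (h4 _).injective (h2 _)).trans ?_) ?_⟩
  · simpa [h6] using k
  · rw [h6, h5, ord_lt_ord, aleph_lt_aleph]
    exact_mod_cast natCast_lt_omega0 (n + 1)
  · have k1 : a.val.rank.card < ℵ_ ω := lt_ord.1 (h5 ▸ h3 k)
    obtain ⟨o, k2, k3⟩ := (isNormal_aleph.lt_iff_exists_lt isSuccLimit_omega0).1 k1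
    obtain ⟨n, rfl⟩ := lt_omega0.1 k2
    exact ⟨n, h3.lt_iff_lt.1 (h6 n ▸ lt_ord.2 (k3.trans (by simp)))⟩
  · simpa [h6] using h2 (nu 0)
  · simp [h6]
  · simpa [h6] using h2 (nu (n + 1))
  · simp [h5]
  · simpa using h1

theorem exists_model : ∃ N : Set ZFSet.{0}, N.Countable ∧ IsZFModel N ∧ Choice N ∧ MAIn N ∧
    ∀ (A : Type) [BooleanAlgebra A] [Infinite A] (c : A → ZFSet.{0}),
      IsAlgebraIn N c → GrothendieckIn N c → ContainsBetaIn N c := by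
  obtain ⟨M, j, hMc, hj⟩ := exists_countable_isElem.{0}
  have hM := hj.isZFModel
  have := hM.zfm
  obtain ⟨g4, w, -, κ, hκ, h1, ho, h2⟩ := hj.sentence Base base_univ
  obtain rfl := isOmega_iff.1 h1
  have := zfc_of hM (choice_of_enum g4)
  have : Enum M := ⟨g4⟩
  have := InM.mk hκ
  have := Fact.mk ho
  obtain ⟨nu, lam, sc⟩ := (scale_iff (M := M) (κ := κ)).2 (by rwa [car_nat, car_el])
  have := sc.top
  have := sc.top.big
  obtain ⟨M', _, _, hM', hc', G, g⟩ := exists_gen hM hMc (po_bLe (K := El κ)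
    (I := Lv lam × Lv lam × ℕ) (Y := List (Cond (El κ) (Lv lam))))
    ⟨(lam, ⟨fun _ => [], DefF.const _⟩), trivial⟩
  have := InM.mk (g.sub hκ)
  obtain ⟨h3, e, he⟩ := g.book (L := Lv lam) (sm_self.prod' (sm_self.prod' Big.nat))
  have sc' := sc.up g.sub h3
  have := sc'.top
  have := sc.top.big.nonempty
  obtain ⟨d, hd⟩ := exists_it he.1
  obtain ⟨N, hZ, _, hN, hc, H, g'⟩ := exists_gen hM' hc'
    (hd.po (J := fun _ => True) (fun _ _ _ k => k) (DefF.const _)) ⟨[], by simp [Fu]⟩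
  have := InM.mk (g'.sub (g.sub hκ))
  have sc'' := sc'.up g'.sub (g'.cover hd.ccc)
  have := sc''.top
  exact ⟨N, hc, hN, hZ.ac, (hd.mat g' he).maIn (hd.cont g' he),
    fun A _ _ => sc''.main (hd.mat g' he) (hd.cont g' he)⟩

end Pool.Agent.P.MP_5a7d1f_lc.Gro
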