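import Pool.Agent.P.MP_5a7d1f_lc.Gro.Meas

/-!
A measure of large type gives a large independent family under MA.
-/

set_option synthInstance.maxSize 16384
set_option linter.unusedSectionVars false

namespace Pool.Agent.P.MP_5a7d1f_lc.Gro

open Filter Pool.Agent.Lib.Typed

variable {N : Set ZFSet.{0}} [ZFC N]
variable {W L L' : Type} [Coded N W] [Coded N L] [Coded N L']
variable {A : Type} [Coded N A] [BooleanAlgebra A] [hA : BA N A] {μ : A → ℝ}

/-- The measures of the terms are bounded away from zero. -/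
def Pos {A : Type} (μ : A → ℝ) (z : ℕ → A) : Prop := ∃ k, ∀ n, ep k ≤ μ (z n)

/-- Decreasing sequences of positive measure. -/
def CV (μ : A → ℝ) (z : DFun N ℕ A) : Prop := (∀ n m, n ≤ m → z.app m ≤ z.app n) ∧ Pos μ z.app

/-- Inclusion of the closed sets given by two decreasing sequences. -/
def CLe (z' z : DFun N ℕ A) : Prop := ∀ n, ∃ m, z'.app m ≤ z.app n

theorem defF_pos (hμ : RealFn N μ) {X : Type} [Coded N X] {z : X → ℕ → A}
    (hz : DefF N (fun w : X × ℕ => z w.1 w.2)) : DefF N (fun w => Pos μ (z w)) := by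
  unfold Pos
  simp only [all_eq]
  fun_prop

theorem po_closed (hμ : RealFn N μ) : Po N (CV (N := N) μ) CLe :=
  ⟨by unfold CV Pos; simp only [all_eq, imp_eq]; fun_prop,
    by unfold CLe; simp only [all_eq]; fun_prop, fun _ n => ⟨n, le_rfl⟩, fun _ _ _ h h' n => by
      obtain ⟨m, hm⟩ := h' n
      exact (h m).imp fun _ h => h.trans hm⟩

omit hA in
theorem Pos.mono (h : Meas μ) {z z' : ℕ → A} (hz : Pos μ z) (hle : ∀ n, ∃ m, z m ≤ z' n) :
    Pos μ z' := hz.imp fun _ hk n => (hle n).elim fun m hm => (hk m).trans (h.mono hm)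

omit hA in
theorem Pos.ne_bot (h : Meas μ) {z : ℕ → A} (hz : Pos μ z) (n : ℕ) : z n ≠ ⊥ := fun e => by
  obtain ⟨k, hk⟩ := hz
  exact (ep_pos k).not_ge (by simpa [e, h.bot] using hk n)

theorem CV.le_inf {μ : A → ℝ} {r z z' : DFun N ℕ A} (hr : CV μ r) (h : CLe r z) (h' : CLe r z')
    (n n' : ℕ) : ∃ m, r.app m ≤ z.app n ⊓ z'.app n' := by
  obtain ⟨m, hm⟩ := h n
  obtain ⟨m', hm'⟩ := h' n'
  exact ⟨max m m', _root_.le_inf ((hr.1 _ _ (le_max_left _ _)).trans hm)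
    ((hr.1 _ _ (le_max_right _ _)).trans hm')⟩

omit hA [Coded N A] in
theorem Meas.card_le (h : Meas μ) {ι : Type} {c : ι → A} {ε η : ℝ} (hη : 0 ≤ η) (s : Finset ι)
    (h1 : ∀ i ∈ s, ε ≤ μ (c i)) (h2 : ∀ i ∈ s, ∀ j ∈ s, i ≠ j → μ (c i ⊓ c j) ≤ η) :
    s.card * ε - s.card ^ 2 * η ≤ μ (s.sup c) := by
  classical
  have k1 : ∀ (a : A) (t : Finset ι), (∀ j ∈ t, μ (a ⊓ c j) ≤ η) →
      μ (a ⊓ t.sup c) ≤ t.card * η := fun a t => by
    induction t using Finset.induction_on with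
    | empty => simp [h.bot]
    | insert j t hj ih =>
      intro H
      rw [Finset.sup_insert, Finset.card_insert_of_notMem hj, inf_sup_left]
      have := ih fun i hi => H i (Finset.mem_insert_of_mem hi)
      have := H j (Finset.mem_insert_self _ _)
      push_cast
      linarith [h.sup_le (le_refl (a ⊓ c j ⊔ a ⊓ t.sup c))]
  induction s using Finset.induction_on with
  | empty => simp [h.bot]
  | insert j t hj ih =>
    rw [Finset.sup_insert, Finset.card_insert_of_notMem hj]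
    have k2 := ih (fun i hi => h1 i (Finset.mem_insert_of_mem hi)) fun i hi i' hi' =>
      h2 i (Finset.mem_insert_of_mem hi) i' (Finset.mem_insert_of_mem hi')
    have k3 := k1 (c j) t fun i hi => h2 j (Finset.mem_insert_self _ _) i
      (Finset.mem_insert_of_mem hi) fun e => hj (e ▸ hi)
    have k4 := h1 j (Finset.mem_insert_self _ _)
    have k5 : 0 ≤ (t.card : ℝ) * η := by positivity
    push_cast
    nlinarith [h.sup (c j) (t.sup c)]

theorem ccc_closed (hμ : RealFn N μ) (h : Meas μ) : Ccc N (CV (N := N) μ) CLe := by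
  intro S h1 h2
  have := S.def_mem
  have : Nonempty (DFun N ℕ A) := ⟨⟨fun _ => ⊤, by fun_prop⟩⟩
  refine (Sm.biUnion (L := ℕ) sm_self (R := fun k z => S.Mem z ∧ ∀ n, ep k ≤ μ (z.app n))
    (by simp only [all_eq]; fun_prop) fun k => sm_finite ?_).mono
      fun z hz => (h1 z hz).2.imp fun _ h => ⟨trivial, hz, h⟩
  by_contra hinf
  obtain ⟨s, k1, k2⟩ := (Set.not_finite.1 hinf).exists_subset_card_eq (k + 2)
  obtain ⟨j, hj⟩ := exists_ep (show 0 < ep k / (k + 2) ^ 2 by have := ep_pos k; positivity)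
  have k3 : ∀ᶠ n in atTop, ∀ z ∈ s, ∀ z' ∈ s, z ≠ z' → μ (z.app n ⊓ z'.app n) ≤ ep j :=
    (eventually_all_finset _).2 fun z hz => (eventually_all_finset _).2 fun z' hz' => by
      by_cases e : z = z'
      · exact Eventually.of_forall fun _ h => (h e).elim
      have k4 := (h1 z (k1 hz).1).1
      have k5 := (h1 z' (k1 hz').1).1
      have := z.def_app
      have := z'.def_app
      by_contra k6
      refine h2 z z' (k1 hz).1 (k1 hz').1 e ⟨⟨fun n => z.app n ⊓ z'.app n, by fun_prop⟩,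
        ⟨fun n m hnm => inf_le_inf (k4 n m hnm) (k5 n m hnm), j, fun n => by_contra fun k7 =>
          k6 (eventually_atTop.2 ⟨n, fun m hm _ => (h.mono (inf_le_inf (k4 n m hm)
            (k5 n m hm))).trans (not_le.1 k7).le⟩)⟩,
        fun n => ⟨n, inf_le_left⟩, fun n => ⟨n, inf_le_right⟩⟩
  obtain ⟨n, hn⟩ := k3.exists
  have k4 := (h.card_le (ep_pos j).le s (fun z hz => (k1 hz).2 n) hn).trans (h.le_one _)
  rw [k2] at k4
  rw [lt_div_iff₀ (by positivity)] at hj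
  have k5 : ((k : ℝ) + 1) * ep k = 1 := by unfold ep; field_simp
  push_cast at k4
  nlinarith

theorem exists_undecided [Enum N] (hμ : RealFn N μ) (h : Meas μ) {b : W → A} (hb : DefF N b)
    {J : W → Prop} (hJ : DefF N J) {a : A}
    (ha : ∃ n, ∀ c, Det b J c → ep n ≤ μ (a ⊓ cᶜ) + μ (aᶜ ⊓ c)) :
    ∃ Z : DFun N ℕ A, CV μ Z ∧ (∀ n, Det b J (Z.app n)) ∧ ∀ z : DFun N ℕ A, CV μ z →
      (∀ n, Det b J (z.app n)) → (∀ n, z.app n ≤ Z.app n) →
      Pos μ (fun n => z.app n ⊓ a) ∧ Pos μ (fun n => z.app n ⊓ aᶜ) := by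
  by_contra hcon
  push Not at hcon
  obtain ⟨n0, ha⟩ := ha
  have po := po_closed (N := N) hμ
  have := po.defV
  have h1 := defF_pos hμ (z := fun (z : DFun N ℕ A) n => z.app n ⊓ a) (by fun_prop)
  have h2 := defF_pos hμ (z := fun (z : DFun N ℕ A) n => z.app n ⊓ aᶜ) (by fun_prop)
  obtain ⟨z0, k1, k2, -, k3⟩ := hcon ⟨fun _ => ⊤, by fun_prop⟩
    ⟨fun _ _ _ => le_rfl, 0, fun _ => by simp [ep, h.top]⟩ fun _ => det_top
  obtain ⟨c, hc, c1, c2⟩ := po.predense (ccc_closed hμ h) (E := fun z => (∀ n, Det b J (z.app n)) ∧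
      (Pos μ (fun n => z.app n ⊓ a) → ¬ Pos μ (fun n => z.app n ⊓ aᶜ)))
    (DefF.and (by simp only [all_eq]; fun_prop) (DefF.imp h1 h2.not)) ⟨z0, k2, k3⟩
  have small : ∀ z : ℕ → A, ¬ Pos μ z → ∀ ε, 0 < ε → ∃ n, μ (z n) < ε := fun z hz ε hε => by
    obtain ⟨k, hk⟩ := exists_ep hε
    by_contra k4
    push Not at k4
    exact hz ⟨k, fun n => hk.le.trans (k4 n)⟩
  obtain ⟨s, hs, -, s1, s2⟩ := dc (N := N) (X := A × A)
    (I := fun _ w => Det b J w.1 ∧ Det b J w.2 ∧ μ (w.1 ⊓ aᶜ) < ep (3 * n0 + 2) ∧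
      μ (w.2 ⊓ a) < ep (3 * n0 + 2))
    (R := fun k w w' => w.1 ⊔ w.2 ≤ w'.1 ⊔ w'.2 ∧ ∃ n, (c k).app n ≤ w'.1 ⊔ w'.2)
    (by fun_prop) (by fun_prop) (fun k w ⟨w1, w2, w3, w4⟩ => by
      by_cases k4 : Pos μ (fun n => (c k).app n ⊓ a)
      · obtain ⟨n, hn⟩ := small _ ((c1 k).2 k4) _ (sub_pos.2 w3)
        refine ⟨(w.1 ⊔ (c k).app n, w.2), ⟨w1.sup ((c1 k).1 n), w2, ?_, w4⟩,
          sup_le_sup_right le_sup_left _, n, le_sup_right.trans le_sup_left⟩
        linarith [h.sup_le (inf_sup_right w.1 ((c k).app n) aᶜ).le]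
      · obtain ⟨n, hn⟩ := small _ k4 _ (sub_pos.2 w4)
        refine ⟨(w.1, w.2 ⊔ (c k).app n), ⟨w1, w2.sup ((c1 k).1 n), w3, ?_⟩,
          sup_le_sup_left le_sup_left _, n, le_sup_right.trans le_sup_right⟩
        linarith [h.sup_le (inf_sup_right w.2 ((c k).app n) a).le])
    (x0 := (⊥, ⊥)) ⟨det_bot, det_bot, by simpa [h.bot] using ep_pos _, by simpa [h.bot] using ep_pos _⟩
  have k4 : ¬ Pos μ (fun k => ((s k).1 ⊔ (s k).2)ᶜ) := fun k4 => by
    obtain ⟨z, k5, k6, k7, k8⟩ := hcon ⟨fun k => ((s k).1 ⊔ (s k).2)ᶜ, by fun_prop⟩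
      ⟨fun n m hnm => compl_le_compl
        (monotone_nat_of_le_succ (f := fun k => (s k).1 ⊔ (s k).2) (fun k => (s2 k).1) hnm), k4⟩
      fun k => ((s1 k).1.sup (s1 k).2.1).compl
    obtain ⟨i, r, k9, k10, k11⟩ := c2 z z ⟨k6, k8⟩ k5 (po.refl z)
    obtain ⟨n, hn⟩ := (s2 i).2
    obtain ⟨m, hm⟩ := k9.le_inf k10 k11 (i + 1) n
    exact k9.2.ne_bot h m (le_bot_iff.1 (hm.trans ((inf_le_inf (k7 _) hn).trans
      compl_inf_eq_bot.le)))
  obtain ⟨k, hk⟩ := small _ k4 _ (ep_pos (3 * n0 + 2))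
  have k5 := ha _ (s1 k).1
  have k6 : ep n0 = 3 * ep (3 * n0 + 2) := by unfold ep; push_cast; field_simp; ring
  have k7 : a ⊓ (s k).1ᶜ ≤ ((s k).1 ⊔ (s k).2)ᶜ ⊔ (s k).2 ⊓ a := by
    rw [compl_sup, sup_inf_left, sup_inf_right]
    exact le_inf (le_inf (inf_le_right.trans le_sup_left) (by simp)) (inf_le_left.trans le_sup_right)
  rw [inf_comm aᶜ] at k5
  linarith [h.sup_le k7, (s1 k).2.2.1, (s1 k).2.2.2]

/-- A large independent family. -/
theorem exists_indep [Enum N] (V : Type) [Coded N V] [LinearOrder V] [Succ N ℕ V] [LinearOrder W]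
    [hW : Succ N L' W] (hV : Sm N L' (fun _ : V => True)) (ma : MAT N L)
    (hL : Sm N L (fun _ : W => True)) (hμ : RealFn N μ) (h : Meas μ) {b : W → A} (hb : DefF N b)
    (hd : ∀ α, ∃ n, ∀ c, Det b (fun r => r < α) c → ep n ≤ μ (b α ⊓ cᶜ) + μ ((b α)ᶜ ⊓ c)) :
    ∃ H : W → Prop, DefF N H ∧ (∀ a, ∃ β, a ≤ β ∧ H β) ∧ Indep b H := by
  classical
  have := hW.big
  have := hW.ne
  have po := po_closed (N := N) hμ
  have := po.defV
  have h1 := defF_pos hμ (z := fun (w : DFun N ℕ A × A) n => w.1.app n ⊓ w.2) (by fun_prop)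
  obtain ⟨Z, hZ, HZ⟩ := choice (N := N) (R := fun (α : W) (Z : DFun N ℕ A) => CV μ Z ∧
      (∀ n, Det b (fun r => r < α) (Z.app n)) ∧ ∀ z : DFun N ℕ A, CV μ z →
      (∀ n, Det b (fun r => r < α) (z.app n)) → (∀ n, z.app n ≤ Z.app n) →
      Pos μ (fun n => z.app n ⊓ b α) ∧ Pos μ (fun n => z.app n ⊓ (b α)ᶜ))
    (by unfold Pos; simp only [all_eq, imp_eq]; fun_prop)
    fun α => exists_undecided hμ h hb (by fun_prop) (hd α)
  obtain ⟨D, hD, HD⟩ := choice (N := N) (R := fun (w : W × ℕ) (D : List W) => (∀ r ∈ D, r < w.1) ∧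
      ∀ p : List (W × Prop), (∀ r ∈ D, ∃ s, (r, s) ∈ p) →
        cell b p ≤ (Z w.1).app w.2 ∨ cell b p ≤ ((Z w.1).app w.2)ᶜ)
    (by simp only [all_eq, imp_eq]; fun_prop) fun w => (HZ w.1).2.1 w.2
  obtain ⟨γ, hγ⟩ := setmap (N := N) (L0 := ℕ) (L := L') (K := W) V Big.nat hV
    (F := fun α r => ∃ n, r ∈ D (α, n)) (by fun_prop) fun α =>
      (Sm.biUnion (L := ℕ) sm_self (R := fun n r => r ∈ D (α, n)) (by fun_prop)
        fun _ => sm_mem_list _).mono fun _ h => h.imp fun _ h => ⟨trivial, h⟩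
  obtain ⟨H, hH, H1, H2, H3⟩ := ma.precal (L' := L') hL po (ccc_closed hμ h) hZ
    (H := fun β => γ ≤ β ∧ ∀ n, Det b (fun r => r < γ) ((Z β).app n))
    (by simp only [all_eq]; fun_prop) (fun a => (hγ a).imp fun β k => ⟨k.1, k.2.1, fun n =>
      ⟨D (β, n), fun r hr => k.2.2.1 r ⟨n, hr⟩ ((HD (β, n)).1 r hr), (HD (β, n)).2⟩⟩)
    fun a _ => (HZ a).1
  refine ⟨H, hH, H2, fun l hl => ?_⟩
  have k0 : ∀ a ∈ l.map Prod.fst, H a := by simpa using fun a s h => (hl (a, s) h).1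
  obtain ⟨r, k1, k2⟩ := H3 _ k0
  obtain ⟨E, hE⟩ : ∃ E : ℕ → A, E = fun n => lmeet ((l.map Prod.fst).map fun α => (Z α).app n) :=
    ⟨_, rfl⟩
  have e1 : DefF N E := by rw [hE]; fun_prop
  have e2 : ∀ n x, x ≤ E n ↔ ∀ α ∈ l.map Prod.fst, x ≤ (Z α).app n := fun n x => by
    rw [hE]
    simp only [le_lmeet, List.forall_mem_map]
  have e3 : ∀ n m, n ≤ m → E m ≤ E n := fun n m hnm => (e2 _ _).2 fun α hα =>
    ((e2 _ _).1 le_rfl α hα).trans ((HZ α).1.1 n m hnm)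
  have e4 : ∀ n, Det b (fun r => r < γ) (E n) := fun n => by
    rw [hE]
    generalize l.map Prod.fst = m at k0
    induction m with
    | nil => exact det_top
    | cons a m ih =>
      rw [List.forall_mem_cons] at k0
      exact ((H1 a k0.1).2 n).inf (ih k0.2)
  have e5 : Pos μ E := k1.2.mono h fun n => by
    have k3 : ∀ᶠ m in atTop, ∀ α ∈ {α | α ∈ l.map Prod.fst}, r.app m ≤ (Z α).app n :=
      (eventually_all_finite (List.finite_toSet _)).2 fun α hα => (k2 α hα n).elim fun m hm =>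
        eventually_atTop.2 ⟨m, fun m' h => (k1.1 m m' h).trans hm⟩
    exact k3.exists.imp fun m hm => (e2 _ _).2 hm
  have key : ∀ s : Finset W, (∀ a ∈ s, a ∈ l.map Prod.fst) →
      Pos μ (fun n => E n ⊓ s.inf fun a => lit b (a, (a, True) ∈ l)) := fun s => by
    induction s using Finset.induction_on_max with
    | empty => simpa using e5
    | insert a s hs ih =>
      intro k3
      have k4 := k3 a (Finset.mem_insert_self _ _)
      have k5 : Det b (fun r => r < a) (s.inf fun a => lit b (a, (a, True) ∈ l)) :=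
        Finset.inf_induction det_top (fun _ h _ h' => h.inf h') fun x hx => det_lit (hs x hx)
      have k6 := (HZ a).2.2 ⟨fun n => E n ⊓ s.inf fun a => lit b (a, (a, True) ∈ l), by fun_prop⟩
        ⟨fun n m hnm => inf_le_inf_right _ (e3 n m hnm),
          ih fun x hx => k3 x (Finset.mem_insert_of_mem hx)⟩
        (fun n => ((e4 n).mono fun r hr => hr.trans_le (H1 a (k0 a k4)).1).inf k5)
        fun n => inf_le_left.trans ((e2 _ _).1 le_rfl a k4)
      simp only [Finset.inf_insert, inf_comm (lit b (a, (a, True) ∈ l)), ← inf_assoc]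
      by_cases k7 : (a, True) ∈ l
      · simpa [k7] using k6.1
      · simpa [k7] using k6.2
  refine ne_bot_of_le_ne_bot ((key (l.map Prod.fst).toFinset (by simp)).ne_bot h 0)
    (inf_le_right.trans (le_cell.2 fun z hz => (Finset.inf_le (b := z.1)
      (List.mem_toFinset.2 (List.mem_map_of_mem hz))).trans_eq ?_))
  congr 1
  refine Prod.ext rfl (propext ⟨fun k => ((hl _ k).2 z hz rfl).mp trivial, fun k => ?_⟩)
  rwa [← eq_true k]

end Pool.Agent.P.MP_5a7d1f_lc.Gro
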