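import Mathlib.Topology.Order.LiminfLimsup
import Mathlib.Analysis.SpecificLimits.Basic
import Pool.Agent.P.MP_5a7d1f_lc.Gro.Alg
import Pool.Agent.P.MP_5a7d1f_lc.Gro.Ccc

/-!
Finitely additive measures in `N` and a measure of large type.
-/

set_option synthInstance.maxSize 16384
set_option linter.unusedSectionVars false

namespace Pool.Agent.P.MP_5a7d1f_lc.Gro

open Filter Topology Pool.Agent.Lib.Typed

variable {N : Set ZFSet.{0}} [ZFC N]
variable {X W R L : Type} [Coded N X] [Coded N W] [Coded N R] [Coded N L]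
variable {A : Type} [Coded N A] [BooleanAlgebra A] [hA : BA N A]

open Classical in
/-- The indicator of a proposition. -/
noncomputable def ind (p : Prop) : ℝ := if p then 1 else 0

/-- The mean of `g` over a list. -/
noncomputable def av {X : Type} (l : List X) (g : X → ℝ) : ℝ := (l.map g).sum / l.length

@[fun_prop] theorem RealFn.ind {p : W → Prop} (hp : DefF N p) : RealFn N (fun w => ind (p w)) := by
  unfold Gro.ind
  fun_prop

@[fun_prop] theorem RealFn.av {l : W → List X} {g : W → X → ℝ} (hl : DefF N l)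
    (hg : RealFn N (fun z : W × X => g z.1 z.2)) : RealFn N (fun w => av (l w) (g w)) :=
  (hg.sum hl).div_nat hl.length

theorem ind_nonneg (p : Prop) : 0 ≤ ind p := by unfold ind; split_ifs <;> simp

theorem abs_ind_le (p : Prop) : |ind p| ≤ 1 := by unfold ind; split_ifs <;> simp

theorem av_congr {X : Type} {l : List X} {g g' : X → ℝ} (h : ∀ x ∈ l, g x = g' x) :
    av l g = av l g' := by rw [av, av, List.map_congr_left h]

theorem av_add {X : Type} (l : List X) (g g' : X → ℝ) :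
    av l (fun x => g x + g' x) = av l g + av l g' := by
  rw [av, av, av, List.sum_map_add, add_div]

theorem av_mul {X : Type} (l : List X) (t : ℝ) (g : X → ℝ) :
    av l (fun x => t * g x) = t * av l g := by
  rw [av, av, List.sum_map_mul_left, mul_div_assoc]

theorem av_const {X : Type} {l : List X} (h : l ≠ []) (t : ℝ) : av l (fun _ => t) = t := by
  have : (l.length : ℝ) ≠ 0 := by simpa using h
  simp [av, mul_div_cancel_left₀ _ this]

theorem av_zero {X : Type} (l : List X) : av l (fun _ => 0) = 0 := by simp [av]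

theorem av_mono {X : Type} {l : List X} {g g' : X → ℝ} (h : ∀ x ∈ l, g x ≤ g' x) :
    av l g ≤ av l g' :=
  div_le_div_of_nonneg_right (List.sum_le_sum h) (Nat.cast_nonneg _)

theorem abs_av_le {X : Type} {l : List X} {g : X → ℝ} {r : ℝ} (hr : 0 ≤ r)
    (h : ∀ x ∈ l, |g x| ≤ r) : |av l g| ≤ r := by
  by_cases hl : l = []
  · simpa [hl, av] using hr
  · rw [abs_le]
    exact ⟨(av_const hl _).ge.trans (av_mono fun x hx => (abs_le.1 (h x hx)).1),
      (av_mono fun x hx => (abs_le.1 (h x hx)).2).trans (av_const hl _).le⟩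

theorem av_map {X Y : Type} (l : List X) (f : X → Y) (g : Y → ℝ) :
    av (l.map f) g = av l (fun x => g (f x)) := by simp [av, Function.comp_def]

theorem exists_mid {X : Type} {l l' : List X} (h : l ≠ []) (h' : l' ≠ []) :
    ∃ m : List X, m ≠ [] ∧ (∀ x ∈ m, x ∈ l ∨ x ∈ l') ∧ ∀ g, av m g = (av l g + av l' g) / 2 := by
  have k1 : ∀ (n : ℕ) (l : List X) (g : X → ℝ),
      ((l.flatMap (List.replicate n)).map g).sum = n * (l.map g).sum := fun n l g => by
    induction l with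
    | nil => simp
    | cons a l ih => simp [ih, mul_add]
  have k2 : ∀ (n : ℕ) (l : List X), (l.flatMap (List.replicate n)).length = n * l.length :=
    fun n l => by
      induction l with
      | nil => simp
      | cons a l ih => simp only [List.flatMap_cons, List.length_append, ih]; simp; ring
  have k3 : (l.length : ℝ) ≠ 0 := by simpa using h
  have k4 : (l'.length : ℝ) ≠ 0 := by simpa using h'
  refine ⟨l.flatMap (List.replicate l'.length) ++ l'.flatMap (List.replicate l.length), ?_, ?_,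
    fun g => ?_⟩
  · rw [← List.length_pos_iff, List.length_append, k2, k2]
    have := List.length_pos_iff.2 h
    have := List.length_pos_iff.2 h'
    positivity
  · simp only [List.mem_append, List.mem_flatMap, List.mem_replicate]
    rintro x (⟨y, h, -, rfl⟩ | ⟨y, h, -, rfl⟩)
    exacts [Or.inl h, Or.inr h]
  · rw [av, av, av, List.map_append, List.sum_append, k1, k1, List.length_append, k2, k2]
    push_cast
    field_simp
    ring

/-- The consequence of the Grothendieck property for measures with finite support. -/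
def GStar (N : Set ZFSet.{0}) [ZFC N] (A : Type) [Coded N A] [BooleanAlgebra A] [BA N A] : Prop :=
  ∀ l l' : ℕ → List (Pt N A), DefF N l → DefF N l' →
    (∀ a, Tendsto (fun k => av (l k) (fun x => ind (x.has a)) - av (l' k) (fun x => ind (x.has a)))
      atTop (𝓝 0)) → ∀ B : Pt N A → Prop, DefF N B →
    Tendsto (fun k => av (l k) (fun x => ind (B x)) - av (l' k) (fun x => ind (B x))) atTop (𝓝 0)

/-- Every sequence of pairs of points is separated infinitely often. -/
def PairSep (N : Set ZFSet.{0}) [ZFC N] (A : Type) [Coded N A] [BooleanAlgebra A] [BA N A] : Prop :=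
  ∀ x y : ℕ → Pt N A, DefF N x → DefF N y → (∀ n, x n ≠ y n) →
    ∃ b, ∀ m, ∃ n, m ≤ n ∧ ¬ ((x n).has b ↔ (y n).has b)

theorem GStar.pairSep (h : GStar N A) : PairSep N A := by
  intro x y hx hy hne
  by_contra hcon
  push Not at hcon
  have h1 : ∀ B : Pt N A → Prop, DefF N B → ∃ m, ∀ n, m ≤ n → (B (x n) ↔ B (y n)) := by
    intro B hB
    have h2 := h (fun k => [x k]) (fun k => [y k]) (by fun_prop) (by fun_prop) (fun a => by
      obtain ⟨m, hm⟩ := hcon a
      refine tendsto_const_nhds.congr' (eventually_atTop.2 ⟨m, fun n hn => ?_⟩)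
      simp [av, hm n hn]) B hB
    obtain ⟨m, hm⟩ := eventually_atTop.1 ((h2.abs).eventually (gt_mem_nhds (by simp : |(0 : ℝ)| < 1)))
    refine ⟨m, fun n hn => ?_⟩
    have h3 := hm n hn
    by_cases k1 : B (x n) <;> by_cases k2 : B (y n) <;> simp_all [av, ind]
  have h2 : ∀ z, ∃ m, ∀ n, m ≤ n → x n ≠ z ∧ y n ≠ z := fun z =>
    (h1 (fun w => w = z) (by fun_prop)).imp fun m hm n hn =>
      ⟨fun e => hne n (e.trans ((hm n hn).1 e).symm), fun e => hne n (((hm n hn).2 e).trans e.symm)⟩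
  obtain ⟨k, hk, H⟩ := tdc (N := N) (K := ℕ) (Y := ℕ) (R := fun j g n => j ≤ n ∧
      ∀ i, i < j → x n ≠ y (g i) ∧ y n ≠ x (g i)) (by simp only [all_eq, imp_eq]; fun_prop)
    (fun i g g' y h H => ⟨H.1, fun j hj => h j hj ▸ H.2 j hj⟩) fun j g _ _ => by
      have k1 : ∀ᶠ n in atTop, ∀ i ∈ Finset.range j, x n ≠ y (g i) ∧ y n ≠ x (g i) :=
        (eventually_all_finset _).2 fun i _ =>
          ((eventually_atTop.2 (h2 (y (g i)))).and (eventually_atTop.2 (h2 (x (g i))))).mono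
            fun _ h => ⟨h.1.1, h.2.2⟩
      exact ((eventually_ge_atTop j).and k1).exists.imp fun n h =>
        ⟨h.1, fun i hi => h.2 i (Finset.mem_range.2 hi)⟩
  obtain ⟨m, hm⟩ := h1 (fun z => ∃ j, x (k j) = z) (by fun_prop)
  obtain ⟨i, hi⟩ := (hm _ (H m).1).1 ⟨m, rfl⟩
  rcases lt_trichotomy i m with k1 | rfl | k1
  exacts [((H m).2 i k1).2 hi.symm, hne _ hi, ((H i).2 m k1).1 hi]

/-- Finitely additive probability measures. -/
structure Meas {A : Type} [BooleanAlgebra A] (μ : A → ℝ) : Prop where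
  add : ∀ a b, μ a = μ (a ⊓ b) + μ (a ⊓ bᶜ)
  top : μ ⊤ = 1
  nonneg : ∀ a, 0 ≤ μ a

section
omit hA [Coded N A]
variable {μ ν : A → ℝ}

theorem Meas.bot (h : Meas μ) : μ ⊥ = 0 := by simpa using h.add ⊥ ⊥

theorem Meas.mono (h : Meas μ) {a b : A} (hab : a ≤ b) : μ a ≤ μ b := by
  have := h.add b a
  rw [inf_eq_right.2 hab] at this
  linarith [h.nonneg (b ⊓ aᶜ)]

theorem Meas.le_one (h : Meas μ) (a : A) : μ a ≤ 1 := h.top ▸ h.mono le_top

theorem Meas.sup (h : Meas μ) (a b : A) : μ (a ⊔ b) + μ (a ⊓ b) = μ a + μ b := by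
  have h1 := h.add (a ⊔ b) b
  have h2 := h.add a b
  rw [inf_eq_right.2 le_sup_right, inf_sup_right, inf_compl_eq_bot, sup_bot_eq] at h1
  linarith

theorem Meas.sup_le (h : Meas μ) {a b c : A} (hc : c ≤ a ⊔ b) : μ c ≤ μ a + μ b := by
  linarith [h.mono hc, h.sup a b, h.nonneg (a ⊓ b)]

/-- `c` is in the algebra generated by the `e r` with `J r`. -/
def Det {R A : Type} [BooleanAlgebra A] (e : R → A) (J : R → Prop) (c : A) : Prop :=
  ∃ D : List R, (∀ r ∈ D, J r) ∧ ∀ p : List (R × Prop), (∀ r ∈ D, ∃ s, (r, s) ∈ p) →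
    cell e p ≤ c ∨ cell e p ≤ cᶜ

variable {e e' : R → A} {J J' : R → Prop}

omit [Coded N R]

theorem Det.mono {c : A} (h : Det e J c) (hJ : ∀ r, J r → J' r) : Det e J' c :=
  h.imp fun _ h => ⟨fun r hr => hJ r (h.1 r hr), h.2⟩

theorem Det.compl {c : A} (h : Det e J c) : Det e J cᶜ :=
  h.imp fun _ h => ⟨h.1, fun p hp => by simpa using (h.2 p hp).symm⟩

theorem Det.inf {c c' : A} (h : Det e J c) (h' : Det e J c') : Det e J (c ⊓ c') := by
  obtain ⟨D, h1, h2⟩ := h
  obtain ⟨D', h3, h4⟩ := h'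
  refine ⟨D ++ D', List.forall_mem_append.2 ⟨h1, h3⟩, fun p hp => ?_⟩
  rw [List.forall_mem_append] at hp
  rcases h2 p hp.1 with k | k
  · exact (h4 p hp.2).imp (le_inf k) fun k' => k'.trans (compl_le_compl inf_le_right)
  · exact Or.inr (k.trans (compl_le_compl inf_le_left))

theorem Det.sup {c c' : A} (h : Det e J c) (h' : Det e J c') : Det e J (c ⊔ c') := by
  simpa using (h.compl.inf h'.compl).compl

theorem det_top : Det e J ⊤ := ⟨[], by simp, fun _ _ => Or.inl le_top⟩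

theorem det_bot : Det e J ⊥ := by simpa using (det_top (e := e) (J := J)).compl

theorem det_lit {z : R × Prop} (h : J z.1) : Det e J (lit e z) := by
  refine ⟨[z.1], by simpa using h, fun p hp => ?_⟩
  obtain ⟨s, hs⟩ := hp z.1 (by simp)
  have := cell_le (e := e) hs
  by_cases k1 : s <;> by_cases k2 : z.2 <;> simp_all [lit]

theorem Det.congr {c : A} (h : Det e J c) (he : ∀ r, J r → e r = e' r) : Det e' J c := by
  classical
  obtain ⟨D, h1, h2⟩ := h
  refine ⟨D, h1, fun p hp => ?_⟩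
  have k1 : cell e' p ≤ cell e (p.filter fun z => z.1 ∈ D) := by
    rw [cell_congr (e' := e') fun z hz => he _ (h1 _ (by simpa using (List.mem_filter.1 hz).2))]
    exact cell_mono fun z hz => (List.mem_filter.1 hz).1
  exact (h2 _ fun r hr => (hp r hr).imp fun s hs => by simp [hs, hr]).imp k1.trans k1.trans

theorem Meas.agree (hμ : Meas μ) (hν : Meas ν)
    (h : ∀ p : List (R × Prop), (∀ z ∈ p, J z.1) → μ (cell e p) = ν (cell e p)) {c : A}
    (hc : Det e J c) : μ c = ν c := by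
  obtain ⟨D, h1, h2⟩ := hc
  suffices ∀ p0 : List (R × Prop), (∀ z ∈ p0, J z.1) → (∀ p : List (R × Prop), (∀ z ∈ p0, z ∈ p) →
      (∀ r ∈ D, ∃ s, (r, s) ∈ p) → cell e p ≤ c ∨ cell e p ≤ cᶜ) →
      μ (c ⊓ cell e p0) = ν (c ⊓ cell e p0) by
    simpa using this [] (by simp) fun p _ => h2 p
  clear h2
  induction D with
  | nil =>
    intro p0 k1 k2
    rcases k2 p0 (fun _ h => h) (by simp) with k | k
    · rw [inf_eq_right.2 k, h p0 k1]
    · rw [disjoint_iff.1 (le_compl_iff_disjoint_left.1 k), hμ.bot, hν.bot]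
  | cons r D ih =>
    intro p0 k1 k2
    have k3 : ∀ s, μ (c ⊓ cell e p0 ⊓ lit e (r, s)) = ν (c ⊓ cell e p0 ⊓ lit e (r, s)) := fun s => by
      rw [inf_assoc, inf_comm (cell e p0), ← cell_cons]
      exact ih (fun r hr => h1 r (List.mem_cons_of_mem _ hr)) _
        (List.forall_mem_cons.2 ⟨h1 r List.mem_cons_self, k1⟩) fun p k4 k5 =>
          k2 p (fun z hz => k4 z (List.mem_cons_of_mem _ hz))
            (List.forall_mem_cons.2 ⟨⟨s, k4 _ List.mem_cons_self⟩, k5⟩)
    rw [hμ.add _ (e r), hν.add _ (e r)]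
    exact congrArg₂ _ (by simpa using k3 True) (by simpa using k3 False)

end

@[fun_prop] theorem DefF.det {e : W → R → A} {J : W → R → Prop} {c : W → A}
    (he : DefF N (fun z : W × R => e z.1 z.2)) (hJ : DefF N (fun z : W × R => J z.1 z.2))
    (hc : DefF N c) : DefF N (fun w => Det (e w) (J w) (c w)) := by
  unfold Det
  simp only [all_eq, imp_eq]
  fun_prop

/-- The mean over the points with index in `q`. -/
noncomputable def qa (x : ℕ → Pt N A) (q : List ℕ) (a : A) : ℝ := av q fun k => ind ((x k).has a)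

theorem realFn_qa {x : ℕ → Pt N A} (hx : DefF N x) :
    RealFn N (fun z : List ℕ × A => qa x z.1 z.2) := by
  unfold qa
  fun_prop

theorem qa_meas (x : ℕ → Pt N A) {q : List ℕ} (h : q ≠ []) : Meas (qa x q) := by
  refine ⟨fun a b => ?_, ?_, fun a => (av_zero q).ge.trans (av_mono fun _ _ => ind_nonneg _)⟩
  · rw [qa, qa, qa, ← av_add]
    refine av_congr fun k _ => ?_
    by_cases k1 : (x k).has a <;> by_cases k2 : (x k).has b <;>
      simp [ind, Pt.has_inf, Pt.has_compl, k1, k2]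
  · simp [qa, Pt.has_top, ind, av_const h]

/-- `μ` is a cluster point of means over points with large index. -/
def InC (x : ℕ → Pt N A) (μ : A → ℝ) : Prop :=
  ∀ (l : List A) (n : ℕ), ∃ q : List ℕ, q ≠ [] ∧ (∀ k ∈ q, n ≤ k) ∧
    ∀ a ∈ l, |qa x q a - μ a| < ep n

theorem le_of_ep {r C : ℝ} (h : ∀ n, r ≤ C * ep n) : r ≤ 0 :=
  ge_of_tendsto' (by
    simpa [ep] using (tendsto_one_div_add_atTop_nhds_zero_nat (𝕜 := ℝ)).const_mul C) h

theorem InC.meas {x : ℕ → Pt N A} {μ : A → ℝ} (h : InC x μ) : Meas μ := by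
  refine ⟨fun a b => ?_, ?_, fun a => ?_⟩
  · refine sub_eq_zero.1 (abs_nonpos_iff.1 (le_of_ep (C := 3) fun n => ?_))
    obtain ⟨q, h1, -, h2⟩ := h [a, a ⊓ b, a ⊓ bᶜ] n
    simp only [List.forall_mem_cons, abs_lt] at h2
    have := (qa_meas x h1).add a b
    rw [abs_le]
    constructor <;> linarith [h2.1.1, h2.1.2, h2.2.1.1, h2.2.1.2, h2.2.2.1.1, h2.2.2.1.2]
  · refine sub_eq_zero.1 (abs_nonpos_iff.1 (le_of_ep (C := 1) fun n => ?_))
    obtain ⟨q, h1, -, h2⟩ := h [⊤] n
    have := h2 ⊤ (by simp)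
    rw [(qa_meas x h1).top, abs_sub_comm] at this
    linarith
  · refine neg_nonpos.1 (le_of_ep (C := 1) fun n => ?_)
    obtain ⟨q, h1, -, h2⟩ := h [a] n
    linarith [(abs_lt.1 (h2 a (by simp))).2, (qa_meas x h1).nonneg a]

theorem InC.mid {x : ℕ → Pt N A} {μ ν : A → ℝ} (h : InC x μ) (h' : InC x ν) :
    InC x (fun a => (μ a + ν a) / 2) := by
  intro l n
  obtain ⟨q, h1, h2, h3⟩ := h l n
  obtain ⟨q', h4, h5, h6⟩ := h' l n
  obtain ⟨m, k1, k2, k3⟩ := exists_mid h1 h4
  refine ⟨m, k1, fun k hk => (k2 k hk).elim (h2 k) (h5 k), fun a ha => ?_⟩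
  have k4 := abs_lt.1 (h3 a ha)
  have k5 := abs_lt.1 (h6 a ha)
  unfold qa at *
  rw [k3, abs_lt]
  constructor <;> linarith [k4.1, k4.2, k5.1, k5.2]

/-- The lists `q k` are eventually nonempty and their entries tend to infinity. -/
def Grow (q : ℕ → List ℕ) : Prop := ∀ n, ∀ᶠ k in atTop, q k ≠ [] ∧ ∀ i ∈ q k, n ≤ i

theorem exists_limit {x : ℕ → Pt N A} (hx : DefF N x) {U : Ultrafilter ℕ} (hU : UltraIn N U)
    {q : ℕ → List ℕ} (hq : DefF N q) (hg : Grow q) {s : ℕ → ℕ} (hs : DefF N s)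
    (hs' : ∀ j, j ≤ s j) : ∃ ν : RFun N A, InC x ν.app ∧
      (∀ a, Tendsto (fun j => qa x (q (s j)) a) U (𝓝 (ν.app a))) ∧
      ∀ a r, Tendsto (fun k => qa x (q k) a) atTop (𝓝 r) → ν.app a = r := by
  have h1 := realFn_qa hx
  choose ν hν using fun a => exists_ulim U (s := fun j => qa x (q (s j)) a)
    fun j => abs_av_le zero_le_one fun _ _ => abs_ind_le _
  have h2 : Tendsto s U atTop := (tendsto_atTop_mono hs' tendsto_id).mono_left hU.le
  refine ⟨⟨ν, hU.realFn (s := fun a j => qa x (q (s j)) a) (by fun_prop) hν⟩, fun l n => ?_, hν,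
    fun a r hr => tendsto_nhds_unique (hν a) (hr.comp h2)⟩
  have h3 : ∀ᶠ j in U, ∀ a ∈ {a | a ∈ l}, |qa x (q (s j)) a - ν a| < ep n :=
    (eventually_all_finite l.finite_toSet).2 fun a _ =>
      Metric.tendsto_nhds.1 (hν a) _ (ep_pos n)
  obtain ⟨j, k1, k2⟩ := ((h2.eventually (hg n)).and h3).exists
  exact ⟨_, k1.1, k1.2, k2⟩

theorem GStar.not_tendsto (h : GStar N A) {x : ℕ → Pt N A} (hx : DefF N x)
    (hi : Function.Injective x) {q : ℕ → List ℕ} (hq : DefF N q) (hg : Grow q) :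
    ∃ a, ∃ u v : Q3, rq u < rq v ∧ (∀ j, ∃ k, j ≤ k ∧ qa x (q k) a < rq u) ∧
      ∀ j, ∃ k, j ≤ k ∧ rq v < qa x (q k) a := by
  by_contra hcon
  have h1 : ∀ a, ∃ r, Tendsto (fun k => qa x (q k) a) atTop (𝓝 r) := fun a => by
    have k1 : ∀ k, |qa x (q k) a| ≤ 1 := fun k => abs_av_le zero_le_one fun _ _ => abs_ind_le _
    refine tendsto_of_no_upcrossings (s := Set.range rq)
      (dense_of_exists_between fun _ _ h => (exists_rq h).elim fun z h => ⟨_, ⟨z, rfl⟩, h⟩) ?_
      (isBoundedUnder_of ⟨1, fun k => (abs_le.1 (k1 k)).2⟩)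
      (isBoundedUnder_of ⟨-1, fun k => (abs_le.1 (k1 k)).1⟩)
    rintro _ ⟨u, rfl⟩ _ ⟨v, rfl⟩ huv ⟨k2, k3⟩
    exact hcon ⟨a, u, v, huv, frequently_atTop.1 k2, frequently_atTop.1 k3⟩
  obtain ⟨k, hk, H⟩ := tdc (N := N) (K := ℕ) (Y := ℕ) (R := fun j g n => j ≤ n ∧ q n ≠ [] ∧
      ∀ i, i < j → ∀ a ∈ q (g i), ¬ a ∈ q n) (by simp only [all_eq, imp_eq]; fun_prop)
    (fun i g g' y h H => ⟨H.1, H.2.1, fun j hj => h j hj ▸ H.2.2 j hj⟩) fun j g _ _ => by
      have k1 : ∀ᶠ n in atTop, ∀ i ∈ Finset.range j, ∀ a ∈ {a | a ∈ q (g i)}, ¬ a ∈ q n :=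
        (eventually_all_finset _).2 fun i _ => (eventually_all_finite (q (g i)).finite_toSet).2
          fun a _ => (hg (a + 1)).mono fun n h k => Nat.not_succ_le_self _ (h.2 a k)
      exact (((eventually_ge_atTop j).and (hg 0)).and k1).exists.imp fun n h =>
        ⟨h.1.1, h.1.2.1, fun i hi => h.2 i (Finset.mem_range.2 hi)⟩
  have h2 : Tendsto k atTop atTop := tendsto_atTop_mono (fun j => (H j).1) tendsto_id
  have h3 := h (fun j => (q (k (2 * j))).map x) (fun j => (q (k (2 * j + 1))).map x) (by fun_prop)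
    (by fun_prop) (fun a => by
      obtain ⟨r, hr⟩ := h1 a
      simp only [av_map]
      simpa [qa] using (hr.comp (h2.comp (tendsto_atTop_mono (fun j => by simp; omega)
        tendsto_id : Tendsto (fun j => 2 * j) atTop atTop))).sub (hr.comp (h2.comp
          (tendsto_atTop_mono (fun j => by simp; omega) tendsto_id :
            Tendsto (fun j => 2 * j + 1) atTop atTop))))
    (fun z => ∃ j, ∃ i ∈ q (k (2 * j)), x i = z) (by fun_prop)
  refine one_ne_zero (tendsto_nhds_unique (tendsto_const_nhds (f := atTop)) (h3.congr fun j => ?_))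
  rw [av_map, av_map, av_congr (g' := fun _ => 1), av_const (H _).2.1,
    av_congr (g' := fun _ => 0), av_zero, sub_zero]
  · refine fun i hi' => if_neg ?_
    rintro ⟨j', i', k1, k2⟩
    obtain rfl := hi k2
    rcases lt_or_gt_of_ne (show 2 * j' ≠ 2 * j + 1 by omega) with k3 | k3
    exacts [(H _).2.2 _ k3 _ k1 hi', (H _).2.2 _ k3 _ hi' k1]
  · exact fun i hi' => if_pos ⟨j, i, hi', rfl⟩

variable [LinearOrder W] [WO N W] [Nonempty W] [Big N L]

theorem exists_seq (ma : MAT N L) (hW : Sm N L (fun _ : W => True)) {x : ℕ → Pt N A}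
    (hx : DefF N x) {b : W → A} (hb : DefF N b) {M : W → RFun N A} (hM : DefF N M) {J : W → Prop}
    (hJ : DefF N J) (h1 : ∀ α, J α → InC x (M α).app)
    (h2 : ∀ α γ, J α → γ < α → ∀ p : List (W × Prop), (∀ z ∈ p, z.1 ≤ γ) →
      (M α).app (cell b p) = (M γ).app (cell b p)) :
    ∃ q : ℕ → List ℕ, DefF N q ∧ Grow q ∧ ∀ γ, J γ → ∀ p : List (W × Prop), (∀ z ∈ p, z.1 ≤ γ) →
      Tendsto (fun k => qa x (q k) (cell b p)) atTop (𝓝 ((M γ).app (cell b p))) := by
  classical
  have h3 := realFn_qa hx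
  obtain ⟨q, hq, H⟩ := ma.pseudo (X := List ℕ) (Sm.list' sm_self)
    (Big.nat.prod' (hW.prod' (hW.prod' sm_prop).list'))
    (F := fun (i : ℕ × W × List (W × Prop)) q => q ≠ [] ∧ (∀ k ∈ q, i.1 ≤ k) ∧
      (J i.2.1 → (∀ z ∈ i.2.2, z.1 ≤ i.2.1) →
        |qa x q (cell b i.2.2) - (M i.2.1).app (cell b i.2.2)| < ep i.1))
    (by simp only [all_eq, imp_eq]; fun_prop) fun l => by
      obtain ⟨n, hn⟩ := (l.finite_toSet.image Prod.fst).bddAbove
      have k1 : ∀ i ∈ l, i.1 ≤ n := fun i hi => hn ⟨i, hi, rfl⟩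
      by_cases k : ∃ i ∈ l, J i.2.1
      · obtain ⟨i, k2, k3⟩ := Set.exists_max_image {i | i ∈ l ∧ J i.2.1} (fun i => i.2.1)
          (l.finite_toSet.subset fun _ h => h.1) k
        obtain ⟨q, k4, k5, k6⟩ := h1 _ k2.2 (l.map fun i => cell b i.2.2) n
        refine ⟨q, fun j hj => ⟨k4, fun k hk => (k1 j hj).trans (k5 k hk), fun k7 k8 => ?_⟩⟩
        have k9 := (k6 _ (List.mem_map_of_mem hj)).trans_le (ep_anti (k1 j hj))
        rcases (k3 j ⟨hj, k7⟩).eq_or_lt with e | e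
        · rwa [e]
        · rwa [← h2 _ _ k2.2 e _ k8]
      · exact ⟨[n], fun j hj => ⟨by simp, by simpa using k1 j hj, fun k7 => (k ⟨j, hj, k7⟩).elim⟩⟩
  refine ⟨q, hq, fun n => (eventually_atTop.2 (H (n, Classical.arbitrary W, []))).mono
    fun _ h => ⟨h.1, h.2.1⟩, fun γ hγ p hp => Metric.tendsto_nhds.2 fun ε hε => ?_⟩
  obtain ⟨n, hn⟩ := exists_ep hε
  exact (eventually_atTop.2 (H (n, γ, p))).mono fun _ h => (h.2.2 hγ hp).trans hn

/-- A measure of large type. -/
theorem GStar.large_type [Enum N] [Infinite A] (h : GStar N A) (ma : MAT N L)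
    (hW : Sm N L (fun _ : W => True)) : ∃ (b : W → A) (μ : A → ℝ), DefF N b ∧ RealFn N μ ∧ Meas μ ∧
      ∀ α, ∃ n, ∀ c, Det b (fun r => r < α) c → ep n ≤ μ (b α ⊓ cᶜ) + μ ((b α)ᶜ ⊓ c) := by
  obtain ⟨x, hx, hi⟩ := exists_points (N := N) (A := A)
  obtain ⟨U, hU⟩ := exists_ultraIn N
  have h3 := realFn_qa hx
  obtain ⟨g, hg, H⟩ := tdc (N := N) (K := W) (Y := A × RFun N A) (R := fun α g y =>
      InC x y.2.app ∧ (∀ γ, γ < α → ∀ p : List (W × Prop), (∀ z ∈ p, z.1 ≤ γ) →
        y.2.app (cell (fun r => (g r).1) p) = (g γ).2.app (cell (fun r => (g r).1) p)) ∧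
      ∃ n, ∀ c, Det (fun r => (g r).1) (fun r => r < α) c →
        ep n ≤ y.2.app (y.1 ⊓ cᶜ) + y.2.app (y.1ᶜ ⊓ c))
    (by unfold InC; simp only [all_eq, imp_eq]; fun_prop)
    (fun α g g' y e ⟨k1, k2, n, k3⟩ => ⟨k1, fun γ hγ p hp => by
      rw [← e γ hγ, ← cell_congr (e := fun r => (g r).1) fun z hz =>
        congrArg Prod.fst (e _ ((hp z hz).trans_lt hγ))]
      exact k2 γ hγ p hp, n, fun c hc => k3 c (hc.congr fun r hr => by rw [e r hr])⟩)
    fun α g hg H => by
      obtain ⟨q, hq, k1, k2⟩ := exists_seq ma hW hx (b := fun r => (g r).1) (M := fun r => (g r).2)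
        (J := fun r => r < α) (by fun_prop) (by fun_prop) (by fun_prop) (fun β hβ => (H β hβ).1)
        fun β γ hβ => (H β hβ).2.1 γ
      obtain ⟨a, u, v, huv, k3, k4⟩ := h.not_tendsto hx hi hq k1
      obtain ⟨s, hs, Hs⟩ := choice (N := N) (by fun_prop) k3
      obtain ⟨t, ht, Ht⟩ := choice (N := N) (by fun_prop) k4
      obtain ⟨ν, n1, n2, n3⟩ := exists_limit hx hU hq k1 hs fun j => (Hs j).1
      obtain ⟨ν', m1, m2, m3⟩ := exists_limit hx hU hq k1 ht fun j => (Ht j).1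
      have k5 : ν.app a ≤ rq u := le_of_tendsto' (n2 a) fun j => (Hs j).2.le
      have k6 : rq v ≤ ν'.app a := ge_of_tendsto' (m2 a) fun j => (Ht j).2.le
      obtain ⟨n, hn⟩ := exists_ep (show 0 < (rq v - rq u) / 2 by linarith)
      refine ⟨(a, ⟨fun c => (ν.app c + ν'.app c) / 2, (ν.def_app.add ν'.def_app).half⟩), n1.mid m1,
        fun γ hγ p hp => ?_, n, fun c hc => ?_⟩
      · dsimp only
        rw [n3 _ _ (k2 γ hγ p hp), m3 _ _ (k2 γ hγ p hp)]
        ring
      · have k7 : ν.app c = ν'.app c := n1.meas.agree m1.meas (fun p hp => by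
          by_cases k : p = []
          · rw [k, cell_nil, n1.meas.top, m1.meas.top]
          · obtain ⟨z, k8, k9⟩ := Set.exists_max_image {z | z ∈ p} Prod.fst p.finite_toSet
              (List.exists_mem_of_ne_nil p k)
            rw [n3 _ _ (k2 _ (hp z k8) p k9), m3 _ _ (k2 _ (hp z k8) p k9)]) hc
        have k8 := n1.meas.add c a
        have k9 := m1.meas.add a c
        have k10 := n1.meas.mono (inf_le_right : c ⊓ a ≤ a)
        have k11 := m1.meas.mono (inf_le_right : a ⊓ c ≤ c)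
        rw [inf_comm c aᶜ] at k8
        dsimp only
        linarith [n1.meas.nonneg (a ⊓ cᶜ), m1.meas.nonneg (aᶜ ⊓ c)]
  obtain ⟨q, hq, k1, k2⟩ := exists_seq ma hW hx (b := fun r => (g r).1) (M := fun r => (g r).2)
    (J := fun _ => True) (by fun_prop) (by fun_prop) (by fun_prop) (fun β _ => (H β).1)
    fun β γ _ => (H β).2.1 γ
  obtain ⟨ν, n1, -, n3⟩ := exists_limit hx hU hq k1 DefF.id fun _ => le_rfl
  refine ⟨fun r => (g r).1, ν.app, by fun_prop, ν.def_app, n1.meas, fun α => ?_⟩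
  obtain ⟨n, hn⟩ := (H α).2.2
  refine ⟨n, fun c hc => (hn c hc).trans_eq ?_⟩
  have k3 : ∀ c, Det (fun r => (g r).1) (fun r => r ≤ α) c → ν.app c = (g α).2.app c := fun c =>
    n1.meas.agree (H α).1.meas fun p hp => n3 _ _ (k2 α trivial p hp)
  have k4 : Det (fun r => (g r).1) (fun r => r ≤ α) (g α).1 := by
    simpa using det_lit (e := fun r => (g r).1) (J := fun r => r ≤ α) (z := (α, True)) le_rfl
  have k5 := hc.mono (J' := fun r => r ≤ α) fun _ h => h.le
  rw [k3 _ (k4.inf k5.compl), k3 _ (k4.compl.inf k5)]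

end Pool.Agent.P.MP_5a7d1f_lc.Gro
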