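import Mathlib.Topology.Order.Compact
import Mathlib.Order.Filter.Ultrafilter.Basic
import Pool.Agent.P.MP_5a7d1f_lc.Gro.Defs
import Pool.Agent.P.MP_5a7d1f_lc.Gro.Base

/-!
Real valued functions and ultrafilter limits in the typed layer.
-/

set_option synthInstance.maxSize 16384
set_option linter.unusedSectionVars false

namespace Pool.Agent.P.MP_5a7d1f_lc.Gro

open ZFSet Filter Topology Pool.Agent.Lib.Forcing Pool.Agent.Lib.Typed Pool.Agent.P.MP_af0a18_lc

variable {N : Set ZFSet.{0}} [ZFC N]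
variable {X Y Z W : Type} [Coded N X] [Coded N Y] [Coded N Z] [Coded N W]

/-- Codes of rational numbers. -/
abbrev Q3 : Type := ℕ × ℕ × ℕ

theorem exists_rq {a b : ℝ} (h : a < b) : ∃ z : Q3, a < rq z ∧ rq z < b := by
  obtain ⟨q, h1, h2⟩ := exists_rat_btwn h
  have h3 : rq (q.num.toNat, (-q.num).toNat, q.den - 1) = q := by
    have h4 : ((q.den - 1 : ℕ) : ℝ) + 1 = q.den := by
      rw [Nat.cast_pred q.den_pos]; ring
    have h5 : ((q.num.toNat : ℕ) : ℝ) - ((-q.num).toNat : ℕ) = q.num := by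
      exact_mod_cast congrArg (Int.cast (R := ℝ)) (Int.toNat_sub_toNat_neg q.num)
    simp only [rq]
    rw [h4, h5, Rat.cast_def]
  exact ⟨_, h3 ▸ h1, h3 ▸ h2⟩

theorem rq_lt_iff (u v : Q3) : rq u < rq v ↔
    u.1 * (v.2.2 + 1) + v.2.1 * (u.2.2 + 1) < v.1 * (u.2.2 + 1) + u.2.1 * (v.2.2 + 1) := by
  unfold rq
  rw [div_lt_div_iff₀ (by positivity) (by positivity), ← Nat.cast_lt (α := ℝ)]
  push_cast
  constructor <;> intro h <;> linarith

/-- Sum of two codes. -/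
def radd (u v : Q3) : Q3 := (u.1 * (v.2.2 + 1) + v.1 * (u.2.2 + 1),
  u.2.1 * (v.2.2 + 1) + v.2.1 * (u.2.2 + 1), u.2.2 * v.2.2 + u.2.2 + v.2.2)

theorem rq_radd (u v : Q3) : rq (radd u v) = rq u + rq v := by
  unfold rq radd
  have : ((u.2.2 * v.2.2 + u.2.2 + v.2.2 : ℕ) : ℝ) + 1 = (u.2.2 + 1) * (v.2.2 + 1) := by
    push_cast; ring
  rw [this]
  push_cast
  field_simp
  ring

theorem rq_neg (u : Q3) : rq (u.2.1, u.1, u.2.2) = - rq u := by
  unfold rq
  ring

theorem rq_div (u : Q3) (n : ℕ) : rq (u.1, u.2.1, u.2.2 * (n + 1) + n) = rq u / (n + 1) := by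
  unfold rq
  have : ((u.2.2 * (n + 1) + n : ℕ) : ℝ) + 1 = (u.2.2 + 1) * (n + 1) := by
    push_cast; ring
  rw [this, div_div]

/-- The lower cuts of the values of `f` form a set of `N`. -/
@[fun_prop] def RealFn (N : Set ZFSet.{0}) [ZFC N] {X : Type} [Coded N X] (f : X → ℝ) : Prop :=
  DefF N (fun z : X × Q3 => rq z.2 < f z.1)

theorem RealFn.congr {f g : X → ℝ} (h : RealFn N f) (hfg : ∀ x, f x = g x) : RealFn N g :=
  funext hfg ▸ h

@[fun_prop] theorem RealFn.comp {g : Y → ℝ} {f : X → Y} (hg : RealFn N g) (hf : DefF N f) :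
    RealFn N (fun x => g (f x)) :=
  DefF.comp (g := fun z : Y × Q3 => rq z.2 < g z.1) (f := fun z : X × Q3 => (f z.1, z.2)) hg
    (by fun_prop)

theorem RealFn.cut {f : W → ℝ} (hf : RealFn N f) {g : X → W} {u : X → Q3} (hg : DefF N g)
    (hu : DefF N u) : DefF N (fun x => rq (u x) < f (g x)) :=
  DefF.comp (g := fun z : W × Q3 => rq z.2 < f z.1) hf (hg.prodMk hu)

theorem realFn_rq : RealFn N rq := by
  unfold RealFn
  simp only [rq_lt_iff]
  fun_prop

@[fun_prop] theorem RealFn.rq {u : W → Q3} (hu : DefF N u) : RealFn N (fun w => rq (u w)) :=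
  realFn_rq.comp hu

@[fun_prop] theorem DefF.rlt {f g : W → ℝ} (hf : RealFn N f) (hg : RealFn N g) :
    DefF N (fun w => f w < g w) :=
  (DefF.exists (p := fun w (u : Q3) => ¬ rq u < f w ∧ rq u < g w)
    (DefF.and (DefF.not hf) hg)).congr_iff fun _ =>
      ⟨fun ⟨_, h1, h2⟩ => (not_lt.1 h1).trans_lt h2, fun h =>
        (exists_rq h).imp fun _ h => ⟨not_lt.2 h.1.le, h.2⟩⟩

@[fun_prop] theorem DefF.rle {f g : W → ℝ} (hf : RealFn N f) (hg : RealFn N g) :
    DefF N (fun w => f w ≤ g w) := (DefF.rlt hg hf).not.congr_iff fun _ => not_lt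

@[fun_prop] theorem DefF.req {f g : W → ℝ} (hf : RealFn N f) (hg : RealFn N g) :
    DefF N (fun w => f w = g w) :=
  ((DefF.rle hf hg).and (DefF.rle hg hf)).congr_iff fun _ => le_antisymm_iff.symm

@[fun_prop] theorem RealFn.natCast {n : W → ℕ} (hn : DefF N n) : RealFn N (fun w => (n w : ℝ)) :=
  (RealFn.rq (u := fun w => (n w, 0, 0)) (by fun_prop)).congr fun w => by simp [Gro.rq]

@[fun_prop] theorem RealFn.zero : RealFn N (fun _ : W => (0 : ℝ)) :=
  (RealFn.natCast (DefF.const 0)).congr fun _ => by simp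

@[fun_prop] theorem RealFn.one : RealFn N (fun _ : W => (1 : ℝ)) :=
  (RealFn.natCast (DefF.const 1)).congr fun _ => by simp

@[fun_prop] theorem RealFn.two : RealFn N (fun _ : W => (2 : ℝ)) :=
  (RealFn.natCast (DefF.const 2)).congr fun _ => by simp

@[fun_prop] theorem RealFn.add {f g : W → ℝ} (hf : RealFn N f) (hg : RealFn N g) :
    RealFn N (fun w => f w + g w) := by
  have h1 : DefF N (fun z : Q3 × Q3 => radd z.1 z.2) := by unfold radd; fun_prop
  have h2 : DefF N (fun z : W × Q3 => ∃ u v : Q3, Gro.rq u < f z.1 ∧ Gro.rq v < g z.1 ∧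
      Gro.rq z.2 < Gro.rq (radd u v)) :=
    DefF.exists (DefF.exists (DefF.and (hf.cut (by fun_prop) (by fun_prop))
      (DefF.and (hg.cut (by fun_prop) (by fun_prop)) (realFn_rq.cut (by fun_prop) (by fun_prop)))))
  refine h2.congr_iff fun z => ?_
  simp only [rq_radd]
  refine ⟨fun ⟨u, v, h3, h4, h5⟩ => by linarith, fun h => ?_⟩
  obtain ⟨u, h3, h4⟩ := exists_rq (show Gro.rq z.2 - g z.1 < f z.1 by linarith)
  obtain ⟨v, h5, h6⟩ := exists_rq (show Gro.rq z.2 - Gro.rq u < g z.1 by linarith)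
  exact ⟨u, v, h4, h6, by linarith⟩

@[fun_prop] theorem RealFn.neg {f : W → ℝ} (hf : RealFn N f) : RealFn N (fun w => - f w) := by
  have h2 : DefF N (fun z : W × Q3 => f z.1 < Gro.rq (z.2.2.1, z.2.1, z.2.2.2)) := by fun_prop
  exact h2.congr_iff fun z => by rw [rq_neg, lt_neg]

@[fun_prop] theorem RealFn.sub {f g : W → ℝ} (hf : RealFn N f) (hg : RealFn N g) :
    RealFn N (fun w => f w - g w) := (hf.add hg.neg).congr fun _ => (sub_eq_add_neg _ _).symm

@[fun_prop] theorem RealFn.abs {f : W → ℝ} (hf : RealFn N f) : RealFn N (fun w => |f w|) :=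
  (DefF.or hf hf.neg).congr_iff fun _ => lt_abs.symm

@[fun_prop] theorem RealFn.ite {p : W → Prop} [DecidablePred p] {f g : W → ℝ} (hp : DefF N p)
    (hf : RealFn N f) (hg : RealFn N g) : RealFn N (fun w => if p w then f w else g w) :=
  (((hp.comp DefF.fst).and hf).or ((hp.comp DefF.fst).not.and hg)).congr_iff fun z => by
    by_cases h : p z.1 <;> simp [h]

theorem RealFn.div_succ {f : W → ℝ} {n : W → ℕ} (hf : RealFn N f) (hn : DefF N n) :
    RealFn N (fun w => f w / (n w + 1)) := by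
  have h2 : DefF N (fun z : W × Q3 => ∃ u : Q3, Gro.rq u < f z.1 ∧
      Gro.rq z.2 < Gro.rq (u.1, u.2.1, u.2.2 * (n z.1 + 1) + n z.1)) := by fun_prop
  refine h2.congr_iff fun z => ?_
  have h3 : (0 : ℝ) < n z.1 + 1 := by positivity
  simp only [rq_div, lt_div_iff₀ h3]
  exact ⟨fun ⟨u, h4, h5⟩ => h5.trans h4, fun h => (exists_rq h).imp fun _ h => h.symm⟩

theorem RealFn.div_nat {f : W → ℝ} {n : W → ℕ} (hf : RealFn N f) (hn : DefF N n) :
    RealFn N (fun w => f w / n w) := by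
  have h1 : DefF N (fun w => n w - 1) :=
    DefF.of_rel (fun w m => (n w = 0 ∧ m = 0) ∨ n w = m + 1) (by fun_prop) fun w m => by omega
  refine (RealFn.ite (p := fun w => n w = 0) (by fun_prop) RealFn.zero (hf.div_succ h1)).congr
    fun w => ?_
  split_ifs with h
  · simp [h]
  · rw [Nat.cast_pred (Nat.pos_of_ne_zero h)]
    simp

theorem RealFn.half {f : W → ℝ} (hf : RealFn N f) : RealFn N (fun w => f w / 2) :=
  (hf.div_nat (DefF.const 2)).congr fun _ => by simp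

/-- The number `1 / (n + 1)`. -/
noncomputable def ep (n : ℕ) : ℝ := 1 / (n + 1)

theorem ep_pos (n : ℕ) : 0 < ep n := by unfold ep; positivity

theorem exists_ep {ε : ℝ} (h : 0 < ε) : ∃ n, ep n < ε := exists_nat_one_div_lt h

theorem ep_anti {m n : ℕ} (h : m ≤ n) : ep n ≤ ep m :=
  one_div_le_one_div_of_le (by positivity) (by exact_mod_cast Nat.succ_le_succ h)

@[fun_prop] theorem RealFn.ep {n : W → ℕ} (hn : DefF N n) : RealFn N (fun w => ep (n w)) :=
  RealFn.one.div_succ hn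

/-- Real functions of `N`. -/
@[ext] structure RFun (N : Set ZFSet.{0}) [ZFC N] (X : Type) [Coded N X] where
  app : X → ℝ
  def_app : RealFn N app

/-- The lower cuts. -/
def RFun.cuts (f : RFun N X) : DSet N (X × Q3) := ⟨fun z => rq z.2 < f.app z.1, f.def_app⟩

theorem eq_of_cut {a b : ℝ} (h : ∀ u : Q3, rq u < a ↔ rq u < b) : a = b := by
  refine le_antisymm (not_lt.1 fun h' => ?_) (not_lt.1 fun h' => ?_) <;>
    obtain ⟨u, h1, h2⟩ := exists_rq h'
  exacts [h1.not_gt ((h u).1 h2), h1.not_gt ((h u).2 h2)]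

theorem RFun.cuts_inj : Function.Injective (RFun.cuts : RFun N X → _) := fun f g h => by
  ext x
  exact eq_of_cut fun u => eq_iff_iff.1 (congrArg (fun S : DSet N (X × Q3) => S.Mem (x, u)) h)

noncomputable instance : Coded N (RFun N X) :=
  Coded.ofInj RFun.cuts RFun.cuts_inj <| by
    have h : DefF N (fun S : DSet N (X × Q3) => ∀ x, (∃ u, S.Mem (x, u)) ∧ (∃ u, ¬ S.Mem (x, u)) ∧
        ∀ u, S.Mem (x, u) ↔ ∃ v, rq u < rq v ∧ S.Mem (x, v)) := by
      simp only [all_eq]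
      fun_prop
    refine h.congr_iff fun S => ⟨fun h => ?_, ?_⟩
    · have h1 : ∀ x u, rq u < sSup (rq '' {v | S.Mem (x, v)}) ↔ S.Mem (x, u) := by
        intro x u
        obtain ⟨⟨a, ha⟩, ⟨b, hb⟩, h2⟩ := h x
        have h3 : BddAbove (rq '' {v | S.Mem (x, v)}) := ⟨rq b, by
          rintro _ ⟨v, hv, rfl⟩
          exact not_lt.1 fun h' => hb ((h2 b).2 ⟨v, h', hv⟩)⟩
        rw [lt_csSup_iff h3 ⟨_, a, ha, rfl⟩, h2 u]
        exact ⟨fun ⟨_, ⟨v, h4, h5⟩, h6⟩ => ⟨v, h5 ▸ h6, h4⟩, fun ⟨v, h4, h5⟩ => ⟨_, ⟨v, h5, rfl⟩, h4⟩⟩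
      refine ⟨⟨fun x => sSup (rq '' {v | S.Mem (x, v)}),
        S.def_mem.congr_iff fun z => (h1 z.1 z.2).symm⟩, ?_⟩
      ext z
      exact h1 z.1 z.2
    · rintro ⟨f, rfl⟩ x
      refine ⟨(exists_rq (sub_one_lt (f.app x))).imp fun _ h => h.2,
        (exists_rq (lt_add_one (f.app x))).imp fun _ h => h.1.not_gt, fun u => ?_⟩
      exact ⟨exists_rq, fun ⟨_, h1, h2⟩ => h1.trans h2⟩

instance : Nonempty (RFun N X) := ⟨⟨fun _ => 0, RealFn.zero⟩⟩

@[fun_prop] theorem DefF.cuts : DefF N (RFun.cuts : RFun N X → _) := defF_of_cd_eq fun _ => rfl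

@[fun_prop] theorem RealFn.app {F : W → RFun N X} {f : W → X} (hF : DefF N F) (hf : DefF N f) :
    RealFn N (fun w => (F w).app (f w)) :=
  DefF.mem (S := fun z : W × Q3 => (F z.1).cuts) (f := fun z => (f z.1, z.2))
    (DefF.cuts.comp (hF.comp DefF.fst)) ((hf.comp DefF.fst).prodMk DefF.snd)

theorem DefF.of_rapp {F : W → RFun N X} (h : RealFn N (fun z : W × X => (F z.1).app z.2)) :
    DefF N F :=
  DefF.of_inj RFun.cuts_inj DefF.cuts (DefF.of_mem
    (h.cut (g := fun z : W × X × Q3 => (z.1, z.2.1)) (u := fun z => z.2.2) (by fun_prop)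
      (by fun_prop)))

theorem exists_rfun {F : W → X → ℝ} (h : RealFn N (fun z : W × X => F z.1 z.2)) :
    ∃ G : W → RFun N X, DefF N G ∧ ∀ w x, (G w).app x = F w x :=
  ⟨fun w => ⟨F w, h.comp (f := fun x => (w, x)) (by fun_prop)⟩, DefF.of_rapp h, fun _ _ => rfl⟩

theorem DefF.foldr {F : W → X → Y → Y} {a : W → Y} {l : W → List X}
    (hF : DefF N (fun z : W × X × Y => F z.1 z.2.1 z.2.2)) (ha : DefF N a) (hl : DefF N l) :
    DefF N (fun w => (l w).foldr (F w) (a w)) := by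
  refine DefF.of_rel (fun w y => ∃ s : List Y, At s 0 y ∧ At s (l w).length (a w) ∧
    ∀ i x, At (l w) i x → ∃ y', At s (i + 1) y' ∧ At s i (F w x y'))
    (by simp only [all_eq, imp_eq]; fun_prop) fun w y => ?_
  generalize l w = m
  induction m generalizing y with
  | nil =>
    refine ⟨fun h => ⟨[a w], by simpa [At] using h, by simp [At], by simp [At]⟩, ?_⟩
    rintro ⟨s, h1, h2, -⟩
    exact Option.some.inj (h2.symm.trans h1)
  | cons x m ih =>
    constructor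
    · rintro rfl
      obtain ⟨s, h1, h2, h3⟩ := (ih _).1 rfl
      refine ⟨_ :: s, rfl, h2, fun i x' h => ?_⟩
      cases i with
      | zero => exact ⟨_, h1, by obtain rfl := Option.some.inj h; rfl⟩
      | succ i => exact h3 i x' h
    · rintro ⟨_ | ⟨y0, s⟩, h1, h2, h3⟩
      · simp [At] at h1
      · obtain ⟨y', h4, h5⟩ := h3 0 x rfl
        rw [List.foldr_cons, (ih y').2 ⟨s, h4, h2, fun i x' h => h3 (i + 1) x' h⟩]
        exact Option.some.inj (h5.symm.trans h1)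

theorem RealFn.sum {F : W → X → ℝ} {l : W → List X} (hF : RealFn N (fun z : W × X => F z.1 z.2))
    (hl : DefF N l) : RealFn N (fun w => ((l w).map (F w)).sum) := by
  obtain ⟨G, hG, HG⟩ := exists_rfun (N := N) (W := W × X × RFun N ℕ) (X := ℕ)
    (F := fun z _ => F z.1 z.2.1 + z.2.2.app 0) (by fun_prop)
  have h1 := DefF.foldr (N := N) (F := fun w x y => G (w, x, y))
    (a := fun _ => (⟨fun _ => 0, RealFn.zero⟩ : RFun N ℕ)) (by fun_prop) (by fun_prop) hl
  refine (RealFn.app h1 (DefF.const 0)).congr fun w => ?_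
  induction l w with
  | nil => rfl
  | cons x m ih => rw [List.foldr_cons, HG, List.map_cons, List.sum_cons, ih]

/-- An ultrafilter on `ℕ` whose trace on `N` lies in `N`. -/
structure UltraIn (N : Set ZFSet.{0}) [ZFC N] (U : Ultrafilter ℕ) : Prop where
  le : (U : Filter ℕ) ≤ atTop
  defn : DefF N (fun S : DSet N ℕ => ∀ᶠ n in U, S.Mem n)

theorem UltraIn.ev {U : Ultrafilter ℕ} (h : UltraIn N U) {R : W → ℕ → Prop}
    (hR : DefF N (fun z : W × ℕ => R z.1 z.2)) : DefF N (fun w => ∀ᶠ n in U, R w n) := by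
  obtain ⟨S, hS, H⟩ := exists_dset hR
  exact (h.defn.comp hS).congr_iff fun w => by simp only [H]

theorem exists_ultraIn (N : Set ZFSet.{0}) [ZFC N] [Enum N] : ∃ U, UltraIn N U := by
  obtain ⟨u, hu, -, h1, h2⟩ := tukey (N := N) (X := DSet N ℕ)
    (Ok := fun l => ∀ m, ∃ n, m ≤ n ∧ ∀ S ∈ l, S.Mem n) (by simp only [all_eq, imp_eq]; fun_prop)
    (S0 := fun _ => False) (by fun_prop) fun l hl m => ⟨m, le_rfl, fun S h => (hl S h).elim⟩
  have h3 : ∀ S : DSet N ℕ, ∀ T : DSet N ℕ, (∀ n, S.Mem n ∨ T.Mem n) → u S ∨ u T := by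
    intro S T hST
    by_contra h
    push Not at h
    obtain ⟨l, k1, k2⟩ : ∃ l : List (DSet N ℕ), (∀ y ∈ l, u y ∨ y = S) ∧
      ¬ ∀ m, ∃ n, m ≤ n ∧ ∀ S ∈ l, S.Mem n := by simpa using mt (h2 S) h.1
    obtain ⟨l', k3, k4⟩ : ∃ l : List (DSet N ℕ), (∀ y ∈ l, u y ∨ y = T) ∧
      ¬ ∀ m, ∃ n, m ≤ n ∧ ∀ S ∈ l, S.Mem n := by simpa using mt (h2 T) h.2
    push Not at k2 k4
    obtain ⟨m, k2⟩ := k2
    obtain ⟨m', k4⟩ := k4
    classical
    obtain ⟨n, k5, k6⟩ := h1 ((l ++ l').filter u)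
      (fun x hx => by simpa using (List.mem_filter.1 hx).2) (max m m')
    obtain ⟨y, k7, k8⟩ := k2 n ((le_max_left _ _).trans k5)
    obtain ⟨y', k9, k10⟩ := k4 n ((le_max_right _ _).trans k5)
    have e1 := (k1 y k7).resolve_left fun h => k8 (k6 y (by simp [k7, h]))
    have e2 := (k3 y' k9).resolve_left fun h => k10 (k6 y' (by simp [k9, h]))
    exact (hST n).elim (e1 ▸ k8) (e2 ▸ k10)
  have h4 : (atTop ⊓ ⨅ S : {S // u S}, 𝓟 {n | S.1.Mem n} : Filter ℕ).NeBot := by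
    rw [← frequently_true_iff_neBot]
    intro h
    obtain ⟨a, ha, b, hb, h5⟩ := mem_inf_iff.1 h
    obtain ⟨I, hI, V, hV, rfl⟩ := mem_iInf.1 hb
    obtain ⟨m, hm⟩ := mem_atTop_sets.1 ha
    obtain ⟨n, k1, k2⟩ := h1 (hI.toFinset.toList.map Subtype.val) (by
      simp only [List.mem_map]
      rintro _ ⟨x, -, rfl⟩
      exact x.2) m
    have h6 : n ∈ a ∩ ⋂ i, V i := ⟨hm n k1, Set.mem_iInter.2 fun i =>
      hV i (k2 _ (List.mem_map.2 ⟨i.1, by simp, rfl⟩))⟩
    rw [← h5] at h6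
    exact h6 trivial
  obtain ⟨U, hU⟩ := Ultrafilter.exists_le (atTop ⊓ ⨅ S : {S // u S}, 𝓟 {n | S.1.Mem n} : Filter ℕ)
  refine ⟨U, hU.trans inf_le_left, hu.congr_iff fun S => ?_⟩
  have h5 : ∀ S, u S → ∀ᶠ n in U, S.Mem n := fun S hS =>
    (hU.trans (inf_le_right.trans (iInf_le _ ⟨S, hS⟩))) (mem_principal_self _)
  refine ⟨h5 S, fun h => (h3 S ⟨fun n => ¬ S.Mem n, S.def_mem.not⟩ fun n => em _).resolve_right
    fun h' => ?_⟩
  exact Ultrafilter.eventually_not.1 (h5 _ h') h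

theorem exists_ulim (U : Ultrafilter ℕ) {s : ℕ → ℝ} {C : ℝ} (h : ∀ n, |s n| ≤ C) :
    ∃ r, Tendsto s U (𝓝 r) := by
  obtain ⟨r, -, hr⟩ := (isCompact_Icc (a := -C) (b := C)).ultrafilter_le_nhds (U.map s)
    (le_principal_iff.2 (mem_map.2 (Eventually.of_forall fun n => abs_le.1 (h n))))
  exact ⟨r, hr⟩

theorem UltraIn.realFn {U : Ultrafilter ℕ} (h : UltraIn N U) {s : W → ℕ → ℝ}
    (hs : RealFn N (fun z : W × ℕ => s z.1 z.2)) {r : W → ℝ}
    (hr : ∀ w, Tendsto (s w) U (𝓝 (r w))) : RealFn N r := by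
  have h1 := h.ev (W := W × Q3) (R := fun z n => rq z.2 < s z.1 n) (by fun_prop)
  have h2 : DefF N (fun z : W × Q3 => ∃ u : Q3, rq z.2 < rq u ∧ ∀ᶠ n in U, rq u < s z.1 n) :=
    DefF.exists (DefF.and (by fun_prop)
      (h1.comp (f := fun z : (W × Q3) × Q3 => (z.1.1, z.2)) (by fun_prop)))
  refine h2.congr_iff fun z => ⟨fun ⟨u, k1, k2⟩ => k1.trans_le (ge_of_tendsto (hr _)
    (k2.mono fun _ h => h.le)), fun k => ?_⟩
  obtain ⟨u, k1, k2⟩ := exists_rq k
  exact ⟨u, k1, (hr _).eventually (lt_mem_nhds k2)⟩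

end Pool.Agent.P.MP_5a7d1f_lc.Gro
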