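import Pool.Agent.P.MP_5a7d1f_lc.Gro.Indep
import Pool.Agent.P.MP_5a7d1f_lc.Gro.Cube

/-!
Stepping up to an independent family of size continuum, and the embedding of the space of
ultrafilters on the natural numbers.
-/

set_option synthInstance.maxSize 16384
set_option linter.unusedSectionVars false

namespace Pool.Agent.P.MP_5a7d1f_lc.Gro

open ZFSet Filter Topology Pool.Agent.Lib.Forcing Pool.Agent.Lib.Typed Pool.Agent.P.MP_af0a18_lc

variable {N : Set ZFSet.{0}} [ZFC N] [Enum N]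
variable {A : Type} [Coded N A] [BooleanAlgebra A] [hA : BA N A]
variable {K : Type} [Coded N K] [LinearOrder K] [WO N K] {nu : ℕ → K} {lam : K}

theorem Indep.comp {R R' A : Type} [BooleanAlgebra A] {e : R → A} {H : R → Prop} (h : Indep e H)
    {Rp : R' → Prop} {g : R' → R} (h1 : ∀ r, Rp r → H (g r))
    (h2 : ∀ r r', Rp r → Rp r' → g r = g r' → r = r') : Indep (fun r => e (g r)) Rp := by
  intro l hl
  have k : cell (fun r => e (g r)) l = cell e (l.map fun z => (g z.1, z.2)) := by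
    rw [cell, cell, List.map_map]
    rfl
  rw [k]
  refine h _ ?_
  simp only [Val, List.forall_mem_map]
  exact fun z hz => ⟨h1 _ (hl z hz).1, fun z' hz' e =>
    (hl z hz).2 z' hz' (h2 _ _ (hl z hz).1 (hl z' hz').1 e)⟩

theorem Scale.indep_level [Infinite A] (sc : Scale N nu lam) (ma : MAT N (Lv lam)) (h : GStar N A)
    (n : ℕ) : ∃ e : K → A, DefF N e ∧ Indep e (fun r => r < nu (n + 1)) := by
  have hS := sc.succ n
  have := sc.zero
  have := hS.ne
  have := sc.ne 0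
  have := sc.top.big
  have hL : Sm N (Lv lam) (fun _ : Lv (nu (n + 1)) => True) := sm_lv_le (sc.lt _).le
  obtain ⟨b, μ, hb, hμ, h1, h2⟩ := h.large_type ma hL
  obtain ⟨H, hH, h3, h4⟩ := exists_indep (Lv (nu 0)) (L' := Lv (nu n))
    (sm_lv_le (sc.mono.monotone (Nat.zero_le n))) ma hL hμ h1 hb h2
  obtain ⟨s, hs, h5, h6⟩ := exists_strictMono (L := Lv (nu n)) hH h3
  obtain ⟨c, hc, Hc⟩ := choice' (N := N) (p := fun r => r < nu (n + 1))
    (R := fun r (x : Lv (nu (n + 1))) => x.1 = r) (by fun_prop) fun r hr => ⟨⟨r, hr⟩, rfl⟩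
  exact ⟨fun r => b (s (c r)), by fun_prop, h4.comp (g := fun r => s (c r)) (fun _ _ => h6 _)
    fun r r' hr hr' e => by rw [← Hc r hr, ← Hc r' hr', h5.injective e]⟩

/-- The stepping up theorem. -/
theorem Scale.step_up (sc : Scale N nu lam) (ma : MAT N (Lv lam)) (hP : PairSep N A)
    (h : ∀ n, ∃ e : K → A, DefF N e ∧ Indep e (fun r => r < nu (n + 3))) :
    ∃ e : K → A, DefF N e ∧ Indep e (fun _ => True) := by
  classical
  have hK := sc.top
  have := hK.ne
  have := hK.big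
  have := sc.def_nu
  obtain ⟨c, hc, Hc⟩ := choice (N := N)
    (R := fun (n : ℕ) (y : DFun N (List K) (Pt N A) × DSet N (A × K)) =>
      (∀ a, Ctble N (fun r => y.2.Mem (a, r))) ∧
      (∀ r, r < nu (n + 3) → y.1.app [] ≠ y.1.app [r]) ∧ ∀ a S S',
        (∀ r, y.2.Mem (a, r) → (r ∈ S ↔ r ∈ S')) → (y.1.app S).has a → (y.1.app S').has a)
    (by simp only [all_eq, imp_eq]; fun_prop) fun n => by
      obtain ⟨e, he, h1⟩ := h n
      obtain ⟨u, Sup, h2⟩ := exists_cube he (by fun_prop) h1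
      exact ⟨(u, Sup), h2⟩
  obtain ⟨f, hf, f1, f2⟩ := sc.sparse
  have : Nonempty (DSet N ℕ) := ⟨⟨fun _ => True, by fun_prop⟩⟩
  obtain ⟨g, hg, Hg⟩ := tdc (N := N) (K := K) (Y := DSet N ℕ × A) (R := fun β g y =>
      (∀ m, ∃ n, m ≤ n ∧ y.1.Mem n) ∧ (∀ α, α < β → ∃ m, ∀ n, m ≤ n → y.1.Mem n → (g α).1.Mem n) ∧
      ∀ n, y.1.Mem n → ¬ (((c n).1.app []).has y.2 ↔ ((c n).1.app [f β n]).has y.2))
    (by simp only [all_eq, imp_eq]; fun_prop)
    (fun β g g' y e H => ⟨H.1, fun α hα => e α hα ▸ H.2.1 α hα, H.2.2⟩) fun β g hg H => by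
      obtain ⟨π, hπ, Hπ⟩ := hK.small_lt β
      obtain ⟨s, hs, Hs⟩ := ma.pseudo (X := ℕ) ctble_nat (Big.nat.prod' sm_self)
        (F := fun (i : ℕ × Lv lam) n => i.1 ≤ n ∧ (π i.2 < β → (g (π i.2)).1.Mem n))
        (by simp only [imp_eq]; fun_prop) fun l => by
          have k1 : ∀ᶠ n in atTop, ∀ i ∈ {i | i ∈ l}, i.1 ≤ n :=
            (eventually_all_finite l.finite_toSet).2 fun i _ => eventually_ge_atTop _
          by_cases k : ∃ i ∈ l, π i.2 < β
          · obtain ⟨i, k2, k3⟩ := Set.exists_max_image {i | i ∈ l ∧ π i.2 < β} (fun i => π i.2)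
              (l.finite_toSet.subset fun _ h => h.1) k
            have k4 : ∀ᶠ n in atTop, ∀ j ∈ {j | j ∈ l}, π j.2 < β → (g (π i.2)).1.Mem n →
                (g (π j.2)).1.Mem n := (eventually_all_finite l.finite_toSet).2 fun j hj => by
              by_cases k5 : π j.2 < β
              · rcases (k3 j ⟨hj, k5⟩).eq_or_lt with e | e
                · exact Eventually.of_forall fun _ _ h => e ▸ h
                · exact (eventually_atTop.2 ((H _ k2.2).2.1 _ e)).mono fun _ h _ => h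
              · exact Eventually.of_forall fun _ h => (k5 h).elim
            obtain ⟨n, k5, k6, k7⟩ := ((frequently_atTop.2 (H _ k2.2).1).and_eventually
              (k1.and k4)).exists
            exact ⟨n, fun j hj => ⟨k6 j hj, fun h => k7 j hj h k5⟩⟩
          · exact k1.exists.imp fun n h j hj => ⟨h j hj, fun h' => (k ⟨j, hj, h'⟩).elim⟩
      obtain ⟨b, hb⟩ := hP (fun k => (c (s k)).1.app []) (fun k => (c (s k)).1.app [f β (s k)])
        (by fun_prop) (by fun_prop) fun k => (Hc _).2.1 _ (f1 _ _)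
      refine ⟨(⟨fun n => (∃ k, s k = n) ∧
        ¬ (((c n).1.app []).has b ↔ ((c n).1.app [f β n]).has b), by fun_prop⟩, b), fun m => ?_,
        fun α hα => ?_, fun n h => h.2⟩
      · obtain ⟨k0, k1⟩ := Hs (m, (Big.nonempty N _).some)
        obtain ⟨k, k2, k3⟩ := hb k0
        exact ⟨s k, (k1 k k2).1, ⟨k, rfl⟩, k3⟩
      · obtain ⟨i, rfl⟩ := Hπ α hα
        obtain ⟨k0, k1⟩ := Hs (0, i)
        obtain ⟨m, hm⟩ := ((Set.finite_lt_nat k0).image s).bddAbove
        refine ⟨m + 1, ?_⟩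
        rintro _ hn ⟨⟨k, rfl⟩, -⟩
        exact (k1 k (not_lt.1 fun k2 => Nat.not_succ_le_self _ (hn.trans (hm ⟨k, k2, rfl⟩)))).2 hα
  have := sc.succ 2
  have := sc.ne 2
  have := sc.ne 3
  obtain ⟨γ, hγ⟩ := setmap (N := N) (L0 := Lv (nu 2)) (L := Lv lam) (K := K) (Lv (nu 3))
    (sm_lv_le (sc.lt _).le) (sm_lv_le (sc.lt _).le)
    (F := fun β α => ∀ m, ∃ n, m ≤ n ∧ (c n).2.Mem ((g β).2, f α n))
    (by simp only [all_eq]; fun_prop) fun β => by
      obtain ⟨S, hS, HS⟩ := exists_enum (N := N) (R := fun n r => (c n).2.Mem ((g β).2, r))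
        (by fun_prop) fun n => (Hc n).1 _
      exact (f2 S hS).mono fun α H m => (H m).imp fun n h =>
        ⟨h.1, (HS n _ h.2).imp fun _ h => h.symm⟩
  obtain ⟨s, hs, s1, s2⟩ := exists_strictMono (N := N) (L := Lv lam) (p := fun β => γ ≤ β ∧
      (∀ x, (∀ m, ∃ n, m ≤ n ∧ (c n).2.Mem ((g β).2, f x n)) → x < β → x < γ) ∧
      ∀ α, α < β → ∀ x, (∀ m, ∃ n, m ≤ n ∧ (c n).2.Mem ((g α).2, f x n)) → x < β)
    (by simp only [all_eq, imp_eq]; fun_prop) hγ
  have free : ∀ i j, i ≠ j → ∀ᶠ n in atTop, ¬ (c n).2.Mem ((g (s j)).2, f (s i) n) := by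
    intro i j hij
    rw [← not_frequently, frequently_atTop]
    intro H
    rcases lt_or_gt_of_ne hij with k | k
    exacts [((s2 j).2.1 _ H (s1 k)).not_ge (s2 i).1, lt_irrefl _ ((s2 i).2.2 _ (s1 k) _ H)]
  refine ⟨fun i => (g (s i)).2, by fun_prop, fun l hl => ?_⟩
  obtain ⟨n, n1, n2⟩ : ∃ n, (∀ z ∈ l, (g (s z.1)).1.Mem n) ∧ ∀ z ∈ l, ∀ z' ∈ l, z.1 ≠ z'.1 →
      ¬ (c n).2.Mem ((g (s z'.1)).2, f (s z.1) n) := by
    by_cases k : l = []
    · exact ⟨0, by simp [k]⟩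
    obtain ⟨i, k2, k3⟩ := Set.exists_max_image {z | z ∈ l} Prod.fst l.finite_toSet
      (List.exists_mem_of_ne_nil l k)
    have k4 : ∀ᶠ n in atTop, ∀ j ∈ {j | j ∈ l}, (g (s i.1)).1.Mem n → (g (s j.1)).1.Mem n :=
      (eventually_all_finite l.finite_toSet).2 fun j hj => by
        rcases (k3 j hj).eq_or_lt with e | e
        · exact Eventually.of_forall fun _ h => e ▸ h
        · exact eventually_atTop.2 ((Hg _).2.1 _ (s1 e))
    have k5 : ∀ᶠ n in atTop, ∀ z ∈ {j | j ∈ l}, ∀ z' ∈ {j | j ∈ l}, z.1 ≠ z'.1 →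
        ¬ (c n).2.Mem ((g (s z'.1)).2, f (s z.1) n) :=
      (eventually_all_finite l.finite_toSet).2 fun z _ =>
        (eventually_all_finite l.finite_toSet).2 fun z' _ => by
          by_cases e : z.1 = z'.1
          · exact Eventually.of_forall fun _ h => (h e).elim
          · exact (free _ _ e).mono fun _ h _ => h
    obtain ⟨n, k6, k7, k8⟩ := ((frequently_atTop.2 (Hg (s i.1)).1).and_eventually (k4.and k5)).exists
    exact ⟨n, fun z hz => k7 z hz k6, k8⟩
  have inv : ∀ a S S', (∀ r, (c n).2.Mem (a, r) → (r ∈ S ↔ r ∈ S')) →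
      (((c n).1.app S).has a ↔ ((c n).1.app S').has a) := fun a S S' h =>
    ⟨(Hc n).2.2 a S S' h, (Hc n).2.2 a S' S fun r hr => (h r hr).symm⟩
  obtain ⟨S, hS⟩ : ∃ S : List K, ∀ r, r ∈ S ↔
      ∃ z ∈ l, ¬ (((c n).1.app []).has (g (s z.1)).2 ↔ z.2) ∧ f (s z.1) n = r :=
    ⟨(l.filter fun z => ¬ (((c n).1.app []).has (g (s z.1)).2 ↔ z.2)).map fun z => f (s z.1) n,
      fun r => by simp only [List.mem_map, List.mem_filter, decide_eq_true_eq, and_assoc]⟩
  refine fun e => ((c n).1.app S).not_has_bot (e ▸ Pt.has_cell.2 fun z hz => ?_)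
  by_cases k : ((c n).1.app []).has (g (s z.1)).2 ↔ z.2
  · refine (inv _ S [] fun r hr => iff_of_false (fun k1 => ?_) List.not_mem_nil).trans k
    obtain ⟨z', k2, k3, rfl⟩ := (hS r).1 k1
    have k4 : z'.1 = z.1 := by_contra fun k4 => n2 z' k2 z hz k4 hr
    exact k3 (by rw [k4, (hl z' k2).2 z hz k4]; exact k)
  · have k1 := (Hg _).2.2 n (n1 z hz)
    refine (inv _ S [f (s z.1) n] fun r hr => ⟨fun k2 => ?_, fun k2 =>
      (hS r).2 ⟨z, hz, k, (List.mem_singleton.1 k2).symm⟩⟩).trans (by tauto)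
    obtain ⟨z', k3, -, rfl⟩ := (hS r).1 k2
    have k4 : z'.1 = z.1 := by_contra fun k4 => n2 z' k3 z hz k4 hr
    rw [k4, List.mem_singleton]

omit [Enum N] in
theorem nat_mem_iff {a : Set ℕ} : setCode nat a ∈ N ↔ DefF N (fun n => n ∈ a) :=
  setCode_mem_iff (X := ℕ)

omit [Enum N] in
theorem setCode_nat_inj : Function.Injective (setCode nat) := fun a b h => by
  have k : ∀ (a : Set ℕ) n, nat n ∈ setCode nat a ↔ n ∈ a := fun a n => by
    rw [mem_setCode]
    exact ⟨fun ⟨m, h1, h2⟩ => (by exact_mod_cast Ordinal.toZFSet_injective h2 : m = n) ▸ h1,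
      fun h => ⟨n, h, rfl⟩⟩
  ext n
  rw [← k, ← k, h]

/-- The space of ultrafilters on `ℕ` of `N`. -/
abbrev Beta (N : Set ZFSet.{0}) : Type := St N (setCode nat)

omit [Enum N] in
theorem Beta.def_mem (U : Beta N) {a : Set ℕ} (h : a ∈ U.1) : DefF N (fun n => n ∈ a) :=
  nat_mem_iff.1 (mem_of_mem U.2.1 (mem_setCode.2 ⟨a, h, rfl⟩))

omit [Enum N] in
theorem cd_mem_beta {T : Set (Set ℕ)} {S : DSet N ℕ} :
    cd N S ∈ setCode (setCode nat) T ↔ {n | S.Mem n} ∈ T := by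
  rw [mem_setCode, cd_dset_eq]
  exact ⟨fun ⟨a, h1, h2⟩ => setCode_nat_inj h2 ▸ h1, fun h => ⟨_, h, rfl⟩⟩

/-- An ultrafilter as a definable set. -/
def Beta.toDSet (U : Beta N) : DSet N (DSet N ℕ) :=
  ⟨fun S => {n | S.Mem n} ∈ U.1, (defF_mem U.2.1).congr_iff fun _ => cd_mem_beta⟩

omit [Enum N] in
theorem Beta.code_eq (U : Beta N) : stCode U = cd N U.toDSet := by
  ext z
  rw [mem_cd_dset, stCode, mem_setCode]
  constructor
  · rintro ⟨a, h, rfl⟩
    exact ⟨⟨_, U.def_mem h⟩, h, cd_dset_eq _⟩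
  · rintro ⟨S, h, rfl⟩
    exact ⟨_, h, (cd_dset_eq S).symm⟩

omit [Enum N] in
theorem Beta.toDSet_inj : Function.Injective (Beta.toDSet : Beta N → _) := fun U U' h => by
  have k : ∀ U U' : Beta N, U.toDSet = U'.toDSet → U.1 ⊆ U'.1 := fun U U' h a ha =>
    (congrArg (fun S => S.Mem ⟨_, U.def_mem ha⟩) h).mp ha
  exact Subtype.ext ((k _ _ h).antisymm (k _ _ h.symm))

noncomputable instance : Coded N (Beta N) :=
  ofCode Beta.toDSet Beta.toDSet_inj
    ((by simp only [all_eq, imp_eq]; fun_prop : DefF N (fun T : DSet N (DSet N ℕ) =>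
      (∀ a b c : DSet N ℕ, (∀ n, c.Mem n ↔ a.Mem n ∧ b.Mem n) → (T.Mem c ↔ T.Mem a ∧ T.Mem b)) ∧
        ∀ a c : DSet N ℕ, (∀ n, c.Mem n ↔ ¬ a.Mem n) → (T.Mem c ↔ ¬ T.Mem a))).congr_iff fun T =>
      ⟨fun h => by
        have k : ∀ S : DSet N ℕ, {n | S.Mem n} ∈ {a | ∃ S, T.Mem S ∧ {n | S.Mem n} = a} ↔ T.Mem S :=
          fun S => ⟨fun ⟨S', h1, h2⟩ => (DSet.ext h2 : S' = S) ▸ h1, fun h => ⟨S, h, rfl⟩⟩
        refine ⟨⟨{a | ∃ S, T.Mem S ∧ {n | S.Mem n} = a}, ?_, fun a b ha hb => ?_, fun a ha => ?_⟩,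
          DSet.ext (funext fun S => propext (k S))⟩
        · convert cd_mem (N := N) T
          ext z
          rw [mem_cd_dset, mem_setCode]
          constructor
          · rintro ⟨_, ⟨S, h, rfl⟩, rfl⟩
            exact ⟨S, h, cd_dset_eq S⟩
          · rintro ⟨S, h, rfl⟩
            exact ⟨_, ⟨S, h, rfl⟩, (cd_dset_eq S).symm⟩
        · rw [nat_mem_iff] at ha hb
          exact (k ⟨_, ha.and hb⟩).trans ((h.1 ⟨_, ha⟩ ⟨_, hb⟩ _ fun _ => Iff.rfl).trans
            (and_congr (k ⟨_, ha⟩).symm (k ⟨_, hb⟩).symm))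
        · rw [nat_mem_iff] at ha
          exact (k ⟨_, ha.not⟩).trans ((h.2 ⟨_, ha⟩ _ fun _ => Iff.rfl).trans
            (not_congr (k ⟨_, ha⟩).symm)), by
        rintro ⟨U, rfl⟩
        refine ⟨fun a b c h => ?_, fun a c h => ?_⟩
        · exact (iff_of_eq (congrArg (· ∈ U.1) (Set.ext h))).trans
            (U.2.2.1 _ _ (nat_mem_iff.2 a.def_mem) (nat_mem_iff.2 b.def_mem))
        · exact (iff_of_eq (congrArg (· ∈ U.1) (Set.ext h))).trans
            (U.2.2.2 _ (nat_mem_iff.2 a.def_mem))⟩)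
    stCode Beta.code_eq

/-- An independent family indexed by the power set gives an embedding. -/
theorem containsBeta {e : DSet N ℕ → A} (he : DefF N e) (ind : Indep e fun _ => True) :
    ContainsBetaIn N (cd N : A → ZFSet.{0}) := by
  obtain ⟨y, hy, Hy⟩ := choice (N := N) (R := fun (k : ℕ) (x : Pt N A) =>
      ∀ S, x.has (lit e (S, S.Mem k))) (by simp only [all_eq]; fun_prop) fun k => by
    obtain ⟨x, hx⟩ := exists_pt (N := N) (F := fun a => ∃ S, lit e (S, S.Mem k) = a) (by fun_prop)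
      fun l hl => by
        obtain ⟨p, h1, rfl⟩ : ∃ p : List (DSet N ℕ × Prop), (∀ z ∈ p, z.2 = z.1.Mem k) ∧
            p.map (lit e) = l := by
          induction l with
          | nil => exact ⟨[], by simp, rfl⟩
          | cons a l ih =>
            obtain ⟨p, h1, rfl⟩ := ih fun b hb => hl b (List.mem_cons_of_mem _ hb)
            obtain ⟨S, rfl⟩ := hl a List.mem_cons_self
            exact ⟨(S, S.Mem k) :: p, List.forall_mem_cons.2 ⟨rfl, h1⟩, rfl⟩
        exact ind p fun z hz => ⟨trivial, fun z' hz' e => by rw [h1 z hz, h1 z' hz', e]⟩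
    exact ⟨x, fun S => hx _ ⟨S, rfl⟩⟩
  have h1 : ∀ S : DSet N ℕ, {k | (y k).has (e S)} = {k | S.Mem k} := fun S =>
    Set.ext fun k => Pt.has_lit.1 (Hy k S)
  obtain ⟨T, hT, HT⟩ := exists_dset (N := N) (R := fun (a : A) (k : ℕ) => (y k).has a) (by fun_prop)
  have h2 : ∀ a, {k | (T a).Mem k} = {k | (y k).has a} := fun a => Set.ext (HT a)
  have h3 : DefF N (Beta.toDSet : Beta N → _) := defF_of_cd_eq fun U => U.code_eq.symm
  have h4 : DefF N (fun z : Beta N × A => {k | (y k).has z.2} ∈ z.1.1) :=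
    (DefF.mem (S := fun z : Beta N × A => z.1.toDSet) (f := fun z => T z.2) (h3.comp DefF.fst)
      (hT.comp DefF.snd)).congr_iff fun z => by
      rw [← h2]; rfl
  have h5 : ∀ a, setCode nat {k | (y k).has a} ∈ N := fun a =>
    nat_mem_iff.2 (by fun_prop : DefF N fun k => (y k).has a)
  let h : Beta N → Pt N A := fun U => Pt.mk (fun a => {k | (y k).has a} ∈ U.1)
    (h4.comp (f := fun a => (U, a)) (by fun_prop))
    (fun a b => (iff_of_eq (congrArg (· ∈ U.1) (Set.ext fun _ => Pt.has_inf))).trans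
      (U.2.2.1 _ _ (h5 a) (h5 b)))
    fun a => (iff_of_eq (congrArg (· ∈ U.1) (Set.ext fun _ => Pt.has_compl))).trans
      (U.2.2.2 _ (h5 a))
  have h6 : ∀ (U : Beta N) (S : DSet N ℕ), e S ∈ (h U).1 ↔ {k | S.Mem k} ∈ U.1 := fun U S => by
    rw [← h1]; rfl
  refine ⟨h, (funCode_mem_iff (X := Beta N) (Y := Pt N A)).2 (DefF.of_has h4), ⟨?_⟩,
    fun U U' e => Beta.toDSet_inj (DSet.ext (funext fun S => propext
      ((h6 U S).symm.trans (e ▸ h6 U' S))))⟩
  refine le_antisymm (continuous_iff_le_induced.1 (continuous_generateFrom_iff.2 ?_))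
    (le_generateFrom ?_)
  · rintro _ ⟨a, rfl⟩
    exact TopologicalSpace.isOpen_generateFrom_of_mem ⟨{k | (y k).has a}, rfl⟩
  · rintro _ ⟨a, rfl⟩
    by_cases k : DefF N (fun n => n ∈ a)
    · exact ⟨{x | e ⟨_, k⟩ ∈ x.1}, TopologicalSpace.isOpen_generateFrom_of_mem ⟨_, rfl⟩,
        Set.ext fun U => h6 U _⟩
    · exact ⟨∅, isOpen_empty, (Set.eq_empty_of_forall_notMem fun U hU => k (Beta.def_mem U hU)).symm⟩

/-- The theorem inside `N`, from the combinatorial form of the Grothendieck property. -/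
theorem Scale.containsBeta [Infinite A] (sc : Scale N nu lam) (ma : MAT N (Lv lam))
    (hc : Sm N K (fun _ : DSet N ℕ => True)) (h : GStar N A) :
    ContainsBetaIn N (cd N : A → ZFSet.{0}) := by
  have := sc.top.ne
  obtain ⟨e, he, h1⟩ := sc.step_up ma h.pairSep fun n => sc.indep_level ma h (n + 2)
  obtain ⟨j, hj, h2⟩ := hc.exists_inj
  exact Gro.containsBeta (e := fun S => e (j S)) (by fun_prop) (h1.comp (fun _ h => h) h2)

end Pool.Agent.P.MP_5a7d1f_lc.Gro
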